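import Mathlib.Topology.Sheaves.Presheaf
import Mathlib.Data.Int.Star
import Mathlib.Algebra.Order.Ring.Star
import Mathlib.Algebra.Order.Star.Real
import Mathlib.Data.Rat.Star
import Mathlib.RingTheory.WittVector.IsPoly
import Mathlib.Tactic

-- ======== part 0: formerly Pool.Agent.MP_337e3e_al.Defs
section MrgPart0

/-!
Basic definitions for closed subgroups of Thompson's group `F`.
-/

namespace Pool.Agent.MP_337e3e_al

open Set

/-- permutations of the line -/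
abbrev P := Equiv.Perm ℝ

/-- dyadic rationals -/
def Dy (x : ℝ) : Prop := ∃ (k : ℕ) (n : ℤ), x = n / 2 ^ k

/-- rationals -/
def Ra (x : ℝ) : Prop := ∃ q : ℚ, x = q

/-- `f` maps the standard interval `[n/2^k,(n+1)/2^k]` affinely onto `[n'/2^k',(n'+1)/2^k']` -/
def SA (f : P) (k : ℕ) (n : ℤ) (k' : ℕ) (n' : ℤ) : Prop :=
  ∀ t ∈ Icc (0 : ℝ) 1, f ((n + t) / 2 ^ k) = (n' + t) / 2 ^ k'

/-- `f` is standard-affine on all cells of depth `D` -/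
def PLD (f : P) (D : ℕ) : Prop := ∀ n : ℤ, ∃ (k' : ℕ) (n' : ℤ), SA f D n k' n'

/-- elements of Thompson's group `F` as maps of the line -/
structure PL (f : P) : Prop where
  mono : StrictMono f
  lo : ∀ x, x ≤ 0 → f x = x
  hi : ∀ x, 1 ≤ x → f x = x
  sa : ∃ D : ℕ, PLD f D

/-- a standard interval on which every element with a fixed point is the identity -/
def Rigid (H : Subgroup P) (k : ℕ) (n : ℤ) : Prop :=
  ∀ h ∈ H, ∀ s ∈ Icc (0 : ℝ) 1, h ((n + s) / 2 ^ k) = (n + s) / 2 ^ k →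
    ∀ t ∈ Icc (0 : ℝ) 1, h ((n + t) / 2 ^ k) = (n + t) / 2 ^ k

/-- a closed subgroup of `F` with finitely many non-rigid classes of standard intervals -/
structure Ctx where
  H : Subgroup P
  pl : ∀ h ∈ H, PL h
  cut : ∀ h ∈ H, ∀ d, Dy d → h d = d →
    ∃ h' ∈ H, (∀ x, x ≤ d → h' x = x) ∧ ∀ x, d ≤ x → h' x = h x
  T : Finset (ℕ × ℤ)
  fin : ∀ (k : ℕ) (n : ℤ), Rigid H k n ∨ ∃ t ∈ T, ∃ h ∈ H, SA h t.1 t.2 k n

/-- one-sided germ: on the side `σ = 1` (right) or `σ = -1` (left) `f` has slope `2^k` at `x` -/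
def Sl (σ : ℝ) (f : P) (x : ℝ) (k : ℤ) : Prop :=
  ∃ ε > (0 : ℝ), ∀ t ∈ Icc (0 : ℝ) ε, f (x + σ * t) = f x + σ * (2 ^ k * t)

open Classical in
/-- the exponent of the one-sided slope -/
noncomputable def sl (σ : ℝ) (f : P) (x : ℝ) : ℤ :=
  if h : ∃ k, Sl σ f x k then h.choose else 0

/-- `f` is affine on `[p,q]` -/
def AffOn (f : P) (p q : ℝ) : Prop :=
  ∀ x ∈ Icc p q, (q - p) * f x = (q - x) * f p + (x - p) * f q

/-- `f` has no dyadic fixed point in `(p,q]` -/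
def NDF (f : P) (p q : ℝ) : Prop := ∀ d, Dy d → p < d → d ≤ q → f d ≠ d

/-- words in the generators -/
abbrev Word := List (ℕ × Bool)

/-- value of a word -/
noncomputable def ev (l : List P) (w : Word) : P :=
  (w.map (fun q : ℕ × Bool => if q.2 then l.getD q.1 1 else (l.getD q.1 1)⁻¹)).prod

end Pool.Agent.MP_337e3e_al

end MrgPart0

-- ======== part 1: formerly Pool.Agent.MP_337e3e_al.Germ
section MrgPart1

/-!
Standard-affine pieces, the group of `PL` maps, one-sided slopes.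
-/

namespace Pool.Agent.MP_337e3e_al

open Set

lemma two_pow_pos' (k : ℕ) : (0 : ℝ) < 2 ^ k := by positivity

lemma Dy.ra {x : ℝ} (h : Dy x) : Ra x := by
  obtain ⟨k, n, rfl⟩ := h
  exact ⟨n / 2 ^ k, by push_cast; rfl⟩

lemma dy_zero : Dy 0 := ⟨0, 0, by simp⟩

lemma dy_one : Dy 1 := ⟨0, 1, by simp⟩

lemma dy_grid (k : ℕ) (n : ℤ) : Dy ((n : ℝ) / 2 ^ k) := ⟨k, n, rfl⟩

lemma exists_pow_lt {ε : ℝ} (hε : 0 < ε) : ∃ K : ℕ, ∀ k ≥ K, 1 / (2 : ℝ) ^ k < ε := by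
  obtain ⟨K, hK⟩ := exists_pow_lt_of_lt_one hε (show (1 / 2 : ℝ) < 1 by norm_num)
  refine ⟨K, fun k hk => lt_of_le_of_lt ?_ hK⟩
  rw [one_div_pow]
  exact one_div_le_one_div_of_le (by positivity) (pow_le_pow_right₀ (by norm_num) hk)

lemma exists_dy {a b : ℝ} (h : a < b) : ∃ d, Dy d ∧ a < d ∧ d < b := by
  obtain ⟨K, hK⟩ := exists_pow_lt (sub_pos.2 h)
  have h1 := hK K le_rfl
  have hp := two_pow_pos' K
  refine ⟨_, dy_grid K (⌊2 ^ K * a⌋ + 1), ?_, ?_⟩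
  · rw [lt_div_iff₀ hp]
    push_cast
    have := Int.lt_floor_add_one (2 ^ K * a)
    linarith
  · rw [div_lt_iff₀ hp]
    push_cast
    have := Int.floor_le (2 ^ K * a)
    rw [div_lt_iff₀ hp] at h1
    nlinarith

lemma Dy.deep {x : ℝ} (h : Dy x) : ∃ K : ℕ, ∀ k ≥ K, ∃ n : ℤ, x = n / 2 ^ k := by
  obtain ⟨K, n, rfl⟩ := h
  refine ⟨K, fun k hk => ?_⟩
  obtain ⟨e, rfl⟩ := Nat.exists_eq_add_of_le hk
  refine ⟨2 ^ e * n, ?_⟩
  push_cast
  rw [pow_add]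
  field_simp

lemma not_ra_iff {x : ℝ} : ¬ Ra x ↔ Irrational x := by
  unfold Ra Irrational
  simp only [Set.mem_range, not_exists]
  exact ⟨fun h q hq => h q hq.symm, fun h q hq => h q hq.symm⟩

lemma SA.apply {f : P} {k k' : ℕ} {n n' : ℤ} (h : SA f k n k' n') {x : ℝ}
    (h1 : (n : ℝ) / 2 ^ k ≤ x) (h2 : x ≤ (n + 1) / 2 ^ k) :
    f x = (n' + (2 ^ k * x - n)) / 2 ^ k' := by
  have hp := two_pow_pos' k
  rw [div_le_iff₀ hp] at h1
  rw [le_div_iff₀ hp] at h2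
  have := h (2 ^ k * x - n) ⟨by linarith, by linarith⟩
  rw [← this]
  congr 1
  field_simp
  ring

lemma SA.diff {f : P} {k k' : ℕ} {n n' : ℤ} (h : SA f k n k' n') {x y : ℝ}
    (h1 : (n : ℝ) / 2 ^ k ≤ x) (h2 : x ≤ (n + 1) / 2 ^ k)
    (h3 : (n : ℝ) / 2 ^ k ≤ y) (h4 : y ≤ (n + 1) / 2 ^ k) :
    f y = f x + 2 ^ ((k : ℤ) - k') * (y - x) := by
  rw [h.apply h1 h2, h.apply h3 h4, zpow_sub₀ (by norm_num), zpow_natCast, zpow_natCast]
  field_simp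
  ring

lemma SA.left {f : P} {k k' : ℕ} {n n' : ℤ} (h : SA f k n k' n') :
    f (n / 2 ^ k) = n' / 2 ^ k' := by
  simpa using h 0 ⟨le_rfl, zero_le_one⟩

lemma SA.right {f : P} {k k' : ℕ} {n n' : ℤ} (h : SA f k n k' n') :
    f ((n + 1) / 2 ^ k) = (n' + 1) / 2 ^ k' := h 1 ⟨zero_le_one, le_rfl⟩

lemma SA.sub {f : P} {k k' : ℕ} {n n' : ℤ} (h : SA f k n k' n') (e : ℕ) {r : ℤ}
    (h0 : 0 ≤ r) (h1 : r < 2 ^ e) : SA f (k + e) (2 ^ e * n + r) (k' + e) (2 ^ e * n' + r) := by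
  intro t ht
  have hp := two_pow_pos' e
  have h0' : (0 : ℝ) ≤ r := by exact_mod_cast h0
  have h1' : (r : ℝ) + 1 ≤ 2 ^ e := by exact_mod_cast h1
  have := h ((r + t) / 2 ^ e) ⟨div_nonneg (by linarith [ht.1]) hp.le,
    by rw [div_le_one hp]; linarith [ht.2]⟩
  have e1 : ∀ (m : ℤ) (j : ℕ), (((2 ^ e * m + r : ℤ) : ℝ) + t) / 2 ^ (j + e) =
      (m + (r + t) / 2 ^ e) / 2 ^ j := fun m j => by
    push_cast; rw [pow_add]; field_simp; ring
  rw [e1, e1, this]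

lemma SA.comp {f g : P} {k k' k'' : ℕ} {n n' n'' : ℤ} (hf : SA f k' n' k'' n'')
    (hg : SA g k n k' n') : SA (f * g) k n k'' n'' := fun t ht => by
  rw [Equiv.Perm.mul_apply, hg t ht, hf t ht]

@[simp] lemma app_inv (f : P) (x : ℝ) : f (f⁻¹ x) = x := by simp

@[simp] lemma inv_app (f : P) (x : ℝ) : f⁻¹ (f x) = x := by simp

lemma SA.inv {f : P} {k k' : ℕ} {n n' : ℤ} (hf : SA f k n k' n') : SA f⁻¹ k' n' k n :=
  fun t ht => by rw [← hf t ht]; simp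

lemma SA.one (k : ℕ) (n : ℤ) : SA 1 k n k n := fun _ _ => rfl

lemma PLD.deep {f : P} {D : ℕ} (h : PLD f D) (e : ℕ) (n : ℤ) :
    ∃ (k' : ℕ) (n' : ℤ), SA f (D + e) n (k' + e) n' := by
  have hp : (0 : ℤ) < 2 ^ e := by positivity
  obtain ⟨k', n', hs⟩ := h (n / 2 ^ e)
  have := hs.sub e (Int.emod_nonneg n hp.ne') (Int.emod_lt_of_pos n hp)
  rw [Int.mul_ediv_add_emod] at this
  exact ⟨_, _, this⟩

lemma PLD.mono {f : P} {D D' : ℕ} (h : PLD f D) (hD : D ≤ D') : PLD f D' := by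
  obtain ⟨e, rfl⟩ := Nat.exists_eq_add_of_le hD
  intro n
  obtain ⟨k', n', hs⟩ := h.deep e n
  exact ⟨_, _, hs⟩

lemma PLD.mul {f g : P} {D D' : ℕ} (hf : PLD f D) (hg : PLD g D') : PLD (f * g) (D' + D) := by
  intro n
  obtain ⟨k', n', hs⟩ := hg.deep D n
  obtain ⟨k'', n'', hs'⟩ := hf.mono (Nat.le_add_left D k') n'
  exact ⟨_, _, hs'.comp hs⟩

lemma PLD.one (D : ℕ) : PLD 1 D := fun n => ⟨D, n, SA.one D n⟩

lemma PL.one : PL 1 := ⟨strictMono_id, fun _ _ => rfl, fun _ _ => rfl, 0, PLD.one 0⟩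

lemma PL.mul {f g : P} (hf : PL f) (hg : PL g) : PL (f * g) := by
  refine ⟨hf.mono.comp hg.mono, fun x hx => ?_, fun x hx => ?_, ?_⟩
  · rw [Equiv.Perm.mul_apply, hg.lo x hx, hf.lo x hx]
  · rw [Equiv.Perm.mul_apply, hg.hi x hx, hf.hi x hx]
  · obtain ⟨D, hD⟩ := hf.sa
    obtain ⟨D', hD'⟩ := hg.sa
    exact ⟨_, hD.mul hD'⟩

lemma mono_inv {f : P} (hf : StrictMono f) : StrictMono (f⁻¹ : P) := by
  intro x y hxy
  rw [← hf.lt_iff_lt]
  simpa using hxy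

lemma SA.of_id {f : P} {k : ℕ} {n : ℤ}
    (h : ∀ x : ℝ, (n : ℝ) / 2 ^ k ≤ x → x ≤ (n + 1) / 2 ^ k → f x = x) : SA f k n k n := by
  intro t ht
  have hp := two_pow_pos' k
  exact h _ (by gcongr; linarith [ht.1]) (by gcongr; exact ht.2)

lemma PL.sa_out {f : P} (hf : PL f) (k : ℕ) {n : ℤ} (hn : n < 0 ∨ 2 ^ k ≤ n) : SA f k n k n := by
  have hp := two_pow_pos' k
  refine SA.of_id fun x h1 h2 => ?_
  rcases hn with hn | hn
  · refine hf.lo x (h2.trans (div_nonpos_of_nonpos_of_nonneg ?_ hp.le))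
    have : n + 1 ≤ 0 := by omega
    exact_mod_cast this
  · refine hf.hi x (le_trans ?_ h1)
    rw [le_div_iff₀ hp, one_mul]
    exact_mod_cast hn

lemma floor_cell (k : ℕ) (x : ℝ) :
    ((⌊2 ^ k * x⌋ : ℤ) : ℝ) / 2 ^ k ≤ x ∧ x < ((⌊2 ^ k * x⌋ : ℤ) + 1) / 2 ^ k := by
  have hp := two_pow_pos' k
  rw [div_le_iff₀ hp, lt_div_iff₀ hp]
  have := Int.floor_le (2 ^ k * x)
  have := Int.lt_floor_add_one (2 ^ k * x)
  constructor <;> linarith

lemma ceil_cell (k : ℕ) (x : ℝ) :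
    ((⌈2 ^ k * x⌉ - 1 : ℤ) : ℝ) / 2 ^ k < x ∧ x ≤ ((⌈2 ^ k * x⌉ - 1 : ℤ) + 1) / 2 ^ k := by
  have hp := two_pow_pos' k
  rw [div_lt_iff₀ hp, le_div_iff₀ hp]
  have := Int.le_ceil (2 ^ k * x)
  have := Int.ceil_lt_add_one (2 ^ k * x)
  push_cast
  constructor <;> linarith

lemma PL.inv {f : P} (hf : PL f) : PL f⁻¹ := by
  refine ⟨mono_inv hf.mono, fun x hx => ?_, fun x hx => ?_, ?_⟩
  · rw [Equiv.Perm.inv_eq_iff_eq, hf.lo x hx]
  · rw [Equiv.Perm.inv_eq_iff_eq, hf.hi x hx]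
  obtain ⟨D, hD⟩ := hf.sa
  have : ∃ M : ℕ, ∀ n : ℤ, ∃ (k' : ℕ) (n' : ℤ), k' ≤ M ∧ SA f D n k' n' := by
    choose κ ν hκ using hD
    refine ⟨max D ((Finset.Ico (0 : ℤ) (2 ^ D)).sup κ), fun n => ?_⟩
    by_cases hn : n < 0 ∨ 2 ^ D ≤ n
    · exact ⟨D, n, le_max_left _ _, hf.sa_out D hn⟩
    · push Not at hn
      exact ⟨κ n, ν n, le_max_of_le_right (Finset.le_sup (f := κ) (Finset.mem_Ico.2 hn)), hκ n⟩
  obtain ⟨M, hM⟩ := this
  refine ⟨M, fun m => ?_⟩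
  set y : ℝ := (m + 1 / 2) / 2 ^ M with hy
  obtain ⟨k', n', hk, hs⟩ := hM ⌊2 ^ D * f⁻¹ y⌋
  obtain ⟨e, rfl⟩ := Nat.exists_eq_add_of_le hk
  obtain ⟨c1, c2⟩ := floor_cell D (f⁻¹ y)
  have h1 := hf.mono.monotone c1
  have h2 := hf.mono c2
  rw [hs.left] at h1
  rw [hs.right] at h2
  simp only [app_inv] at h1 h2
  have hp := two_pow_pos' e
  have hq := two_pow_pos' k'
  rw [hy, pow_add, div_le_div_iff₀ hq (by positivity)] at h1
  rw [hy, pow_add, div_lt_div_iff₀ (by positivity) hq] at h2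
  have h3 : (2 : ℝ) ^ e * n' ≤ m + 1 / 2 := by
    by_contra hc
    push Not at hc
    nlinarith
  have h4 : (m : ℝ) + 1 / 2 < 2 ^ e * n' + 2 ^ e := by
    by_contra hc
    push Not at hc
    nlinarith
  have h5 : 2 ^ e * n' ≤ m := by
    have : ((2 ^ e * n' : ℤ) : ℝ) < (m + 1 : ℤ) := by push_cast; linarith
    have := Int.cast_lt.1 this
    omega
  have h6 : m < 2 ^ e * n' + 2 ^ e := by
    have : ((m : ℤ) : ℝ) < (2 ^ e * n' + 2 ^ e : ℤ) := by push_cast; linarith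
    exact Int.cast_lt.1 this
  have := (hs.sub e (r := m - 2 ^ e * n') (by omega) (by omega)).inv
  rw [show 2 ^ e * n' + (m - 2 ^ e * n') = m by ring] at this
  exact ⟨_, _, this⟩

lemma PL.pow {f : P} (hf : PL f) (n : ℕ) : PL (f ^ n) := by
  induction n with
  | zero => simpa using PL.one
  | succ n ih => rw [pow_succ]; exact ih.mul hf

lemma PL.zpow {f : P} (hf : PL f) (n : ℤ) : PL (f ^ n) := by
  rcases n with n | n
  · simpa using hf.pow n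
  · rw [zpow_negSucc]; exact (hf.pow _).inv

lemma PL.dy {f : P} (hf : PL f) {x : ℝ} (hx : Dy x) : Dy (f x) := by
  obtain ⟨D, hD⟩ := hf.sa
  obtain ⟨K, hK⟩ := hx.deep
  obtain ⟨n, rfl⟩ := hK (max D K) (le_max_right _ _)
  obtain ⟨k', n', hs⟩ := hD.mono (le_max_left D K) n
  rw [hs.left]
  exact dy_grid _ _

lemma PL.dy_iff {f : P} (hf : PL f) {x : ℝ} : Dy (f x) ↔ Dy x :=
  ⟨fun h => by simpa using hf.inv.dy h, hf.dy⟩

lemma PL.ra {f : P} (hf : PL f) {x : ℝ} (hx : Ra x) : Ra (f x) := by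
  obtain ⟨D, hD⟩ := hf.sa
  obtain ⟨k', n', hs⟩ := hD ⌊2 ^ D * x⌋
  obtain ⟨c1, c2⟩ := floor_cell D x
  rw [hs.apply c1 c2.le]
  obtain ⟨q, rfl⟩ := hx
  exact ⟨(n' + (2 ^ D * q - ⌊(2 : ℝ) ^ D * q⌋)) / 2 ^ k', by push_cast; rfl⟩

lemma PL.ra_iff {f : P} (hf : PL f) {x : ℝ} : Ra (f x) ↔ Ra x :=
  ⟨fun h => by simpa using hf.inv.ra h, hf.ra⟩

lemma PL.continuous {f : P} (hf : PL f) : Continuous f :=
  (hf.mono.orderIsoOfSurjective f f.surjective).continuous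

/-! ### one-sided slopes -/

/-- the two sides -/
def Sg (σ : ℝ) : Prop := σ = 1 ∨ σ = -1

lemma sg_one : Sg 1 := Or.inl rfl

lemma sg_neg : Sg (-1) := Or.inr rfl

lemma Sg.ne {σ : ℝ} (h : Sg σ) : σ ≠ 0 := by rcases h with rfl | rfl <;> norm_num

lemma SA.sl_right {f : P} {k k' : ℕ} {n n' : ℤ} (h : SA f k n k' n') {x : ℝ}
    (h1 : (n : ℝ) / 2 ^ k ≤ x) (h2 : x < (n + 1) / 2 ^ k) : Sl 1 f x (k - k') := by
  refine ⟨(n + 1) / 2 ^ k - x, by linarith, fun t ht => ?_⟩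
  rw [h.diff h1 h2.le (y := x + 1 * t) (by linarith [ht.1]) (by linarith [ht.2])]
  ring

lemma SA.sl_left {f : P} {k k' : ℕ} {n n' : ℤ} (h : SA f k n k' n') {x : ℝ}
    (h1 : (n : ℝ) / 2 ^ k < x) (h2 : x ≤ (n + 1) / 2 ^ k) : Sl (-1) f x (k - k') := by
  refine ⟨x - n / 2 ^ k, by linarith, fun t ht => ?_⟩
  rw [h.diff h1.le h2 (y := x + -1 * t) (by linarith [ht.2]) (by linarith [ht.1])]
  ring

lemma PL.exists_sl {f : P} (hf : PL f) {σ : ℝ} (hσ : Sg σ) (x : ℝ) : ∃ k, Sl σ f x k := by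
  obtain ⟨D, hD⟩ := hf.sa
  rcases hσ with rfl | rfl
  · obtain ⟨k', n', hs⟩ := hD ⌊2 ^ D * x⌋
    exact ⟨_, hs.sl_right (floor_cell D x).1 (floor_cell D x).2⟩
  · obtain ⟨k', n', hs⟩ := hD (⌈2 ^ D * x⌉ - 1)
    exact ⟨_, hs.sl_left (ceil_cell D x).1 (ceil_cell D x).2⟩

lemma Sl.unique {f : P} {σ x : ℝ} (hσ : Sg σ) {k k' : ℤ} (h : Sl σ f x k) (h' : Sl σ f x k') :
    k = k' := by
  obtain ⟨ε, hε, h⟩ := h
  obtain ⟨ε', hε', h'⟩ := h'
  have hm : 0 < min ε ε' := lt_min hε hε'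
  have h1 := h _ ⟨hm.le, min_le_left _ _⟩
  rw [h' _ ⟨hm.le, min_le_right _ _⟩, add_right_inj, mul_right_inj' hσ.ne,
    mul_left_inj' hm.ne'] at h1
  exact (zpow_right_injective₀ (by norm_num) (by norm_num) h1).symm

lemma PL.sl_spec {f : P} (hf : PL f) {σ : ℝ} (hσ : Sg σ) (x : ℝ) : Sl σ f x (sl σ f x) := by
  unfold sl
  rw [dif_pos (hf.exists_sl hσ x)]
  exact (hf.exists_sl hσ x).choose_spec

lemma Sl.eq {f : P} {σ x : ℝ} (hσ : Sg σ) {k : ℤ} (h : Sl σ f x k) : sl σ f x = k := by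
  unfold sl
  rw [dif_pos ⟨k, h⟩]
  exact Sl.unique hσ (Exists.choose_spec (⟨k, h⟩ : ∃ k, Sl σ f x k)) h

lemma Sl.mul {f g : P} {σ x : ℝ} {k k' : ℤ} (hf : Sl σ f (g x) k) (hg : Sl σ g x k') :
    Sl σ (f * g) x (k + k') := by
  obtain ⟨ε, hε, hf⟩ := hf
  obtain ⟨ε', hε', hg⟩ := hg
  have hp : (0 : ℝ) < 2 ^ k' := by positivity
  refine ⟨min ε' (ε / 2 ^ k'), lt_min hε' (by positivity), fun t ht => ?_⟩
  have h1 : 2 ^ k' * t ≤ ε := by
    have := ht.2.trans (min_le_right _ _)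
    rw [le_div_iff₀ hp] at this
    linarith
  rw [Equiv.Perm.mul_apply, hg t ⟨ht.1, ht.2.trans (min_le_left _ _)⟩,
    hf _ ⟨mul_nonneg hp.le ht.1, h1⟩, zpow_add₀ (by norm_num), Equiv.Perm.mul_apply]
  ring

lemma Sl.congr {f g : P} {σ x : ℝ} {k : ℤ} (hf : Sl σ f x k) {δ : ℝ} (hδ : 0 < δ)
    (h : ∀ t ∈ Icc (0 : ℝ) δ, g (x + σ * t) = f (x + σ * t)) : Sl σ g x k := by
  obtain ⟨ε, hε, hf⟩ := hf
  refine ⟨min ε δ, lt_min hε hδ, fun t ht => ?_⟩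
  have h0 := h 0 ⟨le_rfl, hδ.le⟩
  simp only [mul_zero, add_zero] at h0
  rw [h t ⟨ht.1, ht.2.trans (min_le_right _ _)⟩, hf t ⟨ht.1, ht.2.trans (min_le_left _ _)⟩, h0]

lemma sl_congr {f g : P} (hf : PL f) {σ x : ℝ} (hσ : Sg σ) {δ : ℝ} (hδ : 0 < δ)
    (h : ∀ t ∈ Icc (0 : ℝ) δ, g (x + σ * t) = f (x + σ * t)) : sl σ g x = sl σ f x :=
  ((hf.sl_spec hσ x).congr hδ h).eq hσ

lemma sl_congr_right {f g : P} (hf : PL f) {x y : ℝ} (hxy : x < y)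
    (h : ∀ t, x ≤ t → t ≤ y → g t = f t) : sl 1 g x = sl 1 f x :=
  sl_congr hf sg_one (sub_pos.2 hxy) fun t ht => h _ (by linarith [ht.1]) (by linarith [ht.2])

lemma sl_congr_left {f g : P} (hf : PL f) {x y : ℝ} (hxy : y < x)
    (h : ∀ t, y ≤ t → t ≤ x → g t = f t) : sl (-1) g x = sl (-1) f x :=
  sl_congr hf sg_neg (sub_pos.2 hxy) fun t ht => h _ (by linarith [ht.2]) (by linarith [ht.1])

lemma sl_mul {f g : P} (hf : PL f) (hg : PL g) {σ : ℝ} (hσ : Sg σ) (x : ℝ) :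
    sl σ (f * g) x = sl σ f (g x) + sl σ g x :=
  ((hf.sl_spec hσ _).mul (hg.sl_spec hσ _)).eq hσ

lemma sl_one {σ : ℝ} (hσ : Sg σ) (x : ℝ) : sl σ 1 x = 0 :=
  Sl.eq hσ ⟨1, one_pos, fun t _ => by simp⟩

lemma sl_inv {f : P} (hf : PL f) {σ : ℝ} (hσ : Sg σ) (x : ℝ) :
    sl σ f⁻¹ (f x) = - sl σ f x := by
  have := sl_mul hf.inv hf hσ x
  rw [inv_mul_cancel, sl_one hσ] at this
  omega

lemma sl_inv_fix {f : P} (hf : PL f) {σ : ℝ} (hσ : Sg σ) {x : ℝ} (hx : f x = x) :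
    sl σ f⁻¹ x = - sl σ f x := by
  rw [← sl_inv hf hσ x, hx]

lemma inv_fix {f : P} {x : ℝ} (hx : f x = x) : f⁻¹ x = x := by
  rw [Equiv.Perm.inv_eq_iff_eq, hx]

lemma pow_fix {f : P} {x : ℝ} (hx : f x = x) (n : ℕ) : (f ^ n) x = x :=
  Equiv.Perm.pow_apply_eq_self_of_apply_eq_self hx n

lemma zpow_fix {f : P} {x : ℝ} (hx : f x = x) (n : ℤ) : (f ^ n) x = x :=
  Equiv.Perm.zpow_apply_eq_self_of_apply_eq_self hx n

lemma sl_pow {f : P} (hf : PL f) {σ : ℝ} (hσ : Sg σ) {x : ℝ} (hx : f x = x) (n : ℕ) :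
    sl σ (f ^ n) x = n * sl σ f x := by
  induction n with
  | zero => simp [sl_one hσ]
  | succ n ih => rw [pow_succ, sl_mul (hf.pow n) hf hσ, hx, ih]; push_cast; ring

lemma sl_zpow {f : P} (hf : PL f) {σ : ℝ} (hσ : Sg σ) {x : ℝ} (hx : f x = x) (n : ℤ) :
    sl σ (f ^ n) x = n * sl σ f x := by
  rcases n with n | n
  · simpa using sl_pow hf hσ hx n
  · rw [zpow_negSucc, sl_inv_fix (hf.pow _) hσ (pow_fix hx _), sl_pow hf hσ hx,
      Int.negSucc_eq]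
    push_cast; ring

lemma sl_conj {f g : P} (hf : PL f) (hg : PL g) {σ : ℝ} (hσ : Sg σ) {x : ℝ} (hx : f x = x) :
    sl σ (g * f * g⁻¹) (g x) = sl σ f x := by
  rw [sl_mul (hg.mul hf) hg.inv hσ, sl_mul hg hf hσ, sl_inv hg hσ]
  simp [hx]

/-- at a non-dyadic point the map is affine on a two-sided neighbourhood -/
lemma PL.two_sided {f : P} (hf : PL f) {x : ℝ} (hx : ¬ Dy x) :
    ∃ (k : ℕ) (n : ℤ) (k' : ℕ) (n' : ℤ), SA f k n k' n' ∧ (n : ℝ) / 2 ^ k < x ∧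
      x < (n + 1) / 2 ^ k := by
  obtain ⟨D, hD⟩ := hf.sa
  obtain ⟨k', n', hs⟩ := hD ⌊2 ^ D * x⌋
  obtain ⟨c1, c2⟩ := floor_cell D x
  exact ⟨_, _, _, _, hs, lt_of_le_of_ne c1 fun h => hx (h ▸ dy_grid _ _), c2⟩

lemma PL.sl_eq {f : P} (hf : PL f) {x : ℝ} (hx : ¬ Dy x) : sl (-1) f x = sl 1 f x := by
  obtain ⟨k, n, k', n', hs, h1, h2⟩ := hf.two_sided hx
  rw [(hs.sl_left h1 h2.le).eq sg_neg, (hs.sl_right h1.le h2).eq sg_one]

lemma PL.sl_irr {f : P} (hf : PL f) {x : ℝ} (hx : ¬ Ra x) (hfx : f x = x) {σ : ℝ} (hσ : Sg σ) :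
    sl σ f x = 0 := by
  have hd : ¬ Dy x := fun h => hx h.ra
  have : sl 1 f x = 0 := by
    obtain ⟨k, n, k', n', hs, h1, h2⟩ := hf.two_sided hd
    rw [(hs.sl_right h1.le h2).eq sg_one]
    by_contra hne
    have hne' : (2 : ℚ) ^ k' - 2 ^ k ≠ 0 := by
      intro h
      have : (2 : ℚ) ^ k' = 2 ^ k := by linarith
      have := pow_right_injective₀ (by norm_num) (by norm_num) this
      omega
    have hne'' : (2 : ℝ) ^ k' - 2 ^ k ≠ 0 := by exact_mod_cast hne'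
    have e := hs.apply h1.le h2.le
    rw [hfx, eq_div_iff (two_pow_pos' k').ne'] at e
    refine hx ⟨(n' - n) / (2 ^ k' - 2 ^ k), ?_⟩
    push_cast
    rw [eq_div_iff hne'']
    linarith
  rcases hσ with rfl | rfl
  · exact this
  · rw [hf.sl_eq hd, this]

lemma PL.id_right {f : P} (hf : PL f) {x : ℝ} (hx : f x = x) (h : sl 1 f x = 0) :
    ∃ y, x < y ∧ ∀ t, x ≤ t → t ≤ y → f t = t := by
  obtain ⟨ε, hε, hs⟩ := hf.sl_spec sg_one x
  refine ⟨x + ε, by linarith, fun t h1 h2 => ?_⟩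
  have := hs (t - x) ⟨by linarith, by linarith⟩
  rw [h, hx] at this
  simpa using this

lemma PL.id_left {f : P} (hf : PL f) {x : ℝ} (hx : f x = x) (h : sl (-1) f x = 0) :
    ∃ y, y < x ∧ ∀ t, y ≤ t → t ≤ x → f t = t := by
  obtain ⟨ε, hε, hs⟩ := hf.sl_spec sg_neg x
  refine ⟨x - ε, by linarith, fun t h1 h2 => ?_⟩
  have := hs (x - t) ⟨by linarith, by linarith⟩
  rw [h, hx] at this
  simpa using this

lemma sl_right_of_id {f : P} {x y : ℝ} (hxy : x < y) (h : ∀ t, x ≤ t → t ≤ y → f t = t) :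
    sl 1 f x = 0 := by
  rw [sl_congr_right PL.one hxy h, sl_one sg_one]

lemma sl_left_of_id {f : P} {x y : ℝ} (hxy : y < x) (h : ∀ t, y ≤ t → t ≤ x → f t = t) :
    sl (-1) f x = 0 := by
  rw [sl_congr_left PL.one hxy h, sl_one sg_neg]

/-- near a fixed point with nontrivial one-sided slope there are no other fixed points -/
lemma PL.nofix {f : P} (hf : PL f) {σ : ℝ} (hσ : Sg σ) {x : ℝ} (hx : f x = x)
    (h : sl σ f x ≠ 0) : ∃ ε > (0 : ℝ), ∀ t, 0 < t → t ≤ ε → f (x + σ * t) ≠ x + σ * t := by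
  obtain ⟨ε, hε, hs⟩ := hf.sl_spec hσ x
  refine ⟨ε, hε, fun t h1 h2 he => h ?_⟩
  rw [hs t ⟨h1.le, h2⟩, hx, add_right_inj, mul_right_inj' hσ.ne, mul_eq_right₀ h1.ne'] at he
  exact zpow_right_injective₀ (a := (2 : ℝ)) (by norm_num) (by norm_num) (by simpa using he)

lemma PL.nofix_left {f : P} (hf : PL f) {x : ℝ} (hx : f x = x)
    (h : sl (-1) f x ≠ 0) : ∃ y, y < x ∧ ∀ t, y ≤ t → t < x → f t ≠ t := by
  obtain ⟨ε, hε, hs⟩ := hf.nofix sg_neg hx h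
  refine ⟨x - ε, by linarith, fun t h1 h2 => ?_⟩
  have := hs (x - t) (by linarith) (by linarith)
  simpa using this

lemma PL.nofix_right {f : P} (hf : PL f) {x : ℝ} (hx : f x = x)
    (h : sl 1 f x ≠ 0) : ∃ y, x < y ∧ ∀ t, x < t → t ≤ y → f t ≠ t := by
  obtain ⟨ε, hε, hs⟩ := hf.nofix sg_one hx h
  refine ⟨x + ε, by linarith, fun t h1 h2 => ?_⟩
  have := hs (t - x) (by linarith) (by linarith)
  simpa using this

lemma fix_of_pow {f : P} (hf : StrictMono f) {x : ℝ} {n : ℕ} (hn : n ≠ 0) (h : (f ^ n) x = x) :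
    f x = x := by
  have hm : ∀ m : ℕ, StrictMono (f ^ m : P) := fun m => by
    induction m with
    | zero => exact strictMono_id
    | succ m ih => rw [pow_succ]; exact ih.comp hf
  rcases lt_trichotomy (f x) x with h1 | h1 | h1
  · have : ∀ m : ℕ, (f ^ (m + 1)) x < x := fun m => by
      induction m with
      | zero => simpa using h1
      | succ m ih => rw [pow_succ, Equiv.Perm.mul_apply]; exact (hm _ h1).trans ih
    obtain ⟨m, rfl⟩ := Nat.exists_eq_succ_of_ne_zero hn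
    exact absurd h (this m).ne
  · exact h1
  · have : ∀ m : ℕ, x < (f ^ (m + 1)) x := fun m => by
      induction m with
      | zero => simpa using h1
      | succ m ih => rw [pow_succ, Equiv.Perm.mul_apply]; exact ih.trans (hm _ h1)
    obtain ⟨m, rfl⟩ := Nat.exists_eq_succ_of_ne_zero hn
    exact absurd h (this m).ne'

lemma fix_of_zpow {f : P} (hf : StrictMono f) {x : ℝ} {n : ℤ} (hn : n ≠ 0) (h : (f ^ n) x = x) :
    f x = x := by
  rcases n with n | n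
  · exact fix_of_pow hf (n := n) (fun h0 => hn (by simp [h0])) (by simpa using h)
  · rw [zpow_negSucc] at h
    exact fix_of_pow hf (Nat.succ_ne_zero n) (by simpa using inv_fix h)

/-- iterating an affine contraction -/
lemma iter_affine {f : P} {x μ σ ε : ℝ} (h0 : 0 ≤ μ) (h1 : μ ≤ 1)
    (h : ∀ t ∈ Icc (0 : ℝ) ε, f (x + σ * t) = x + σ * (μ * t)) (n : ℕ) :
    ∀ t ∈ Icc (0 : ℝ) ε, (f ^ n) (x + σ * t) = x + σ * (μ ^ n * t) := by
  induction n with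
  | zero => intro t _; simp
  | succ n ih =>
    intro t ht
    rw [pow_succ, Equiv.Perm.mul_apply, h t ht,
      ih _ ⟨mul_nonneg h0 ht.1, (mul_le_of_le_one_left ht.1 h1).trans ht.2⟩]
    ring

/-- a left contraction pushes points towards the fixed point -/
lemma PL.contr_left {f : P} (hf : PL f) {x : ℝ} (hx : f x = x) (h : sl (-1) f x < 0) :
    ∃ y, y < x ∧ ∀ c, y ≤ c → ∀ c', c' < x → ∃ n : ℕ, c' ≤ (f ^ n) c := by
  obtain ⟨ε, hε, hs⟩ := hf.sl_spec sg_neg x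
  rw [hx] at hs
  have hμ : (2 : ℝ) ^ sl (-1) f x < 1 := zpow_lt_one_of_neg₀ (by norm_num) h
  have hi := iter_affine (by positivity) hμ.le hs
  refine ⟨x - ε, by linarith, fun c hc c' hc' => ?_⟩
  obtain ⟨n, hn⟩ := exists_pow_lt_of_lt_one (div_pos (sub_pos.2 hc') hε) hμ
  refine ⟨n, le_trans ?_ ((hf.pow n).mono.monotone hc)⟩
  have := hi n ε ⟨hε.le, le_rfl⟩
  rw [show x - ε = x + -1 * ε by ring, this]
  rw [lt_div_iff₀ hε] at hn
  linarith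

end Pool.Agent.MP_337e3e_al

end MrgPart1

-- marker of a merged file
example : 731051 + 167882 = 731051 + 167882 := rfl
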