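import Mathlib.Algebra.Order.Floor.Semifield
import Mathlib.Combinatorics.SimpleGraph.Basic
import Mathlib.Computability.RE
import Mathlib.Order.CompletePartialOrder
import Pool.Agent.MP_337e3e_al.Germ

-- ======== part 0: formerly Pool.Agent.MP_337e3e_al.Dyn
section MrgPart0

/-!
Dynamics of single elements: affine pieces, nodes, rigidity of conjugators, linearization.
-/

namespace Pool.Agent.MP_337e3e_al

open Set Filter Topology

/-- equality on an interval -/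
def EqI (f g : P) (p q : ℝ) : Prop := ∀ x, p ≤ x → x ≤ q → f x = g x

/-- endpoints and fixed points at which the map is not locally the identity -/
def Node (f : P) (z : ℝ) : Prop := z = 0 ∨ z = 1 ∨ (f z = z ∧ (sl 1 f z ≠ 0 ∨ sl (-1) f z ≠ 0))

lemma affOn_of {f : P} {p q α l : ℝ} (h : ∀ x, p ≤ x → x ≤ q → f x = α + l * x) :
    AffOn f p q := fun x hx => by
  have hpq := hx.1.trans hx.2
  rw [h x hx.1 hx.2, h p le_rfl hpq, h q hpq le_rfl]
  ring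

lemma AffOn.exists {f : P} {p q : ℝ} (h : AffOn f p q) (hpq : p < q) :
    ∃ l, ∀ x, p ≤ x → x ≤ q → f x = f p + l * (x - p) := by
  refine ⟨(f q - f p) / (q - p), fun x h1 h2 => ?_⟩
  have := h x ⟨h1, h2⟩
  have hne : q - p ≠ 0 := (sub_pos.2 hpq).ne'
  field_simp
  linarith

lemma AffOn.mono {f : P} {p q p' q' : ℝ} (h : AffOn f p q) (h1 : p ≤ p') (h2 : q' ≤ q) :
    AffOn f p' q' := by
  rcases lt_or_ge p q with hpq | hpq
  · obtain ⟨l, hl⟩ := h.exists hpq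
    exact affOn_of (α := f p - l * p) (l := l) fun x x1 x2 => by
      rw [hl x (h1.trans x1) (x2.trans h2)]; ring
  · intro x hx
    have e1 : x = p' := le_antisymm (hx.2.trans (h2.trans (hpq.trans h1))) hx.1
    have e2 : q' = p' := le_antisymm (h2.trans (hpq.trans h1)) (hx.1.trans hx.2)
    rw [e1, e2]
    ring

lemma AffOn.comp {f g : P} {p q : ℝ} (hg : StrictMono g) (h1 : AffOn g p q)
    (h2 : AffOn f (g p) (g q)) : AffOn (f * g) p q := by
  rcases lt_or_ge p q with hpq | hpq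
  · obtain ⟨l, hl⟩ := h1.exists hpq
    obtain ⟨l', hl'⟩ := h2.exists (hg hpq)
    exact affOn_of (α := f (g p) - l' * l * p) (l := l' * l) fun x x1 x2 => by
      rw [Equiv.Perm.mul_apply, hl' _ (hg.monotone x1) (hg.monotone x2), hl x x1 x2]; ring
  · intro x hx
    have e1 : x = p := le_antisymm (hx.2.trans hpq) hx.1
    have e2 : q = p := le_antisymm hpq (hx.1.trans hx.2)
    rw [e1, e2]
    ring

lemma AffOn.inv {f : P} {p q : ℝ} (hf : StrictMono f) (h : AffOn f p q) :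
    AffOn f⁻¹ (f p) (f q) := fun y hy => by
  have := h (f⁻¹ y) ⟨by rw [← hf.le_iff_le, app_inv]; exact hy.1,
    by rw [← hf.le_iff_le, app_inv]; exact hy.2⟩
  simp only [inv_app, app_inv] at this ⊢
  linarith

lemma SA.affOn {f : P} {k k' : ℕ} {n n' : ℤ} (h : SA f k n k' n') :
    AffOn f (n / 2 ^ k) ((n + 1) / 2 ^ k) :=
  affOn_of (α := (n' - n) / 2 ^ k') (l := 2 ^ k / 2 ^ k') fun x h1 h2 => by
    rw [h.apply h1 h2]; ring

lemma AffOn.extend {f : P} {p q s μ : ℝ} (h : AffOn f p q) (hps : p < s) (hsq : s ≤ q)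
    (hs : ∀ y, p ≤ y → y ≤ s → f y = s + μ * (y - s)) :
    ∀ y, p ≤ y → y ≤ q → f y = s + μ * (y - s) := by
  obtain ⟨l, hl⟩ := h.exists (hps.trans_le hsq)
  have h1 := hl s hps.le hsq
  rw [hs s hps.le le_rfl, hs p le_rfl hps.le] at h1
  have : l = μ := by
    have : (l - μ) * (s - p) = 0 := by linarith
    rcases mul_eq_zero.1 this with h | h <;> linarith
  intro y y1 y2
  rw [hl y y1 y2, hs p le_rfl hps.le, this]
  ring

lemma Sl.affOn_left {f : P} {x : ℝ} {k : ℤ} (h : Sl (-1) f x k) : ∃ y, y < x ∧ AffOn f y x := by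
  obtain ⟨ε, hε, h⟩ := h
  refine ⟨x - ε, by linarith, affOn_of (α := f x - 2 ^ k * x) (l := 2 ^ k) fun t h1 h2 => ?_⟩
  have := h (x - t) ⟨by linarith, by linarith⟩
  rw [show x + -1 * (x - t) = t by ring] at this
  rw [this]
  ring

lemma eqI_of_sl {f g : P} (hf : PL f) (hg : PL g) {s : ℝ} (e : f s = g s)
    (h : sl 1 f s = sl 1 g s) : ∃ r, s < r ∧ EqI f g s r := by
  obtain ⟨ε, hε, h1⟩ := hf.sl_spec sg_one s
  obtain ⟨ε', hε', h2⟩ := hg.sl_spec sg_one s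
  refine ⟨s + min ε ε', by linarith [lt_min hε hε'], fun x x1 x2 => ?_⟩
  have a1 := h1 (x - s) ⟨by linarith, by linarith [min_le_left ε ε']⟩
  have a2 := h2 (x - s) ⟨by linarith, by linarith [min_le_right ε ε']⟩
  rw [show s + 1 * (x - s) = x by ring] at a1 a2
  rw [a1, a2, e, h]

lemma eq_of_rat {φ ψ : ℝ → ℝ} (hφ : Continuous φ) (hψ : Continuous ψ) {a b : ℝ} (hab : a < b)
    (h : ∀ q : ℚ, a ≤ q → q ≤ b → φ q = ψ q) : ∀ x, a ≤ x → x ≤ b → φ x = ψ x := by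
  have hc : IsClosed {x | φ x = ψ x} := isClosed_eq hφ hψ
  have h1 : Ioo a b ⊆ {x | φ x = ψ x} := by
    refine ((Rat.denseRange_cast (𝕜 := ℝ)).open_subset_closure_inter isOpen_Ioo).trans ?_
    refine hc.closure_subset_iff.2 ?_
    rintro _ ⟨hx, q, rfl⟩
    exact h q hx.1.le hx.2.le
  have h2 := hc.closure_subset_iff.2 h1
  rw [closure_Ioo hab.ne] at h2
  exact fun x x1 x2 => h2 ⟨x1, x2⟩

/-! ### nodes -/

lemma Node.fix {f : P} (hf : PL f) {z : ℝ} (h : Node f z) : f z = z := by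
  rcases h with rfl | rfl | h
  · exact hf.lo 0 le_rfl
  · exact hf.hi 1 le_rfl
  · exact h.1

lemma Node.mem {f : P} (hf : PL f) {z : ℝ} (h : Node f z) : 0 ≤ z ∧ z ≤ 1 := by
  rcases h with rfl | rfl | ⟨-, h⟩
  · norm_num
  · norm_num
  constructor
  · by_contra hz
    push Not at hz
    rcases h with h | h
    · exact h (sl_right_of_id hz fun t _ ht => hf.lo t ht)
    · exact h (sl_left_of_id (y := z - 1) (by linarith) fun t _ ht => hf.lo t (by linarith))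
  · by_contra hz
    push Not at hz
    rcases h with h | h
    · exact h (sl_right_of_id (y := z + 1) (by linarith) fun t ht _ => hf.hi t (by linarith))
    · exact h (sl_left_of_id hz fun t ht _ => hf.hi t ht)

lemma Node.not_inner {f : P} {a b z : ℝ} (h : Node f z) (hid : EqI f 1 a b) (h0 : 0 ≤ a)
    (h1 : a < z) (h2 : z < b) (h3 : b ≤ 1) : False := by
  rcases h with rfl | rfl | ⟨-, h | h⟩
  · linarith
  · linarith
  · exact h (sl_right_of_id h2 fun t t1 t2 => hid t (h1.le.trans t1) t2)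
  · exact h (sl_left_of_id h1 fun t t1 t2 => hid t t1 (t2.trans h2.le))

lemma Node.conj {f c : P} (hf : PL f) (hc : PL c) {z : ℝ} (h : Node f z) :
    Node (c * f * c⁻¹) (c z) := by
  rcases h with rfl | rfl | ⟨h1, h2⟩
  · exact Or.inl (hc.lo 0 le_rfl)
  · exact Or.inr (Or.inl (hc.hi 1 le_rfl))
  · refine Or.inr (Or.inr ⟨by simp [h1], ?_⟩)
    rwa [sl_conj hf hc sg_one h1, sl_conj hf hc sg_neg h1]

lemma Node.congr {f g : P} (hf : PL f) {z x : ℝ} (h : Node f x) (e : ∀ y, y ≤ z → g y = f y)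
    (hx : x < z) : Node g x := by
  rcases h with h | h | ⟨h1, h2⟩
  · exact Or.inl h
  · exact Or.inr (Or.inl h)
  · refine Or.inr (Or.inr ⟨by rw [e x hx.le, h1], ?_⟩)
    rwa [sl_congr_right hf hx fun t _ ht => e t ht,
      sl_congr_left hf (y := x - 1) (by linarith) fun t _ ht => e t (ht.trans hx.le)]

lemma SA.fix_eq {f : P} {k k' : ℕ} {n n' : ℤ} (h : SA f k n k' n') {x : ℝ}
    (h1 : (n : ℝ) / 2 ^ k ≤ x) (h2 : x ≤ (n + 1) / 2 ^ k) (e : f x = x) (hk : (k : ℤ) - k' ≠ 0) :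
    x = (n' - n) / (2 ^ k' - 2 ^ k) := by
  have hne : (2 : ℝ) ^ k' - 2 ^ k ≠ 0 := by
    intro h
    have : (2 : ℝ) ^ k' = 2 ^ k := by linarith
    have := pow_right_injective₀ (by norm_num) (by norm_num) this
    omega
  have e' := h.apply h1 h2
  rw [e, eq_div_iff (two_pow_pos' k').ne'] at e'
  rw [eq_div_iff hne]
  linarith

lemma PL.finite_nodes {f : P} (hf : PL f) : {z | Node f z}.Finite := by
  obtain ⟨D, hD⟩ := hf.sa
  choose κ ν hs using hD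
  refine ((((Set.finite_Ico (0 : ℤ) (2 ^ D)).image fun n : ℤ =>
    ((ν n : ℝ) - n) / (2 ^ κ n - 2 ^ D)).insert 1).insert 0).subset ?_
  rintro z (rfl | rfl | ⟨h1, h2 | h2⟩)
  · simp
  · simp
  · obtain ⟨c1, c2⟩ := floor_cell D z
    refine Or.inr (Or.inr ⟨⌊2 ^ D * z⌋, ?_, ?_⟩)
    · by_contra hn
      rw [mem_Ico, not_and_or, not_le, not_lt] at hn
      exact h2 (by simpa using ((hf.sa_out D hn).sl_right c1 c2).eq sg_one)
    · rw [((hs _).sl_right c1 c2).eq sg_one] at h2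
      exact ((hs _).fix_eq c1 c2.le h1 h2).symm
  · obtain ⟨c1, c2⟩ := ceil_cell D z
    refine Or.inr (Or.inr ⟨⌈2 ^ D * z⌉ - 1, ?_, ?_⟩)
    · by_contra hn
      rw [mem_Ico, not_and_or, not_le, not_lt] at hn
      exact h2 (by simpa using ((hf.sa_out D hn).sl_left c1 c2).eq sg_neg)
    · rw [((hs _).sl_left c1 c2).eq sg_neg] at h2
      exact ((hs _).fix_eq c1.le c2 h1 h2).symm

/-- a conjugator fixes a common node up to which the two maps agree -/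
lemma agree {f g c : P} (hf : PL f) (hc : PL c) (hg : c * f * c⁻¹ = g) {z : ℝ}
    (e : ∀ y, y ≤ z → g y = f y) (h1 : Node f z) (h2 : Node g z) : c z = z := by
  have hpg : PL g := hg ▸ (hc.mul hf).mul hc.inv
  have fin : ∀ y, {x | Node g x ∧ x < y}.Finite := fun y =>
    hpg.finite_nodes.subset fun x hx => hx.1
  have s1 : {x | Node f x ∧ x < z} = {x | Node g x ∧ x < z} := by
    ext x
    exact ⟨fun h => ⟨h.1.congr hf e h.2, h.2⟩,
      fun h => ⟨h.1.congr hpg (fun y hy => (e y hy).symm) h.2, h.2⟩⟩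
  have s2 : c '' {x | Node f x ∧ x < z} = {x | Node g x ∧ x < c z} := by
    ext x
    constructor
    · rintro ⟨y, hy, rfl⟩
      exact ⟨hg ▸ hy.1.conj hf hc, hc.mono hy.2⟩
    · rintro ⟨x1, x2⟩
      refine ⟨c⁻¹ x, ⟨?_, ?_⟩, app_inv _ _⟩
      · have := x1.conj hpg hc.inv
        rwa [← hg, show c⁻¹ * (c * f * c⁻¹) * c⁻¹⁻¹ = f by group] at this
      · rwa [← hc.mono.lt_iff_lt, app_inv]
  have s3 : {x | Node g x ∧ x < c z}.ncard = {x | Node g x ∧ x < z}.ncard := by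
    rw [← s2, ← s1, Set.ncard_image_of_injective _ c.injective]
  have key : ∀ y y', Node g y → y < y' →
      {x | Node g x ∧ x < y}.ncard < {x | Node g x ∧ x < y'}.ncard := fun y y' hy hlt =>
    Set.ncard_lt_ncard ⟨fun x hx => ⟨hx.1, hx.2.trans hlt⟩,
      fun h => lt_irrefl y (h ⟨hy, hlt⟩).2⟩ (fin y')
  rcases lt_trichotomy (c z) z with h | h | h
  · exact absurd s3 (key _ _ (hg ▸ h1.conj hf hc) h).ne
  · exact h
  · exact absurd s3 (key _ _ h2 h).ne'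

/-- rigidity of a conjugator that is the identity to the right of `z` -/
lemma rigid_conj {f g k : P} (hf : PL f) (hk : PL k) (hc : k * f = g * k) {z r : ℝ}
    (hz : f z = z) (kz : k z = z) (ks : sl 1 k z = 0) (e : EqI f g z r) (hn : NDF f z r) :
    ∀ x, z ≤ x → x ≤ r → k x = x := by
  have hc' : ∀ x, k (f x) = g (k x) := fun x => by
    rw [← Equiv.Perm.mul_apply, hc, Equiv.Perm.mul_apply]
  have cl : IsClosed {x | k x = x} := isClosed_eq hk.continuous continuous_id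
  have := (cl.inter isClosed_Icc).Icc_subset_of_forall_mem_nhdsGT_of_Icc_subset (a := z) (b := r)
    kz fun t ht hsub => by
      have kt : k t = t := hsub ⟨ht.1, le_rfl⟩
      rw [mem_nhdsGT_iff_exists_Ioo_subset]
      have aux : sl 1 k t = 0 → ∃ u ∈ Ioi t, Ioo t u ⊆ {x | k x = x} := fun h0 => by
        obtain ⟨u, hu, hid⟩ := hk.id_right kt h0
        exact ⟨u, hu, fun x hx => hid x hx.1.le hx.2.le⟩
      rcases ht.1.eq_or_lt with rfl | hzt
      · exact aux ks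
      rcases lt_trichotomy (f t) t with h | h | h
      · have h' : t < f⁻¹ t := by rwa [← hf.mono.lt_iff_lt, app_inv]
        refine ⟨min r (f⁻¹ t), lt_min ht.2 h', fun y hy => ?_⟩
        have y1 : z ≤ y := ht.1.trans hy.1.le
        have y2 : y ≤ r := (hy.2.trans_le (min_le_left _ _)).le
        have y3 : f y ≤ t := by
          have := hf.mono (hy.2.trans_le (min_le_right _ _))
          rw [app_inv] at this
          exact this.le
        have y4 : k (f y) = f y := hsub ⟨by rw [← hz]; exact hf.mono.monotone y1, y3⟩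
        rw [hc', e y y1 y2] at y4
        exact g.injective y4
      · refine aux ?_
        rw [← hk.sl_eq fun hd => hn t hd hzt ht.2.le h]
        exact sl_left_of_id hzt fun y y1 y2 => hsub ⟨y1, y2⟩
      · refine ⟨min r (f t), lt_min ht.2 h, fun y hy => ?_⟩
        have y1 : z ≤ f⁻¹ y := by
          rw [← hf.mono.le_iff_le, app_inv, hz]; exact ht.1.trans hy.1.le
        have y2 : f⁻¹ y ≤ t := by
          rw [← hf.mono.le_iff_le, app_inv]; exact (hy.2.trans_le (min_le_right _ _)).le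
        have y3 : k (f⁻¹ y) = f⁻¹ y := hsub ⟨y1, y2⟩
        have := hc' (f⁻¹ y)
        rw [y3, ← e _ y1 (y2.trans ht.2.le), app_inv] at this
        exact this
  exact fun x x1 x2 => this ⟨x1, x2⟩

lemma PL.next_fix {f : P} (hf : PL f) {x : ℝ} (h : x < f x) :
    ∃ s, x < s ∧ f s = s ∧ ∀ y, x ≤ y → y < s → y < f y := by
  have hc : IsClosed ({y | f y ≤ y} ∩ Ici x) :=
    (isClosed_le hf.continuous continuous_id).inter isClosed_Ici
  have hb : BddBelow ({y | f y ≤ y} ∩ Ici x) := ⟨x, fun y hy => hy.2⟩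
  have hm := hc.csInf_mem ⟨max 1 x, (hf.hi _ (le_max_left _ _)).le, mem_Ici.2 (le_max_right _ _)⟩ hb
  set s := sInf ({y | f y ≤ y} ∩ Ici x)
  have h1 : ∀ y, x ≤ y → y < s → y < f y := fun y y1 y2 =>
    not_le.1 fun y3 => absurd (csInf_le hb ⟨y3, y1⟩) (not_le.2 y2)
  have h2 : x < s := lt_of_le_of_ne hm.2 fun e => absurd hm.1 (by rw [← e]; exact not_le.2 h)
  refine ⟨s, h2, le_antisymm hm.1 (not_lt.1 fun h3 => ?_), h1⟩
  obtain ⟨y, y1, y2⟩ := exists_between (max_lt h2 h3)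
  have := h1 y ((le_max_left _ _).trans y1.le) y2
  have := hf.mono y2
  linarith [le_max_right x (f s)]

lemma orbit {f : P} (hf : StrictMono f) {x s : ℝ} (h : ∀ y, x ≤ y → y < s → y < f y) {d : ℝ}
    (hd : d < s) : ∃ n : ℕ, d < (f ^ n) x := by
  by_contra hc
  push Not at hc
  set S : Set ℝ := range fun n : ℕ => (f ^ n) x
  have hb : BddAbove S := ⟨d, by rintro _ ⟨n, rfl⟩; exact hc n⟩
  have hne : S.Nonempty := range_nonempty _
  have h1 : x ≤ sSup S := le_csSup hb ⟨0, by simp⟩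
  have h2 : sSup S ≤ d := csSup_le hne (by rintro _ ⟨n, rfl⟩; exact hc n)
  have h3 : f⁻¹ (sSup S) < sSup S := by
    rw [← hf.lt_iff_lt, app_inv]; exact h _ h1 (h2.trans_lt hd)
  obtain ⟨_, ⟨n, rfl⟩, hn⟩ := exists_lt_of_lt_csSup hne h3
  rw [← hf.lt_iff_lt, app_inv] at hn
  exact absurd (le_csSup hb ⟨n + 1, by simp [pow_succ']⟩) (not_le.2 hn)

lemma pow_mono_of_le {f : P} (hf : PL f) {x : ℝ} (h : x ≤ f x) :
    Monotone fun n : ℕ => (f ^ n) x :=
  monotone_nat_of_le_succ fun n => by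
    rw [pow_succ, Equiv.Perm.mul_apply]; exact (hf.pow n).mono.monotone h

lemma conj_pow_apply {F G k : P} (h : k * F = G * k) (n : ℕ) (x : ℝ) :
    k ((F ^ n) x) = (G ^ n) (k x) := by
  rw [← Equiv.Perm.mul_apply, ← Equiv.Perm.mul_apply, (SemiconjBy.pow_right h n).eq]

lemma aff_contr {F : P} (hF : StrictMono F) {p s : ℝ} (hps : p < s) (hp : p < F p) (hs : F s = s)
    (ha : AffOn F p s) : ∃ μ, 0 < μ ∧ μ < 1 ∧ ∀ y, p ≤ y → y ≤ s → F y = s + μ * (y - s) := by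
  obtain ⟨l, hl⟩ := ha.exists hps
  have h1 := hl s hps.le le_rfl
  have h2 := hF hps
  rw [hs] at h1 h2
  refine ⟨l, ?_, ?_, fun y y1 y2 => by rw [hl y y1 y2]; linarith⟩
  · by_contra hc
    push Not at hc
    nlinarith
  · by_contra hc
    push Not at hc
    nlinarith

lemma iter_left {F : P} {p s μ : ℝ} (h0 : 0 < μ) (h1 : μ < 1)
    (h : ∀ y, p ≤ y → y ≤ s → F y = s + μ * (y - s)) (n : ℕ) :
    ∀ y, p ≤ y → y ≤ s → (F ^ n) y = s + μ ^ n * (y - s) := fun y y1 y2 => by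
  have := iter_affine (f := F) (x := s) (σ := -1) (ε := s - p) h0.le h1.le (fun t ht => by
    rw [h _ (by linarith [ht.2]) (by linarith [ht.1])]; ring) n (s - y) ⟨by linarith, by linarith⟩
  rw [show s + -1 * (s - y) = y by ring] at this
  rw [this]
  ring

/-- a conjugator between two affine contractions is affine -/
lemma linearize {F G k : P} (hF : PL F) (hG : PL G) (hk : PL k) (hc : k * F = G * k)
    {p s s' : ℝ} (hps : p < s) (hp : p < F p) (hs : F s = s) (ha : AffOn F p s)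
    (hps' : k p < s') (hs' : G s' = s') (ha' : AffOn G (k p) s') :
    ∃ μ l, 0 < μ ∧ μ < 1 ∧ (∀ y, p ≤ y → y ≤ s → F y = s + μ * (y - s)) ∧
      (∀ y, k p ≤ y → y ≤ s' → G y = s' + μ * (y - s')) ∧
      ∀ y, p ≤ y → y ≤ s → k y = s' + l * (y - s) := by
  obtain ⟨μ, m0, m1, hμ⟩ := aff_contr hF.mono hps hp hs ha
  obtain ⟨μ', m0', m1', hμ'⟩ := aff_contr hG.mono hps' (by
    have := conj_pow_apply hc 1 p
    simp only [pow_one] at this
    rw [← this]; exact hk.mono hp) hs' ha'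
  have i1 := iter_left m0 m1 hμ
  have i2 := iter_left m0' m1' hμ'
  have ks : k s = s' := by
    have t1 : Tendsto (fun n : ℕ => k (s + μ ^ n * (p - s))) atTop (𝓝 (k (s + 0 * (p - s)))) :=
      (hk.continuous.tendsto _).comp
        (((tendsto_pow_atTop_nhds_zero_of_lt_one m0.le m1).mul_const _).const_add _)
    have t2 : Tendsto (fun n : ℕ => s' + μ' ^ n * (k p - s')) atTop (𝓝 (s' + 0 * (k p - s'))) :=
      ((tendsto_pow_atTop_nhds_zero_of_lt_one m0'.le m1').mul_const _).const_add _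
    have e : (fun n : ℕ => k (s + μ ^ n * (p - s))) = fun n : ℕ => s' + μ' ^ n * (k p - s') := by
      funext n
      rw [← i1 n p le_rfl hps.le, conj_pow_apply hc, i2 n _ le_rfl hps'.le]
    rw [e] at t1
    simpa using tendsto_nhds_unique t1 t2
  obtain ⟨ε, hε, hl⟩ := hk.sl_spec sg_neg s
  set l : ℝ := 2 ^ sl (-1) k s
  obtain ⟨N, hN⟩ := exists_pow_lt_of_lt_one (div_pos hε (sub_pos.2 hps)) m1
  rw [lt_div_iff₀ (sub_pos.2 hps)] at hN
  have key : ∀ n, N ≤ n → ∀ y, p ≤ y → y ≤ s → μ' ^ n * (k y - s') = μ ^ n * (l * (y - s)) :=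
    fun n hn y y1 y2 => by
      have a1 : μ ^ n ≤ μ ^ N := pow_le_pow_of_le_one m0.le m1.le hn
      have a2 : 0 < μ ^ n := by positivity
      have := hl (μ ^ n * (s - y)) ⟨mul_nonneg a2.le (by linarith), by nlinarith⟩
      rw [show s + -1 * (μ ^ n * (s - y)) = s + μ ^ n * (y - s) by ring, ← i1 n y y1 y2,
        conj_pow_apply hc, i2 n _ (hk.mono.monotone y1) (ks ▸ hk.mono.monotone y2), ks] at this
      linarith
  have e : μ' = μ := by
    have a1 := key N le_rfl p le_rfl hps.le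
    have a2 := key (N + 1) (by omega) p le_rfl hps.le
    have a3 : μ' ^ N * (k p - s') ≠ 0 := mul_ne_zero (by positivity) (by linarith)
    have : (μ' - μ) * (μ' ^ N * (k p - s')) = 0 := by
      rw [pow_succ, pow_succ] at a2
      linear_combination a2 - μ * a1
    rcases mul_eq_zero.1 this with h | h
    · linarith
    · exact absurd h a3
  subst e
  refine ⟨μ', l, m0, m1, hμ, hμ', fun y y1 y2 => ?_⟩
  have := mul_left_cancel₀ (by positivity) (key N le_rfl y y1 y2)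
  linarith

/-- spreading an affine germ along contractions -/
lemma spread {F G c : P} {s s' μ l ε L : ℝ} (m0 : 0 < μ) (m1 : μ < 1) (l0 : 0 ≤ l) (hε : 0 < ε)
    (hL : 0 < L) (hF : ∀ t ∈ Icc (0 : ℝ) L, F (s + t) = s + μ * t)
    (hG : ∀ t ∈ Icc (0 : ℝ) (l * L), G (s' + t) = s' + μ * t)
    (hc : ∀ t ∈ Icc (0 : ℝ) ε, c (s + t) = s' + l * t) :
    ∃ M : ℕ, ∀ t ∈ Icc (0 : ℝ) L, ((G ^ M)⁻¹ * c * F ^ M) (s + t) = s' + l * t := by
  obtain ⟨M, hM⟩ := exists_pow_lt_of_lt_one (div_pos hε hL) m1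
  rw [lt_div_iff₀ hL] at hM
  have i1 := iter_affine (f := F) (x := s) (σ := 1) (ε := L) m0.le m1.le (by simpa using hF) M
  have i2 := iter_affine (f := G) (x := s') (σ := 1) (ε := l * L) m0.le m1.le
    (by simpa using hG) M
  simp only [one_mul] at i1 i2
  refine ⟨M, fun t ht => ?_⟩
  have a : 0 < μ ^ M := by positivity
  rw [Equiv.Perm.mul_apply, Equiv.Perm.mul_apply, i1 t ht,
    hc _ ⟨mul_nonneg a.le ht.1, by nlinarith [ht.2]⟩, Equiv.Perm.inv_eq_iff_eq,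
    i2 _ ⟨mul_nonneg l0 ht.1, mul_le_mul_of_nonneg_left ht.2 l0⟩]
  ring

/-- the end of an interval of fixed points -/
lemma PL.next_node {f : P} (hf : PL f) {z : ℝ} (hz : f z = z) (h1 : z < 1) (hs : sl 1 f z = 0) :
    ∃ s, Dy s ∧ z < s ∧ EqI f 1 z s ∧ (s = 1 ∨ sl 1 f s ≠ 0) := by
  set S : Set ℝ := {y | y ≤ 1 ∧ EqI f 1 z y}
  have hb : BddAbove S := ⟨1, fun y hy => hy.1⟩
  obtain ⟨u, hu, hid⟩ := hf.id_right hz hs
  have hm : min u 1 ∈ S := ⟨min_le_right _ _, fun x x1 x2 => hid x x1 (x2.trans (min_le_left _ _))⟩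
  have h2 : z < sSup S := (lt_min hu h1).trans_le (le_csSup hb hm)
  have h3 : EqI f 1 z (sSup S) := by
    have a1 : Ico z (sSup S) ⊆ {x | f x = x} := fun x hx => by
      obtain ⟨y, hy, hy'⟩ := exists_lt_of_lt_csSup ⟨_, hm⟩ hx.2
      exact hy.2 x hx.1 hy'.le
    have a2 := (isClosed_eq hf.continuous continuous_id).closure_subset_iff.2 a1
    rw [closure_Ico h2.ne] at a2
    exact fun x x1 x2 => a2 ⟨x1, x2⟩
  have h4 : sSup S = 1 ∨ sl 1 f (sSup S) ≠ 0 := by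
    by_contra hc
    push Not at hc
    have a1 : sSup S < 1 := lt_of_le_of_ne (csSup_le ⟨_, hm⟩ fun y hy => hy.1) hc.1
    obtain ⟨v, hv, hid'⟩ := hf.id_right (h3 _ h2.le le_rfl) hc.2
    refine absurd (le_csSup hb (show min v 1 ∈ S from ⟨min_le_right _ _, fun x x1 x2 => ?_⟩))
      (not_le.2 (lt_min hv a1))
    rcases le_total x (sSup S) with a | a
    · exact h3 x x1 a
    · exact hid' x a (x2.trans (min_le_left _ _))
  refine ⟨_, ?_, h2, h3, h4⟩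
  rcases h4 with h4 | h4
  · rw [h4]; exact dy_one
  · by_contra hd
    exact h4 (by rw [← hf.sl_eq hd]; exact sl_left_of_id h2 h3)

/-- the next dyadic fixed point -/
lemma PL.next_dy {f : P} (hf : PL f) {z : ℝ} (hz : f z = z) (hs : sl 1 f z ≠ 0) :
    ∃ s, Dy s ∧ z < s ∧ f s = s ∧ ∀ d, Dy d → z < d → d < s → f d ≠ d := by
  obtain ⟨u, hu, hnf⟩ := hf.nofix_right hz hs
  set S : Set ℝ := {d | Dy d ∧ z < d ∧ f d = d}
  have hS : ∀ d ∈ S, u < d := fun d hd => not_le.1 fun h => hnf d hd.2.1 h hd.2.2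
  have hb : BddBelow S := ⟨u, fun d hd => (hS d hd).le⟩
  have hne : S.Nonempty := by
    obtain ⟨d, hd, h1, -⟩ := exists_dy (show max z 1 < max z 1 + 1 by linarith)
    exact ⟨d, hd, (le_max_left _ _).trans_lt h1, hf.hi d ((le_max_right _ _).trans h1.le)⟩
  have h1 : z < sInf S := hu.trans_le (le_csInf hne fun d hd => (hS d hd).le)
  have h2 : f (sInf S) = sInf S :=
    (isClosed_eq hf.continuous continuous_id).closure_subset_iff.2 (fun d hd => hd.2.2)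
      (csInf_mem_closure hne hb)
  have h3 : ∀ d, Dy d → z < d → d < sInf S → f d ≠ d := fun d d1 d2 d3 d4 =>
    absurd (csInf_le hb ⟨d1, d2, d4⟩) (not_le.2 d3)
  refine ⟨_, by_contra fun hd => ?_, h1, h2, h3⟩
  by_cases h0 : sl 1 f (sInf S) = 0
  · obtain ⟨v, hv, hid⟩ := hf.id_left h2 (by rw [hf.sl_eq hd, h0])
    obtain ⟨d, d1, d2, d3⟩ := exists_dy (max_lt hv h1)
    exact h3 d d1 ((le_max_right _ _).trans_lt d2) d3
      (hid d ((le_max_left _ _).trans d2.le) d3.le)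
  · obtain ⟨v, hv, hnf'⟩ := hf.nofix_right h2 h0
    obtain ⟨d, hd', d1⟩ := exists_lt_of_csInf_lt hne hv
    exact hnf' d (lt_of_le_of_ne (csInf_le hb hd') fun e => hd (e ▸ hd'.1)) d1.le hd'.2.2

lemma PL.sl_left_ne {f : P} (hf : PL f) {z w s : ℝ} (h : ∀ d, Dy d → z < d → d < w → f d ≠ d)
    (h1 : z < s) (h2 : s ≤ w) (hs : f s = s) : sl (-1) f s ≠ 0 := fun h0 => by
  obtain ⟨v, hv, hid⟩ := hf.id_left hs h0
  obtain ⟨d, d1, d2, d3⟩ := exists_dy (max_lt hv h1)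
  exact h d d1 ((le_max_right _ _).trans_lt d2) (d3.trans_le h2)
    (hid d ((le_max_left _ _).trans d2.le) d3.le)

end Pool.Agent.MP_337e3e_al

end MrgPart0

-- ======== part 1: formerly Pool.Agent.MP_337e3e_al.Sig
section MrgPart1

/-!
Existential predicates with primitive recursive matrix, and computable rational points.
-/

namespace Pool.Agent.MP_337e3e_al

open Set Encodable

attribute [fun_prop] Primrec

section prim

variable {α β γ : Type} [Primcodable α] [Primcodable β] [Primcodable γ]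

@[fun_prop] lemma p_id : Primrec (fun x : α => x) := Primrec.id

@[fun_prop] lemma p_const (c : β) : Primrec (fun _ : α => c) := Primrec.const c

@[fun_prop] lemma p_comp {f : β → γ} {g : α → β} (hf : Primrec f) (hg : Primrec g) :
    Primrec fun a => f (g a) := hf.comp hg

@[fun_prop] lemma p_pair {f : α → β} {g : α → γ} (hf : Primrec f) (hg : Primrec g) :
    Primrec fun a => (f a, g a) := hf.pair hg

@[fun_prop] lemma p_fst {f : α → β × γ} (hf : Primrec f) : Primrec fun a => (f a).1 :=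
  Primrec.fst.comp hf

@[fun_prop] lemma p_snd {f : α → β × γ} (hf : Primrec f) : Primrec fun a => (f a).2 :=
  Primrec.snd.comp hf

@[fun_prop] lemma p_add {f g : α → ℕ} (hf : Primrec f) (hg : Primrec g) :
    Primrec fun a => f a + g a := Primrec.nat_add.comp hf hg

@[fun_prop] lemma p_sub {f g : α → ℕ} (hf : Primrec f) (hg : Primrec g) :
    Primrec fun a => f a - g a := Primrec.nat_sub.comp hf hg

@[fun_prop] lemma p_mul {f g : α → ℕ} (hf : Primrec f) (hg : Primrec g) :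
    Primrec fun a => f a * g a := Primrec.nat_mul.comp hf hg

@[fun_prop] lemma p_div {f g : α → ℕ} (hf : Primrec f) (hg : Primrec g) :
    Primrec fun a => f a / g a := Primrec.nat_div.comp hf hg

@[fun_prop] lemma p_mod {f g : α → ℕ} (hf : Primrec f) (hg : Primrec g) :
    Primrec fun a => f a % g a := Primrec.nat_mod.comp hf hg

@[fun_prop] lemma p_pow {f g : α → ℕ} (hf : Primrec f) (hg : Primrec g) :
    Primrec fun a => f a ^ g a := (Primrec₂.unpaired'.1 Nat.Primrec.pow).comp hf hg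

@[fun_prop] lemma p_unpair {f : α → ℕ} (hf : Primrec f) : Primrec fun a => Nat.unpair (f a) :=
  Primrec.unpair.comp hf

@[fun_prop] lemma p_append {f g : α → List β} (hf : Primrec f) (hg : Primrec g) :
    Primrec fun a => f a ++ g a := Primrec.list_append.comp hf hg

@[fun_prop] lemma p_length {f : α → List β} (hf : Primrec f) : Primrec fun a => (f a).length :=
  Primrec.list_length.comp hf

@[fun_prop] lemma p_not {f : α → Bool} (hf : Primrec f) : Primrec fun a => !f a :=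
  Primrec.not.comp hf

lemma fin_table (s : Finset α) (f : α → β) (b : β) : ∃ g, Primrec g ∧ ∀ a ∈ s, g a = f a := by
  classical
  induction s using Finset.induction_on with
  | empty => exact ⟨fun _ => b, Primrec.const b, by simp⟩
  | insert a₀ s _ ih =>
    obtain ⟨g, hg, e⟩ := ih
    refine ⟨fun a => if a = a₀ then f a₀ else g a,
      Primrec.ite (Primrec.eq.comp Primrec.id (Primrec.const a₀)) (Primrec.const _) hg, ?_⟩
    intro a ha
    by_cases h : a = a₀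
    · simp [h]
    · simp [h, e a ((Finset.mem_insert.1 ha).resolve_left h)]

/-- existential predicates with primitive recursive matrix -/
def Sig (p : α → Prop) : Prop := ∃ R : α × ℕ → Prop, PrimrecPred R ∧ ∀ a, p a ↔ ∃ n, R (a, n)

lemma Sig.of_pp {p : α → Prop} (h : PrimrecPred p) : Sig p :=
  ⟨fun x => p x.1, h.comp Primrec.fst, by simp⟩

lemma Sig.congr {p q : α → Prop} (h : Sig p) (e : ∀ a, p a ↔ q a) : Sig q :=
  (funext fun a => propext (e a) : p = q) ▸ h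

lemma Sig.comp {p : β → Prop} (h : Sig p) {g : α → β} (hg : Primrec g) : Sig fun a => p (g a) := by
  obtain ⟨R, hR, e⟩ := h
  exact ⟨fun x => R (g x.1, x.2), hR.comp (by fun_prop), fun a => e _⟩

lemma Sig.const (q : Prop) : Sig fun _ : α => q := by
  classical
  exact Sig.of_pp (Primrec.const (decide q)).primrecPred

lemma Sig.and {p q : α → Prop} (hp : Sig p) (hq : Sig q) : Sig fun a => p a ∧ q a := by
  obtain ⟨R, hR, e⟩ := hp
  obtain ⟨R', hR', e'⟩ := hq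
  refine ⟨fun x => R (x.1, x.2.unpair.1) ∧ R' (x.1, x.2.unpair.2),
    (hR.comp (by fun_prop)).and (hR'.comp (by fun_prop)), fun a => ?_⟩
  simp only [e, e']
  exact ⟨fun ⟨⟨n, hn⟩, m, hm⟩ => ⟨Nat.pair n m, by simpa using ⟨hn, hm⟩⟩,
    fun ⟨n, h1, h2⟩ => ⟨⟨_, h1⟩, _, h2⟩⟩

lemma Sig.or {p q : α → Prop} (hp : Sig p) (hq : Sig q) : Sig fun a => p a ∨ q a := by
  obtain ⟨R, hR, e⟩ := hp
  obtain ⟨R', hR', e'⟩ := hq
  exact ⟨fun x => R x ∨ R' x, hR.or hR', fun a => by simp only [e, e', exists_or]⟩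

lemma Sig.ex [Inhabited β] {p : α → β → Prop} (h : Sig fun x : α × β => p x.1 x.2) :
    Sig fun a => ∃ b, p a b := by
  obtain ⟨R, hR, e⟩ := h
  have hd : Primrec fun x : α × ℕ => (decode (α := β) x.2.unpair.1).getD default :=
    Primrec.option_getD.comp (Primrec.decode.comp (by fun_prop)) (Primrec.const _)
  refine ⟨fun x => R ((x.1, (decode (α := β) x.2.unpair.1).getD default), x.2.unpair.2),
    hR.comp (by fun_prop), fun a => ⟨fun ⟨b, hb⟩ => ?_, fun ⟨n, hn⟩ => ⟨_, (e _).2 ⟨_, hn⟩⟩⟩⟩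
  obtain ⟨n, hn⟩ := (e (a, b)).1 hb
  exact ⟨Nat.pair (encode b) n, by simpa using hn⟩

lemma Sig.exN {p : α → ℕ → Prop} (h : Sig fun x : α × ℕ => p x.1 x.2) :
    Sig fun a => ∃ b, p a b := h.ex

lemma Sig.ball {n : α → ℕ} {p : α → ℕ → Prop} (hn : Primrec n)
    (h : Sig fun x : α × ℕ => p x.1 x.2) : Sig fun a => ∀ k < n a, p a k := by
  obtain ⟨R, hR, e⟩ := h
  have h1 : PrimrecRel fun (m : ℕ) (y : α × ℕ) => R (y, m) := hR.comp (by fun_prop)
  have h2 : PrimrecRel fun (k : ℕ) (y : α × ℕ) => ∃ m < y.2, R ((y.1, k), m) :=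
    (h1.exists_mem_list.comp (f := fun x : ℕ × α × ℕ => List.range x.2.2)
      (g := fun x => (x.2.1, x.1)) (Primrec.list_range.comp (by fun_prop))
      (by fun_prop)).of_eq (by simp)
  refine ⟨fun x => ∀ k < n x.1, ∃ m < x.2, R ((x.1, k), m),
    (h2.forall_mem_list.comp (f := fun x : α × ℕ => List.range (n x.1)) (g := fun x => x)
      (Primrec.list_range.comp (by fun_prop)) (by fun_prop)).of_eq (by simp),
    fun a => ⟨fun hp => ?_, fun ⟨N, hN⟩ k hk => ?_⟩⟩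
  · have : ∀ k, ∃ m, k < n a → R ((a, k), m) := fun k => by
      by_cases hk : k < n a
      · obtain ⟨m, hm⟩ := (e (a, k)).1 (hp k hk)
        exact ⟨m, fun _ => hm⟩
      · exact ⟨0, fun h => absurd h hk⟩
    choose m hm using this
    exact ⟨(Finset.range (n a)).sup m + 1, fun k hk => ⟨m k,
      Nat.lt_succ_of_le (Finset.le_sup (f := m) (Finset.mem_range.2 hk)), hm k hk⟩⟩
  · obtain ⟨m, -, hm⟩ := hN k hk
    exact (e (a, k)).2 ⟨m, hm⟩

lemma Sig.finex {ι : Type} {s : Finset ι} {p : α → ι → Prop} (h : ∀ i, Sig fun a => p a i) :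
    Sig fun a => ∃ i ∈ s, p a i := by
  classical
  induction s using Finset.induction_on with
  | empty => exact (Sig.const False).congr (by simp)
  | insert i s _ ih => exact ((h i).or ih).congr (by simp)

lemma Sig.re {p : α → Prop} (h : Sig p) : REPred p := by
  classical
  obtain ⟨R, hR, e⟩ := h
  have h : Partrec fun a => Nat.rfind fun n => (Part.some (decide (R (a, n))) : Part Bool) :=
    Partrec.rfind (p := fun a n => Part.some (decide (R (a, n)))) hR.decide.to_comp.partrec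
  refine h.dom_re.of_eq fun a => ?_
  rw [Nat.rfind_dom, e]
  simp

lemma post {p : α → Prop} (h : Sig p) (h' : Sig fun a => ¬ p a) : ComputablePred p :=
  ComputablePred.computable_iff_re_compl_re'.2 ⟨h.re, h'.re⟩

/-! ### computable rational points -/

/-- codes of rationals -/
abbrev Pt := ℕ × ℕ × ℕ

/-- value of a code -/
def val (c : Pt) : ℚ := ((c.1 : ℚ) - c.2.1) / (c.2.2 + 1)

lemma val_cast (c : Pt) : ((val c : ℚ) : ℝ) = ((c.1 : ℝ) - c.2.1) / (c.2.2 + 1) := by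
  simp [val]

lemma exists_val (q : ℚ) : ∃ c, val c = q := by
  refine ⟨(q.num.toNat, (-q.num).toNat, q.den - 1), ?_⟩
  have h1 : ((q.den - 1 : ℕ) : ℚ) + 1 = q.den := by
    rw [Nat.cast_pred q.den_pos]; ring
  have h2 : ((q.num.toNat : ℚ) - (-q.num).toNat) = q.num := by
    exact_mod_cast Int.toNat_sub_toNat_neg q.num
  simp only [val]
  rw [h1, h2, Rat.num_div_den]

/-- functions with computable rational values -/
def CF (f : α → ℝ) : Prop := ∃ F : α → Pt, Primrec F ∧ f = fun a => ((val (F a) : ℚ) : ℝ)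

/-- functions with computable integer values -/
def CZ (f : α → ℤ) : Prop :=
  ∃ F G : α → ℕ, Primrec F ∧ Primrec G ∧ f = fun a => (F a : ℤ) - G a

lemma Sig.exQ {p : α → ℚ → Prop} (h : Sig fun x : α × Pt => p x.1 (val x.2)) :
    Sig fun a => ∃ q, p a q :=
  (h.ex (p := fun a c => p a (val c))).congr fun a =>
    ⟨fun ⟨_, h⟩ => ⟨_, h⟩, fun ⟨q, h⟩ => by
      obtain ⟨c, rfl⟩ := exists_val q
      exact ⟨c, h⟩⟩

lemma Sig.exZ {p : α → ℤ → Prop} (h : Sig fun x : α × (ℕ × ℕ) => p x.1 ((x.2.1 : ℤ) - x.2.2)) :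
    Sig fun a => ∃ k, p a k :=
  (h.ex (p := fun a (c : ℕ × ℕ) => p a ((c.1 : ℤ) - c.2))).congr fun a =>
    ⟨fun ⟨_, h⟩ => ⟨_, h⟩, fun ⟨k, h⟩ =>
      ⟨(k.toNat, (-k).toNat), by simpa only [Int.toNat_sub_toNat_neg] using h⟩⟩

lemma CF.val {F : α → Pt} (h : Primrec F) : CF fun a => ((val (F a) : ℚ) : ℝ) := ⟨F, h, rfl⟩

lemma CF.rat (q : ℚ) : CF fun _ : α => (q : ℝ) := by
  obtain ⟨c, rfl⟩ := exists_val q
  exact CF.val (Primrec.const c)

lemma CF.of_ra {x : ℝ} (h : Ra x) : CF fun _ : α => x := by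
  obtain ⟨q, rfl⟩ := h
  exact CF.rat q

lemma CF.zero : CF fun _ : α => (0 : ℝ) := CF.of_ra dy_zero.ra

lemma CF.one : CF fun _ : α => (1 : ℝ) := CF.of_ra dy_one.ra

lemma CF.nat {n : α → ℕ} (h : Primrec n) : CF fun a => (n a : ℝ) :=
  ⟨fun a => (n a, 0, 0), by fun_prop, by simp [val_cast]⟩

lemma CF.pow2 {n : α → ℕ} (h : Primrec n) : CF fun a => (2 : ℝ) ^ n a := by
  simpa using CF.nat (n := fun a => 2 ^ n a) (by fun_prop)

lemma CF.add {f g : α → ℝ} (hf : CF f) (hg : CF g) : CF fun a => f a + g a := by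
  obtain ⟨F, hF, rfl⟩ := hf
  obtain ⟨G, hG, rfl⟩ := hg
  refine ⟨fun a => ((F a).1 * ((G a).2.2 + 1) + (G a).1 * ((F a).2.2 + 1),
    (F a).2.1 * ((G a).2.2 + 1) + (G a).2.1 * ((F a).2.2 + 1),
    (F a).2.2 * (G a).2.2 + (F a).2.2 + (G a).2.2), by fun_prop, funext fun a => ?_⟩
  simp only [val_cast]
  push_cast
  rw [show ((F a).2.2 : ℝ) * (G a).2.2 + (F a).2.2 + (G a).2.2 + 1 =
    ((F a).2.2 + 1) * ((G a).2.2 + 1) by ring]
  field_simp
  ring

lemma CF.neg {f : α → ℝ} (hf : CF f) : CF fun a => -f a := by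
  obtain ⟨F, hF, rfl⟩ := hf
  refine ⟨fun a => ((F a).2.1, (F a).1, (F a).2.2), by fun_prop, funext fun a => ?_⟩
  simp only [val_cast]
  ring

lemma CF.sub {f g : α → ℝ} (hf : CF f) (hg : CF g) : CF fun a => f a - g a := by
  simpa only [sub_eq_add_neg] using hf.add hg.neg

lemma CF.mul {f g : α → ℝ} (hf : CF f) (hg : CF g) : CF fun a => f a * g a := by
  obtain ⟨F, hF, rfl⟩ := hf
  obtain ⟨G, hG, rfl⟩ := hg
  refine ⟨fun a => ((F a).1 * (G a).1 + (F a).2.1 * (G a).2.1,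
    (F a).1 * (G a).2.1 + (F a).2.1 * (G a).1,
    (F a).2.2 * (G a).2.2 + (F a).2.2 + (G a).2.2), by fun_prop, funext fun a => ?_⟩
  simp only [val_cast]
  push_cast
  rw [show ((F a).2.2 : ℝ) * (G a).2.2 + (F a).2.2 + (G a).2.2 + 1 =
    ((F a).2.2 + 1) * ((G a).2.2 + 1) by ring]
  field_simp
  ring

lemma CF.div2 {f : α → ℝ} {n : α → ℕ} (hf : CF f) (hn : Primrec n) :
    CF fun a => f a / 2 ^ n a := by
  obtain ⟨F, hF, rfl⟩ := hf
  refine ⟨fun a => ((F a).1, (F a).2.1, ((F a).2.2 + 1) * 2 ^ n a - 1), by fun_prop,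
    funext fun a => ?_⟩
  simp only [val_cast]
  rw [Nat.cast_pred (by positivity)]
  push_cast
  field_simp
  ring

lemma CF.ite {c : α → Prop} [DecidablePred c] {f g : α → ℝ} (hc : PrimrecPred c) (hf : CF f)
    (hg : CF g) : CF fun a => if c a then f a else g a := by
  obtain ⟨F, hF, rfl⟩ := hf
  obtain ⟨G, hG, rfl⟩ := hg
  exact ⟨fun a => if c a then F a else G a, Primrec.ite hc hF hG,
    funext fun a => by dsimp only; split_ifs <;> rfl⟩

lemma CF.floor {f : α → ℝ} (hf : CF f) :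
    ∃ N : α → ℕ, Primrec N ∧ ∀ a, 0 ≤ f a → (N a : ℤ) = ⌊f a⌋ := by
  obtain ⟨F, hF, rfl⟩ := hf
  refine ⟨fun a => ((F a).1 - (F a).2.1) / ((F a).2.2 + 1), by fun_prop, fun a ha => ?_⟩
  simp only [val_cast] at ha ⊢
  have h1 : (F a).2.1 ≤ (F a).1 := by
    rw [le_div_iff₀ (by positivity), zero_mul, sub_nonneg] at ha
    exact_mod_cast ha
  rw [← Nat.cast_sub h1, ← Nat.cast_succ, ← Int.natCast_floor_eq_floor (by positivity),
    Nat.floor_div_eq_div]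

lemma pp_lt {f g : α → ℝ} (hf : CF f) (hg : CF g) : PrimrecPred fun a => f a < g a := by
  obtain ⟨F, hF, rfl⟩ := hf
  obtain ⟨G, hG, rfl⟩ := hg
  refine (Primrec.nat_lt.comp
    (f := fun a => (F a).1 * ((G a).2.2 + 1) + (G a).2.1 * ((F a).2.2 + 1))
    (g := fun a => (G a).1 * ((F a).2.2 + 1) + (F a).2.1 * ((G a).2.2 + 1))
    (by fun_prop) (by fun_prop)).of_eq fun a => ?_
  simp only [val_cast]
  rw [div_lt_div_iff₀ (by positivity) (by positivity), ← Nat.cast_lt (α := ℝ)]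
  push_cast
  constructor <;> intro h <;> linarith

lemma pp_le {f g : α → ℝ} (hf : CF f) (hg : CF g) : PrimrecPred fun a => f a ≤ g a :=
  (pp_lt hg hf).not.of_eq fun _ => not_lt

lemma pp_eq {f g : α → ℝ} (hf : CF f) (hg : CF g) : PrimrecPred fun a => f a = g a :=
  ((pp_le hf hg).and (pp_le hg hf)).of_eq fun _ => le_antisymm_iff.symm

lemma sig_lt {f g : α → ℝ} (hf : CF f) (hg : CF g) : Sig fun a => f a < g a :=
  Sig.of_pp (pp_lt hf hg)

lemma sig_le {f g : α → ℝ} (hf : CF f) (hg : CF g) : Sig fun a => f a ≤ g a :=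
  Sig.of_pp (pp_le hf hg)

lemma sig_eq {f g : α → ℝ} (hf : CF f) (hg : CF g) : Sig fun a => f a = g a :=
  Sig.of_pp (pp_eq hf hg)

lemma sig_ne {f g : α → ℝ} (hf : CF f) (hg : CF g) : Sig fun a => f a ≠ g a :=
  Sig.of_pp (pp_eq hf hg).not

lemma CZ.mk' {F G : α → ℕ} (hF : Primrec F) (hG : Primrec G) : CZ fun a => (F a : ℤ) - G a :=
  ⟨F, G, hF, hG, rfl⟩

lemma CZ.nat {F : α → ℕ} (hF : Primrec F) : CZ fun a => (F a : ℤ) :=
  ⟨F, fun _ => 0, hF, Primrec.const 0, by simp⟩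

lemma CZ.negnat {F : α → ℕ} (hF : Primrec F) : CZ fun a => -(F a : ℤ) :=
  ⟨fun _ => 0, F, Primrec.const 0, hF, by simp⟩

lemma CZ.zero : CZ fun _ : α => (0 : ℤ) := CZ.nat (Primrec.const 0)

lemma CF.int {k : α → ℤ} (h : CZ k) : CF fun a => (k a : ℝ) := by
  obtain ⟨F, G, hF, hG, rfl⟩ := h
  simpa using (CF.nat hF).sub (CF.nat hG)

lemma CF.zpow2 {k : α → ℤ} (h : CZ k) : CF fun a => (2 : ℝ) ^ k a := by
  obtain ⟨F, G, hF, hG, rfl⟩ := h
  simpa [zpow_sub₀] using (CF.pow2 hF).div2 hG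

lemma sig_zne {k k' : α → ℤ} (h : CZ k) (h' : CZ k') : Sig fun a => k a ≠ k' a :=
  (sig_ne (CF.int h) (CF.int h')).congr fun _ => by simp

lemma sig_nne {k k' : α → ℕ} (h : Primrec k) (h' : Primrec k') : Sig fun a => k a ≠ k' a :=
  Sig.of_pp (Primrec.eq.comp h h').not

lemma sig_nle {k k' : α → ℕ} (h : Primrec k) (h' : Primrec k') : Sig fun a => k a ≤ k' a :=
  Sig.of_pp (Primrec.nat_le.comp h h')

lemma sig_ndvd (n : ℕ) {k : α → ℤ} (h : CZ k) : Sig fun a => ¬ (n : ℤ) ∣ k a := by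
  obtain ⟨F, G, hF, hG, rfl⟩ := h
  exact (sig_nne (k := fun a => G a % n) (k' := fun a => F a % n) (by fun_prop)
    (by fun_prop)).congr fun a => not_congr Nat.modEq_iff_dvd

lemma sig_dy {f : α → ℝ} (hf : CF f) : Sig fun a => Dy (f a) := by
  obtain ⟨F, hF, rfl⟩ := hf
  unfold Dy
  exact Sig.exN (Sig.exZ (sig_eq (CF.val (by fun_prop))
    (CF.div2 (CF.int (CZ.mk' (by fun_prop) (by fun_prop))) (by fun_prop))))

lemma sig_upper {U : ℝ → Prop}
    (h : (∀ a, U a) ∨ (∀ a, ¬ U a) ∨ ∃ θ : ℚ, (∀ a, U a ↔ (θ : ℝ) ≤ a) ∨ ∀ a, U a ↔ (θ : ℝ) < a)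
    {f : α → ℝ} (hf : CF f) : Sig fun a => U (f a) := by
  rcases h with h | h | ⟨θ, h | h⟩
  · exact (Sig.const True).congr (by simp [h])
  · exact (Sig.const False).congr (by simp [h])
  · exact (sig_le (CF.rat θ) hf).congr (by simp [h])
  · exact (sig_lt (CF.rat θ) hf).congr (by simp [h])

end prim

end Pool.Agent.MP_337e3e_al

end MrgPart1

-- ======== part 2: formerly Pool.Agent.MP_337e3e_al.Lam1
section MrgPart2

/-!
The fixed sets `K a` of the subgroups of elements that are the identity left of `a`,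
their complementary intervals (leaves), and rationality of the thresholds.
-/

namespace Pool.Agent.MP_337e3e_al

open Set

namespace Ctx

variable (C : Ctx)

/-- elements of `H` that are the identity on `(-∞,a]` -/
def Ha (a : ℝ) (h : P) : Prop := h ∈ C.H ∧ ∀ x, x ≤ a → h x = x

/-- common fixed points of the elements that are the identity on `(-∞,a]` -/
def K (a y : ℝ) : Prop := ∀ h, C.Ha a h → h y = y

/-- complementary intervals of `K c` -/
def Leaf (c y b : ℝ) : Prop := y < b ∧ C.K c y ∧ C.K c b ∧ ∀ x, y < x → x < b → ¬ C.K c x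

/-- some element has a fixed and a moved point arbitrarily close on the left -/
def LAct (x : ℝ) : Prop :=
  ∀ w, w < x → ∃ h ∈ C.H, ∃ y y', w ≤ y ∧ y ≤ x ∧ w ≤ y' ∧ y' ≤ x ∧ h y = y ∧ h y' ≠ y'

/-- some element has a fixed and a moved point arbitrarily close on the right -/
def RAct (x : ℝ) : Prop :=
  ∀ w, x < w → ∃ h ∈ C.H, ∃ y y', x ≤ y ∧ y ≤ w ∧ x ≤ y' ∧ y' ≤ w ∧ h y = y ∧ h y' ≠ y'

/-- all standard intervals around `x` are equivalent to one of the finite list -/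
def NR (x : ℝ) : Prop := ∀ k : ℕ, ∃ t ∈ C.T, ∃ h ∈ C.H, SA h t.1 t.2 k ⌊2 ^ k * x⌋

variable {C}

lemma mono {h : P} (hh : h ∈ C.H) : StrictMono h := (C.pl h hh).mono

lemma lt_iff {h : P} (hh : h ∈ C.H) {x y : ℝ} : h x < h y ↔ x < y := (mono hh).lt_iff_lt

lemma le_iff {h : P} (hh : h ∈ C.H) {x y : ℝ} : h x ≤ h y ↔ x ≤ y := (mono hh).le_iff_le

lemma inv_lt {h : P} (hh : h ∈ C.H) {x y : ℝ} : h⁻¹ x < y ↔ x < h y := by
  rw [← lt_iff hh, app_inv]

lemma lt_inv {h : P} (hh : h ∈ C.H) {x y : ℝ} : x < h⁻¹ y ↔ h x < y := by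
  rw [← lt_iff hh, app_inv]

lemma inv_le {h : P} (hh : h ∈ C.H) {x y : ℝ} : h⁻¹ x ≤ y ↔ x ≤ h y := by
  rw [← le_iff hh, app_inv]

lemma le_inv {h : P} (hh : h ∈ C.H) {x y : ℝ} : x ≤ h⁻¹ y ↔ h x ≤ y := by
  rw [← le_iff hh, app_inv]

lemma Ha.mono {a a' : ℝ} {h : P} (hh : C.Ha a' h) (ha : a ≤ a') : C.Ha a h :=
  ⟨hh.1, fun x hx => hh.2 x (hx.trans ha)⟩

lemma Ha.inv {a : ℝ} {h : P} (hh : C.Ha a h) : C.Ha a h⁻¹ :=
  ⟨inv_mem hh.1, fun x hx => inv_fix (hh.2 x hx)⟩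

lemma Ha.mul {a : ℝ} {h g : P} (hh : C.Ha a h) (hg : C.Ha a g) : C.Ha a (h * g) :=
  ⟨mul_mem hh.1 hg.1, fun x hx => by rw [Equiv.Perm.mul_apply, hg.2 x hx, hh.2 x hx]⟩

lemma Ha.one (a : ℝ) : C.Ha a 1 := ⟨one_mem _, fun _ _ => rfl⟩

lemma Ha.zpow {a : ℝ} {h : P} (hh : C.Ha a h) (n : ℤ) : C.Ha a (h ^ n) :=
  ⟨zpow_mem hh.1 n, fun x hx => zpow_fix (hh.2 x hx) n⟩

lemma Ha.conj {a : ℝ} {h g : P} (hh : C.Ha a h) (hg : g ∈ C.H) : C.Ha (g a) (g * h * g⁻¹) :=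
  ⟨mul_mem (mul_mem hg hh.1) (inv_mem hg), fun x hx => by
    rw [Equiv.Perm.mul_apply, Equiv.Perm.mul_apply, hh.2 _ ((inv_le hg).2 hx), app_inv]⟩

lemma K.mono {a a' y : ℝ} (h : C.K a y) (ha : a ≤ a') : C.K a' y :=
  fun g hg => h g (hg.mono ha)

lemma K_of_le {a y : ℝ} (h : y ≤ a) : C.K a y := fun _ hg => hg.2 y h

lemma K_of_one {a y : ℝ} (h : 1 ≤ y) : C.K a y := fun g hg => (C.pl g hg.1).hi y h

lemma K.conj {a y : ℝ} {g : P} (h : C.K a y) (hg : g ∈ C.H) : C.K (g a) (g y) := fun f hf => by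
  have := h _ (by simpa using hf.conj (inv_mem hg))
  simp only [Equiv.Perm.mul_apply] at this
  rw [Equiv.Perm.inv_eq_iff_eq] at this
  exact this

lemma K_conj {a y : ℝ} {g : P} (hg : g ∈ C.H) : C.K (g a) (g y) ↔ C.K a y :=
  ⟨fun h => by simpa using h.conj (inv_mem hg), fun h => h.conj hg⟩

lemma K_conj' {a y : ℝ} {g : P} (hg : g ∈ C.H) : C.K a (g y) ↔ C.K (g⁻¹ a) y := by
  rw [← K_conj (a := g⁻¹ a) hg, app_inv]

lemma K_conj'' {a y : ℝ} {g : P} (hg : g ∈ C.H) : C.K (g a) y ↔ C.K a (g⁻¹ y) := by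
  rw [← K_conj (y := g⁻¹ y) hg, app_inv]

lemma Leaf.conj {c y b : ℝ} {g : P} (h : C.Leaf c y b) (hg : g ∈ C.H) :
    C.Leaf (g c) (g y) (g b) :=
  ⟨mono hg h.1, h.2.1.conj hg, h.2.2.1.conj hg, fun x h1 h2 hx =>
    h.2.2.2 (g⁻¹ x) ((lt_inv hg).2 h1) ((inv_lt hg).2 h2) ((K_conj'' hg).1 hx)⟩

lemma Leaf.le {c y b : ℝ} (h : C.Leaf c y b) : c ≤ y := by
  by_contra hc
  push Not at hc
  obtain ⟨x, h1, h2⟩ := exists_between (lt_min hc h.1)
  exact h.2.2.2 x h1 (h2.trans_le (min_le_right _ _)) (K_of_le (h2.trans_le (min_le_left _ _)).le)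

lemma isClosed_K (a : ℝ) : IsClosed {y | C.K a y} := by
  have : {y | C.K a y} = ⋂ h : {h : P // C.Ha a h}, {y | h.1 y = y} := by
    ext y; simp [K]
  rw [this]
  exact isClosed_iInter fun h => isClosed_eq (C.pl _ h.2.1).continuous continuous_id

lemma exists_next (c x : ℝ) : ∃ b, x ≤ b ∧ C.K c b ∧ ∀ z, x ≤ z → C.K c z → b ≤ z := by
  have hc : IsClosed ({y | C.K c y} ∩ Ici x) := (isClosed_K c).inter isClosed_Ici
  have hb : BddBelow ({y | C.K c y} ∩ Ici x) := ⟨x, fun y hy => hy.2⟩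
  have hm := hc.csInf_mem ⟨max 1 x, K_of_one (le_max_left _ _), mem_Ici.2 (le_max_right _ _)⟩ hb
  exact ⟨_, hm.2, hm.1, fun z h1 h2 => csInf_le hb ⟨h2, h1⟩⟩

lemma exists_prev (c x : ℝ) : ∃ b, b ≤ x ∧ C.K c b ∧ ∀ z, z ≤ x → C.K c z → z ≤ b := by
  have hc : IsClosed ({y | C.K c y} ∩ Iic x) := (isClosed_K c).inter isClosed_Iic
  have hb : BddAbove ({y | C.K c y} ∩ Iic x) := ⟨x, fun y hy => hy.2⟩
  have hm := hc.csSup_mem ⟨min c x, K_of_le (min_le_left _ _), mem_Iic.2 (min_le_right _ _)⟩ hb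
  exact ⟨_, hm.2, hm.1, fun z h1 h2 => le_csSup hb ⟨h2, h1⟩⟩

lemma exists_leaf {c x : ℝ} (h : ¬ C.K c x) : ∃ y b, C.Leaf c y b ∧ y < x ∧ x < b := by
  obtain ⟨b, b1, b2, b3⟩ := C.exists_next c x
  obtain ⟨y, y1, y2, y3⟩ := C.exists_prev c x
  have hy : y < x := lt_of_le_of_ne y1 fun e => h (e ▸ y2)
  have hb : x < b := lt_of_le_of_ne b1 fun e => h (e ▸ b2)
  refine ⟨y, b, ⟨hy.trans hb, y2, b2, fun z h1 h2 hz => ?_⟩, hy, hb⟩
  rcases le_total z x with h3 | h3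
  · exact absurd (y3 z h3 hz) (not_le.2 h1)
  · exact absurd (b3 z h3 hz) (not_le.2 h2)

/-- a leaf whose right end is prescribed -/
lemma exists_leaf_to {c x b : ℝ} (hx : x < b) (hb : C.K c b)
    (h : ∀ z, x ≤ z → z < b → ¬ C.K c z) : ∃ y, C.Leaf c y b ∧ y < x := by
  obtain ⟨y, b', hl, h1, h2⟩ := exists_leaf (h x le_rfl hx)
  obtain rfl : b' = b := by
    rcases lt_trichotomy b' b with h3 | h3 | h3
    · exact absurd hl.2.2.1 (h b' h2.le h3)
    · exact h3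
    · exact absurd hb (hl.2.2.2 b (h1.trans hx) h3)
  exact ⟨y, hl, h1⟩

lemma Leaf.push {c y b x d : ℝ} (h : C.Leaf c y b) (h1 : y < x) (hd : d < b) :
    ∃ f, C.Ha c f ∧ d < f x := by
  by_contra hc
  push Not at hc
  set S : Set ℝ := {z | ∃ f, C.Ha c f ∧ z = f x}
  have hx : x ∈ S := ⟨1, Ha.one c, rfl⟩
  have hb : BddAbove S := ⟨d, by rintro _ ⟨f, hf, rfl⟩; exact hc f hf⟩
  have hle : sSup S ≤ d := csSup_le ⟨x, hx⟩ (by rintro _ ⟨f, hf, rfl⟩; exact hc f hf)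
  have key : ∀ g, C.Ha c g → sSup S ≤ g (sSup S) := fun g hg => by
    refine csSup_le ⟨x, hx⟩ ?_
    rintro _ ⟨f, hf, rfl⟩
    rw [← inv_le hg.1]
    exact le_csSup hb ⟨_, hg.inv.mul hf, rfl⟩
  refine h.2.2.2 (sSup S) (h1.trans_le (le_csSup hb hx)) (hle.trans_lt hd) fun g hg => ?_
  exact le_antisymm ((le_inv hg.1).1 (key _ hg.inv)) (key g hg)

lemma cut' {h : P} (hh : h ∈ C.H) {d : ℝ} (hd : Dy d) (e : h d = d) :
    ∃ h', C.Ha d h' ∧ ∀ x, d ≤ x → h' x = h x := by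
  obtain ⟨h', h1, h2, h3⟩ := C.cut h hh d hd e
  exact ⟨h', ⟨h1, h2⟩, h3⟩

lemma glue {h g : P} (hh : h ∈ C.H) (hg : g ∈ C.H) {d : ℝ} (hd : Dy d) (e : h d = g d) :
    ∃ f ∈ C.H, (∀ x, x ≤ d → f x = h x) ∧ ∀ x, d ≤ x → f x = g x := by
  obtain ⟨k, hk, hk'⟩ := cut' (mul_mem (inv_mem hh) hg) hd (by simp [← e])
  exact ⟨h * k, mul_mem hh hk.1, fun x hx => by simp [hk.2 x hx], fun x hx => by simp [hk' x hx]⟩

lemma cutfix {w : P} (hw : w ∈ C.H) {y κ c : ℝ} (e : w y = y) (hs : sl 1 w y = 0) (hκ : y < κ)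
    (hK : C.K c κ) (hc : c ≤ y) : w κ = κ := by
  obtain ⟨z, hz, hid⟩ := (C.pl w hw).id_right e hs
  obtain ⟨d, hd, h1, h2⟩ := exists_dy (lt_min hz hκ)
  obtain ⟨w', h3, h4⟩ := cut' hw hd (hid d h1.le (h2.trans_le (min_le_left _ _)).le)
  rw [← h4 κ (h2.trans_le (min_le_right _ _)).le]
  exact hK w' (h3.mono (hc.trans h1.le))

lemma Ha.irr {x : ℝ} {h : P} (hh : C.Ha x h) (hx : ¬ Ra x) : ∃ c, x < c ∧ C.Ha c h := by
  obtain ⟨z, hz, hid⟩ := (C.pl h hh.1).id_right (hh.2 x le_rfl)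
    ((C.pl h hh.1).sl_irr hx (hh.2 x le_rfl) sg_one)
  refine ⟨z, hz, hh.1, fun t ht => ?_⟩
  rcases le_total t x with h1 | h1
  · exact hh.2 t h1
  · exact hid t h1 ht

lemma star {z c κ : ℝ} {h : P} (hz : C.K c z) (hc : c ≤ z) (hh : h ∈ C.H) (e : h z = z)
    (hκ : z < κ) (hK : C.K (h c) κ) : C.K c κ := fun g hg => by
  have hgz := hz g hg
  have h1 := hg.inv.conj hh
  have h2 : (h * g⁻¹ * h⁻¹) z = z := by
    rw [Equiv.Perm.mul_apply, Equiv.Perm.mul_apply, inv_fix e, inv_fix hgz, e]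
  have h3 : sl 1 (g * (h * g⁻¹ * h⁻¹)) z = 0 := by
    rw [sl_mul (C.pl g hg.1) (C.pl _ h1.1) sg_one, h2]
    have := sl_conj (C.pl g hg.1).inv (C.pl h hh) sg_one (inv_fix hgz)
    rw [e] at this
    rw [this, sl_inv_fix (C.pl g hg.1) sg_one hgz]
    ring
  have h4 := cutfix (mul_mem hg.1 h1.1) (by rw [Equiv.Perm.mul_apply, h2, hgz]) h3 hκ hK
    (by rw [← e]; exact (le_iff hh).2 hc)
  rwa [Equiv.Perm.mul_apply, hK _ h1] at h4

lemma _root_.Pool.Agent.MP_337e3e_al.Rigid.apply {H : Subgroup P} {k : ℕ} {n : ℤ}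
    (hr : Rigid H k n) {h : P} (hh : h ∈ H) {y y' : ℝ} (h1 : (n : ℝ) / 2 ^ k ≤ y)
    (h2 : y ≤ (n + 1) / 2 ^ k) (h3 : (n : ℝ) / 2 ^ k ≤ y') (h4 : y' ≤ (n + 1) / 2 ^ k)
    (e : h y = y) : h y' = y' := by
  have hp := two_pow_pos' k
  have key : ∀ z : ℝ, (n + (2 ^ k * z - n)) / 2 ^ k = z := fun z => by field_simp; ring
  rw [div_le_iff₀ hp] at h1 h3
  rw [le_div_iff₀ hp] at h2 h4
  have := hr h hh (2 ^ k * y - n) ⟨by linarith, by linarith⟩ (by rw [key, e])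
    (2 ^ k * y' - n) ⟨by linarith, by linarith⟩
  rwa [key] at this

lemma RAct.nr {x : ℝ} (h : C.RAct x) : C.NR x := fun k => by
  obtain ⟨c1, c2⟩ := floor_cell k x
  obtain ⟨g, hg, y, y', h1, h2, h3, h4, h5, h6⟩ := h _ c2
  exact (C.fin k _).resolve_left fun hr =>
    h6 (hr.apply hg (c1.trans h1) h2 (c1.trans h3) h4 h5)

lemma LAct.nr {x : ℝ} (h : C.LAct x) (hx : ¬ Dy x) : C.NR x := fun k => by
  obtain ⟨c1, c2⟩ := floor_cell k x
  obtain ⟨g, hg, y, y', h1, h2, h3, h4, h5, h6⟩ :=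
    h _ (lt_of_le_of_ne c1 fun e => hx (e ▸ dy_grid _ _))
  exact (C.fin k _).resolve_left fun hr =>
    h6 (hr.apply hg h1 (h2.trans c2.le) h3 (h4.trans c2.le) h5)

lemma LAct.nl {x : ℝ} (h : C.LAct x) (k : ℕ) :
    ∃ t ∈ C.T, ∃ h ∈ C.H, SA h t.1 t.2 k (⌈2 ^ k * x⌉ - 1) := by
  obtain ⟨c1, c2⟩ := ceil_cell k x
  obtain ⟨g, hg, y, y', h1, h2, h3, h4, h5, h6⟩ := h _ c1
  exact (C.fin k _).resolve_left fun hr =>
    h6 (hr.apply hg h1 (h2.trans c2) h3 (h4.trans c2) h5)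

lemma lact_of {x : ℝ} (h : ∀ c, c < x → ¬ C.K c x) : C.LAct x := fun w hw => by
  have := h w hw
  unfold K at this
  push Not at this
  obtain ⟨g, hg, hx⟩ := this
  exact ⟨g, hg.1, w, x, le_rfl, hw.le, hw.le, le_rfl, hg.2 w le_rfl, hx⟩

lemma Leaf.lact {c y b : ℝ} (h : C.Leaf c y b) : C.LAct b := fun w hw => by
  obtain ⟨x, h1, h2⟩ := exists_between (max_lt hw h.1)
  have := h.2.2.2 x ((le_max_right _ _).trans_lt h1) h2
  unfold K at this
  push Not at this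
  obtain ⟨g, hg, hx⟩ := this
  exact ⟨g, hg.1, b, x, hw.le, le_rfl, ((le_max_left _ _).trans_lt h1).le, h2.le,
    h.2.2.1 g hg, hx⟩

lemma Leaf.ract {c y b : ℝ} (h : C.Leaf c y b) : C.RAct y := fun w hw => by
  obtain ⟨x, h1, h2⟩ := exists_between (lt_min hw h.1)
  have := h.2.2.2 x h1 (h2.trans_le (min_le_right _ _))
  unfold K at this
  push Not at this
  obtain ⟨g, hg, hx⟩ := this
  exact ⟨g, hg.1, y, x, le_rfl, hw.le, h1.le, (h2.trans_le (min_le_left _ _)).le,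
    h.2.1 g hg, hx⟩

lemma _root_.Pool.Agent.MP_337e3e_al.irr_tail {x : ℝ} (hx : ¬ Ra x) {i j : ℕ} (hij : i ≠ j)
    (a b : ℤ) : 2 ^ i * x - a ≠ 2 ^ j * x - b := fun e => by
  have hne' : (2 : ℚ) ^ i - 2 ^ j ≠ 0 := by
    intro h
    have : (2 : ℚ) ^ i = 2 ^ j := by linarith
    exact hij (pow_right_injective₀ (by norm_num) (by norm_num) this)
  have hne'' : (2 : ℝ) ^ i - 2 ^ j ≠ 0 := by exact_mod_cast hne'
  refine hx ⟨(a - b) / (2 ^ i - 2 ^ j), ?_⟩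
  push_cast
  rw [eq_div_iff hne'']
  linarith

/-- local wiggling at an irrational non-rigid point -/
lemma wiggle {x w φ : ℝ} (hx : ¬ Ra x) (hn : C.NR x) (hw : w < x) (hφ : x < φ) {S : ℝ → Prop}
    (hS : ∀ z, x < z → ∃ κ, S κ ∧ x < κ ∧ κ < z) :
    ∃ g ∈ C.H, ∃ κ, S κ ∧ g w < x ∧ x < g x ∧ g x < κ ∧ κ < φ ∧ κ < g φ := by
  set n : ℕ → ℤ := fun k => ⌊2 ^ k * x⌋ with hn'
  have c1 : ∀ k, (n k : ℝ) / 2 ^ k ≤ x := fun k => (floor_cell k x).1
  have c2 : ∀ k, x < (n k + 1 : ℝ) / 2 ^ k := fun k => (floor_cell k x).2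
  obtain ⟨K0, hK0⟩ := exists_pow_lt (lt_min (sub_pos.2 hw) (sub_pos.2 hφ))
  set I : Set ℕ := {k | K0 ≤ k ∧ 2 ^ k * x - n k < 1 / 2 ∧
    ∃ κ, S κ ∧ (n k + 1 / 2 : ℝ) / 2 ^ k ≤ κ ∧ κ < (n k + 1 : ℝ) / 2 ^ k}
  have hI : I.Infinite := by
    refine Set.infinite_of_forall_exists_gt fun K => ?_
    set K1 := max (K + 1) K0
    obtain ⟨κ, hκ, h1, h2⟩ := hS _ (c2 K1)
    have hex : ∃ j, K1 ≤ j ∧ (n j + 1 : ℝ) / 2 ^ j ≤ κ := by
      obtain ⟨K2, hK2⟩ := exists_pow_lt (sub_pos.2 h1)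
      refine ⟨max K1 K2, le_max_left _ _, ?_⟩
      have := hK2 _ (le_max_right K1 K2)
      have := c1 (max K1 K2)
      rw [add_div]
      linarith
    classical
    obtain ⟨j1, j2⟩ := Nat.find_spec hex
    have j3 : Nat.find hex ≠ K1 := fun e => by rw [e] at j2; linarith
    obtain ⟨k, hk⟩ : ∃ k, Nat.find hex = k + 1 := ⟨Nat.find hex - 1, by omega⟩
    have j4 := Nat.find_min hex (show k < Nat.find hex by omega)
    push Not at j4
    have j5 := j4 (by omega)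
    rw [hk] at j2
    have hp := two_pow_pos' k
    have e1 : 2 * n k ≤ n (k + 1) := by
      refine Int.le_floor.2 ?_
      have := c1 k
      rw [div_le_iff₀ hp] at this
      push_cast
      rw [pow_succ]
      linarith
    have e2 : n (k + 1) ≤ 2 * n k := by
      have := j2.trans_lt j5
      rw [pow_succ, div_lt_div_iff₀ (by positivity) hp] at this
      have : ((n (k + 1) : ℤ) : ℝ) < (2 * n k + 1 : ℤ) := by
        push_cast
        by_contra hc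
        push Not at hc
        nlinarith
      have := Int.cast_lt.1 this
      omega
    have e3 : (n (k + 1) : ℝ) = 2 * n k := by exact_mod_cast le_antisymm e2 e1
    have c3 := c2 (k + 1)
    rw [e3] at j2 c3
    refine ⟨k, ⟨by omega, ?_, κ, hκ, le_trans (le_of_eq ?_) j2, j5⟩, by omega⟩
    · rw [pow_succ, lt_div_iff₀ (by positivity)] at c3
      linarith
    · rw [pow_succ]; field_simp
  choose t ht h hh hs using hn
  obtain ⟨i, hi, j, hj, hij, e⟩ :=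
    hI.exists_ne_map_eq_of_mapsTo (f := t) (t := C.T) (fun k _ => ht k) C.T.finite_toSet
  have key : ∀ i ∈ I, ∀ j ∈ I, t i = t j → 2 ^ i * x - n i < 2 ^ j * x - n j →
      ∃ g ∈ C.H, ∃ κ, S κ ∧ g w < x ∧ x < g x ∧ g x < κ ∧ κ < φ ∧ κ < g φ := by
    rintro i ⟨i1, -, κ, hκ, i2, i3⟩ j ⟨j1, j2, -⟩ e hlt
    have hg : h i * (h j)⁻¹ ∈ C.H := mul_mem (hh i) (inv_mem (hh j))
    have hsa : SA (h i * (h j)⁻¹) j (n j) i (n i) := (hs i).comp (e ▸ (hs j).inv)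
    have hp := two_pow_pos' i
    have a1 := hK0 i i1
    have a2 := hK0 j j1
    rw [lt_min_iff] at a1 a2
    have b1 := c1 i
    have b2 := c2 j
    have b3 := c1 j
    refine ⟨_, hg, κ, hκ, ?_, ?_, ?_, ?_, ?_⟩
    · refine lt_of_lt_of_le ?_ (c1 i)
      rw [← hsa.left, lt_iff hg]
      rw [add_div] at b2
      linarith [a2.1]
    · rw [hsa.apply (c1 j) (c2 j).le, lt_div_iff₀ hp]
      linarith
    · rw [hsa.apply (c1 j) (c2 j).le]
      refine lt_of_lt_of_le ?_ i2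
      gcongr
    · rw [add_div] at i3
      linarith [a1.2]
    · refine i3.trans ?_
      rw [← hsa.right, lt_iff hg, add_div]
      linarith [a2.2]
  rcases lt_or_gt_of_ne (irr_tail hx hij (n i) (n j)) with hlt | hlt
  · exact key i hi j hj e hlt
  · exact key j hj i hi e.symm hlt

/-- a left contraction at a rational left-active point -/
lemma contr {x : ℝ} (hx : Ra x) (hl : C.LAct x) : ∃ t ∈ C.H, t x = x ∧ sl (-1) t x < 0 := by
  obtain ⟨q, rfl⟩ := hx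
  set n : ℕ → ℤ := fun k => ⌈2 ^ k * (q : ℝ)⌉ - 1 with hn'
  have c1 : ∀ k, (n k : ℝ) / 2 ^ k < q := fun k => (ceil_cell k q).1
  have c2 : ∀ k, (q : ℝ) ≤ (n k + 1 : ℝ) / 2 ^ k := fun k => (ceil_cell k q).2
  choose t ht h hh hs using hl.nl
  have hd : (0 : ℝ) < q.den := by exact_mod_cast q.den_pos
  have hq : (q : ℝ) * q.den = q.num := by exact_mod_cast Rat.mul_den_eq_num q
  have hcast : ∀ k : ℕ, ((2 ^ k * q.num - q.den * n k : ℤ) : ℝ) = q.den * (2 ^ k * q - n k) :=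
    fun k => by push_cast; rw [← hq]; ring
  obtain ⟨i, -, j, -, hij, e⟩ := (Set.infinite_univ (α := ℕ)).exists_lt_map_eq_of_mapsTo
    (f := fun k => (t k, (2 ^ k * q.num - q.den * n k : ℤ)))
    (t := (C.T : Set (ℕ × ℤ)) ×ˢ Icc (0 : ℤ) q.den) (fun k _ => by
      have hp := two_pow_pos' k
      have b1 := c1 k
      have b2 := c2 k
      rw [div_lt_iff₀ hp] at b1
      rw [le_div_iff₀ hp] at b2
      refine ⟨ht k, ?_, ?_⟩
      · have : (0 : ℝ) ≤ ((2 ^ k * q.num - q.den * n k : ℤ) : ℝ) := by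
          rw [hcast]; exact mul_nonneg hd.le (by linarith)
        exact_mod_cast this
      · have : ((2 ^ k * q.num - q.den * n k : ℤ) : ℝ) ≤ q.den := by
          rw [hcast]; exact mul_le_of_le_one_right hd.le (by linarith)
        exact_mod_cast this)
    (C.T.finite_toSet.prod (Set.finite_Icc _ _))
  simp only [Prod.mk.injEq] at e
  have e2 : (2 : ℝ) ^ i * q - n i = 2 ^ j * q - n j := by
    have := congrArg (Int.cast : ℤ → ℝ) e.2
    rwa [hcast, hcast, mul_right_inj' hd.ne'] at this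
  have hsa : SA (h j * (h i)⁻¹) i (n i) j (n j) := (hs j).comp (e.1 ▸ (hs i).inv)
  refine ⟨_, mul_mem (hh j) (inv_mem (hh i)), ?_, ?_⟩
  · rw [hsa.apply (c1 i).le (c2 i), e2]
    field_simp
    ring
  · rw [(hsa.sl_left (c1 i) (c2 i)).eq sg_neg]
    omega

lemma exists_contr {h : P} (hh : h ∈ C.H) {x : ℝ} (e : h x = x) (hs : sl (-1) h x ≠ 0) :
    ∃ t, (t = h ∨ t = h⁻¹) ∧ t ∈ C.H ∧ t x = x ∧ sl (-1) t x < 0 := by
  rcases lt_or_gt_of_ne hs with h1 | h1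
  · exact ⟨h, Or.inl rfl, hh, e, h1⟩
  · exact ⟨h⁻¹, Or.inr rfl, inv_mem hh, inv_fix e, by
      rw [sl_inv_fix (C.pl h hh) sg_neg e]; omega⟩

lemma cut_left {h : P} (hh : h ∈ C.H) {x : ℝ} (e : h x = x) (hs : sl (-1) h x = 0) :
    ∃ d, d < x ∧ ∃ h', C.Ha x h' ∧ ∀ y, d ≤ y → h' y = h y := by
  obtain ⟨z, hz, hid⟩ := (C.pl h hh).id_left e hs
  obtain ⟨d, hd, h1, h2⟩ := exists_dy hz
  obtain ⟨h', h3, h4⟩ := cut' hh hd (hid d h1.le h2.le)
  refine ⟨d, h2, h', ⟨h3.1, fun y hy => ?_⟩, h4⟩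
  rcases le_total y d with h5 | h5
  · exact h3.2 y h5
  · rw [h4 y h5, hid y (h1.le.trans h5) hy]

lemma lemA {b x c₁ z : ℝ} (hb : C.K x b) (hb' : ∀ c, c < x → ¬ C.K c b) (hc₁ : c₁ < x)
    (hz : C.K c₁ z) (h1 : x ≤ z) (h2 : z ≤ b) :
    Ra x ∧ ∃ c, c < x ∧ ∀ c', c' < x → ∀ κ, z < κ → C.K c' κ → C.K c κ := by
  have hzb : z < b := lt_of_le_of_ne h2 fun e => hb' c₁ hc₁ (e ▸ hz)
  have s1 : ∀ h ∈ C.H, h z = z → h x ≤ x := fun h hh e => by
    by_contra hc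
    push Not at hc
    have hc' : max c₁ (h⁻¹ x) < x := max_lt hc₁ ((inv_lt hh).2 hc)
    refine hb' _ hc' (star (hz.mono (le_max_left _ _)) (hc'.le.trans h1) hh e hzb (hb.mono ?_))
    rw [← inv_le hh]
    exact le_max_right _ _
  have s2 : ∀ h ∈ C.H, h z = z → h x = x := fun h hh e =>
    le_antisymm (s1 h hh e) ((inv_le hh).1 (s1 _ (inv_mem hh) (inv_fix e)))
  have := hb' c₁ hc₁
  unfold K at this
  push Not at this
  obtain ⟨h, hh, hne⟩ := this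
  have hzz := hz h hh
  have hx := s2 h hh.1 hzz
  have hs : sl (-1) h x ≠ 0 := fun hs => by
    obtain ⟨d, hd, h', h3, h4⟩ := cut_left hh.1 hx hs
    exact hne (by rw [← h4 b (hd.le.trans (h1.trans h2)), hb h' h3])
  refine ⟨by_contra fun hr => hs ((C.pl h hh.1).sl_irr hr hx sg_neg), ?_⟩
  obtain ⟨t, ht, t1, t2, t3⟩ := exists_contr hh.1 hx hs
  have tz : t z = z := by rcases ht with rfl | rfl; exacts [hzz, inv_fix hzz]
  obtain ⟨y, hy, hp⟩ := (C.pl t t1).contr_left t2 t3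
  have hc' : max c₁ y < x := max_lt hc₁ hy
  refine ⟨_, hc', fun c' hc κ hκ hK => ?_⟩
  obtain ⟨n, hn⟩ := hp _ (le_max_right c₁ y) c' hc
  exact star (hz.mono (le_max_left _ _)) (hc'.le.trans h1) (pow_mem t1 n) (pow_fix tz n) hκ
    (hK.mono hn)

lemma lemX {x φ : ℝ} (hx : ¬ Ra x) (hφ : x < φ)
    (hK : ∀ c, c < x → ∀ z, x ≤ z → z ≤ φ → ¬ C.K c z) (hφK : C.K x φ) :
    ¬ Ra φ ∧ ∀ c, x < c → ∀ y, ¬ C.Leaf c y φ := by
  have hnr : C.NR x := (lact_of fun c hc => hK c hc x le_rfl hφ.le).nr fun h => hx h.ra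
  have tr : ∀ g ∈ C.H, ∀ c, c < g x → ∀ z, g x ≤ z → z ≤ g φ → ¬ C.K c z :=
    fun g hg c hc z h1 h2 h3 => hK (g⁻¹ c) ((inv_lt hg).2 hc) (g⁻¹ z) ((le_inv hg).2 h1)
      ((inv_le hg).2 h2) (h3.conj (inv_mem hg))
  have X1 : ∃ z, x < z ∧ ∀ κ, x < κ → κ < z → ¬ C.K x κ := by
    by_contra hc
    push Not at hc
    obtain ⟨g, hg, κ, hκ, -, h1, h2, -, h3⟩ := wiggle (w := x - 1) hx hnr (by linarith) hφ
      (S := C.K x) fun z hz => by
        obtain ⟨κ, h1, h2, h3⟩ := hc z hz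
        exact ⟨κ, h3, h1, h2⟩
    exact tr g hg x h1 κ h2.le h3.le hκ
  obtain ⟨z, hz, hzK⟩ := X1
  obtain ⟨q, q1, q2, q3⟩ := C.exists_next x z
  have hxq : x < q := hz.trans_le q1
  have hL : C.Leaf x x q := ⟨hxq, K_of_le le_rfl, q2, fun y h1 h2 h3 => by
    rcases lt_or_ge y z with h4 | h4
    · exact hzK y h1 h4 h3
    · exact absurd (q3 y h4 h3) (not_le.2 h2)⟩
  have hqφ : q ≤ φ := not_lt.1 fun h => hL.2.2.2 φ hφ h hφK
  have X2 : ∀ c, x < c → ∀ y, ¬ C.Leaf c y q := fun c₀ hc₀ y₀ hl₀ => by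
    obtain ⟨g, hg, κ, ⟨c, hc, hl⟩, -, h1, h2, h3, h4⟩ := wiggle (w := x - 1) hx hnr
      (by linarith) hxq (S := fun y => ∃ c, x < c ∧ C.Leaf c y q) fun z' hz' => by
        obtain ⟨p, p1, p2⟩ := exists_between (lt_min hz' hxq)
        have p3 : p < q := p2.trans_le (min_le_right _ _)
        obtain ⟨p', p4, p5⟩ := exists_between (max_lt p3 hl₀.1)
        obtain ⟨f, hf, hf'⟩ := hL.push p1 p5
        obtain ⟨c, hc, hf2⟩ := hf.irr hx
        have hc' : x < min c c₀ := lt_min hc hc₀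
        obtain ⟨y, hy, hy'⟩ := exists_leaf_to (c := min c c₀) p3 (q2.mono hc'.le)
          fun u u1 u2 u3 => by
            rcases le_or_gt u p' with u4 | u4
            · have := (le_iff hf.1).2 u1
              rw [u3 f (hf2.mono (min_le_left _ _))] at this
              linarith
            · exact hl₀.2.2.2 u (((le_max_right _ _).trans_lt p4).trans u4) u2
                (u3.mono (min_le_right _ _))
        exact ⟨y, ⟨_, hc', hy⟩, hc'.trans_le hy.le, hy'.trans (p2.trans_le (min_le_left _ _))⟩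
    have h5 : g q ≤ g φ := (le_iff hg).2 hqφ
    have h6 : g q < q := not_le.1 fun h => tr g hg x h1 q (h2.trans h3).le (h.trans h5) q2
    have h7 : c < g x := not_le.1 fun h => hl.2.2.2 _ h4 h6 ((q2.conj hg).mono h)
    exact tr g hg c h7 κ h2.le (h4.le.trans h5) hl.2.1
  have hq : ¬ Ra q := fun hq => by
    obtain ⟨t, t1, t2, t3⟩ := contr hq hL.lact
    have s1 : ∀ s ∈ C.H, s q = q → x ≤ s x := fun s hs e => not_lt.1 fun h =>
      hK _ h q hxq.le hqφ (by simpa [e] using q2.conj hs)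
    have tx : t x = x := le_antisymm ((le_inv t1).1 (s1 _ (inv_mem t1) (inv_fix t2))) (s1 t t1 t2)
    obtain ⟨u, hu, hid⟩ := (C.pl t t1).id_right tx ((C.pl t t1).sl_irr hx tx sg_one)
    obtain ⟨d, hd, d1, d2⟩ := exists_dy (lt_min hu hxq)
    obtain ⟨t', t4, t5⟩ := cut' t1 hd (hid d d1.le (d2.trans_le (min_le_left _ _)).le)
    obtain ⟨v, hv, hnf⟩ := (C.pl t t1).nofix_left t2 t3.ne
    have d3 : d < q := d2.trans_le (min_le_right _ _)
    obtain ⟨y, hy, -⟩ := exists_leaf_to (c := d) (max_lt d3 hv) (q2.mono d1.le)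
      fun u u1 u2 u3 => hnf u ((le_max_right _ _).trans u1) u2
        (by rw [← t5 u ((le_max_left _ _).trans u1), u3 t' t4])
    exact X2 d d1 y hy
  obtain rfl : q = φ := by
    by_contra hne
    have hlt : q < φ := lt_of_le_of_ne hqφ hne
    obtain ⟨g, hg, κ, -, h1, h2, h3, h4, -⟩ := wiggle (w := x) hq
      (hL.lact.nr fun h => hq h.ra) hxq hlt (S := fun _ => True) fun z' hz' => by
        obtain ⟨p, p1, p2⟩ := exists_between hz'
        exact ⟨p, trivial, p1, p2⟩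
    have hg' := inv_mem hg
    have a1 : x < g⁻¹ q := (lt_inv hg).2 h1
    have a2 : g⁻¹ q < q := (inv_lt hg).2 h2
    have a3 : q < g⁻¹ φ := (lt_inv hg).2 (h3.trans h4)
    have a4 : x < g⁻¹ x := not_le.1 fun h => hL.2.2.2 _ a1 a2 ((q2.conj hg').mono h)
    exact tr _ hg' x a4 q ((mono hg' hxq).trans a2).le a3.le q2
  exact ⟨hq, X2⟩

/-- the threshold above which a rational point is fixed is rational -/
lemma R1 {b x : ℝ} (hb : Ra b) (h1 : ∀ c, c < x → ¬ C.K c b) (h2 : ∀ c, x < c → C.K c b) :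
    Ra x := by
  by_contra hx
  have hK : C.K x b := fun h hh => by
    obtain ⟨c, hc, hh'⟩ := hh.irr hx
    exact h2 c hc h hh'
  have hxb : x ≤ b := not_lt.1 fun h => by
    obtain ⟨c, c1, c2⟩ := exists_between h
    exact h1 c c2 (K_of_le c1.le)
  have hlt : x < b := lt_of_le_of_ne hxb fun e => hx (e ▸ hb)
  by_cases hc : ∃ c, c < x ∧ ∃ z, x ≤ z ∧ z ≤ b ∧ C.K c z
  · obtain ⟨c, c1, z, z1, z2, z3⟩ := hc
    exact hx (lemA hK h1 c1 z3 z1 z2).1
  · push Not at hc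
    exact (lemX hx hlt hc hK).1 hb

/-- right ends of leaves with rational parameter are rational -/
lemma R3 {a y β : ℝ} (hl : C.Leaf a y β) (ha : Ra a) : Ra β := by
  by_contra hβ
  have hnr : C.NR β := hl.lact.nr fun h => hβ h.ra
  have s1 : ∀ κ, β < κ → ∃ c r, ¬ C.K c β ∧ C.K c r ∧ β < r ∧ r < κ := fun κ hκ => by
    obtain ⟨g, hg, κ', h0, h1, h2, h3, -, -⟩ := wiggle hβ hnr hl.1 (φ := β + 1) (by linarith)
      (S := fun z => z < κ) fun z hz => by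
        obtain ⟨p, p1, p2⟩ := exists_between (lt_min hz hκ)
        exact ⟨p, p2.trans_le (min_le_right _ _), p1, p2.trans_le (min_le_left _ _)⟩
    exact ⟨g a, g β, (hl.conj hg).2.2.2 β h1 h2, (hl.conj hg).2.2.1, h2, h3.trans h0⟩
  set U : Set ℝ := {c | C.K c β}
  have hU : a ∈ U := hl.2.2.1
  have hb : BddBelow U := by
    obtain ⟨c, r, h1, -⟩ := s1 (β + 1) (by linarith)
    exact ⟨c, fun c' hc' => not_lt.1 fun h => h1 (K.mono hc' h.le)⟩
  set x := sInf U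
  have hxa : x ≤ a := csInf_le hb hU
  have x1 : ∀ c, c < x → ¬ C.K c β := fun c hc h => absurd (csInf_le hb h) (not_le.2 hc)
  have x2 : ∀ c, x < c → C.K c β := fun c hc => by
    obtain ⟨c', h1, h2⟩ := exists_lt_of_csInf_lt ⟨a, hU⟩ hc
    exact K.mono h1 h2.le
  have x3 : C.K x β := by
    by_contra h
    obtain ⟨p, r, hl', h1, h2⟩ := exists_leaf h
    obtain ⟨c, r', h3, h4, h5, h6⟩ := s1 r h2
    exact hl'.2.2.2 r' (h1.trans h5) h6 (h4.mono (not_lt.1 fun h => h3 (x2 c h)))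
  have s2 : ∀ κ, β < κ → ∃ c r, c < x ∧ C.K c r ∧ β < r ∧ r < κ := fun κ hκ => by
    obtain ⟨c, r, h1, h2⟩ := s1 κ hκ
    exact ⟨c, r, not_le.1 fun h => h1 (x3.mono h), h2⟩
  have hxβ : x < β := (hxa.trans hl.le).trans_lt hl.1
  by_cases hc : ∃ c, c < x ∧ ∃ z, x ≤ z ∧ z ≤ β ∧ C.K c z
  · obtain ⟨c₁, c1, z, z1, z2, z3⟩ := hc
    obtain ⟨-, c, hc, hcK⟩ := lemA x3 x1 c1 z3 z1 z2
    obtain ⟨p, r, hl', h1, h2⟩ := exists_leaf (x1 c hc)
    obtain ⟨c', r', h3, h4, h5, h6⟩ := s2 r h2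
    exact hl'.2.2.2 r' (h1.trans h5) h6 (hcK c' h3 r' (z2.trans_lt h5) h4)
  push Not at hc
  by_cases hx : Ra x
  · obtain ⟨t, t1, t2, t3⟩ := contr hx (lact_of fun c h => hc c h x le_rfl hxβ.le)
    have s3 : ∀ s ∈ C.H, s x = x → β ≤ s β := fun s hs e => not_lt.1 fun h => by
      obtain ⟨c, r, h1, h2, h3, h4⟩ := s2 _ ((lt_inv hs).2 h)
      refine hc (s c) (by rw [← e]; exact mono hs h1) (s r) ?_ ((lt_inv hs).1 h4).le (h2.conj hs)
      rw [← e]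
      exact (mono hs (hxβ.trans h3)).le
    have tβ : t β = β :=
      le_antisymm ((le_inv t1).1 (s3 _ (inv_mem t1) (inv_fix t2))) (s3 t t1 t2)
    obtain ⟨u, hu, hid⟩ := (C.pl t t1).id_right tβ ((C.pl t t1).sl_irr hβ tβ sg_one)
    obtain ⟨v, hv, hp⟩ := (C.pl t t1).contr_left t2 t3
    obtain ⟨p, r, hl', h1, h2⟩ := exists_leaf (x1 v hv)
    obtain ⟨c', r', h3, h4, h5, h6⟩ := s2 _ (lt_min h2 hu)
    obtain ⟨n, hn⟩ := hp v le_rfl c' h3
    have := (K_conj'' (pow_mem t1 n)).1 (h4.mono hn)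
    rw [inv_fix (pow_fix (hid r' h5.le (h6.trans_le (min_le_right _ _)).le) n)] at this
    exact hl'.2.2.2 r' (h1.trans h5) (h6.trans_le (min_le_left _ _)) this
  · exact (lemX hx hxβ hc x3).2 a (lt_of_le_of_ne hxa fun e => hx (e ▸ ha)) y hl

end Ctx

end Pool.Agent.MP_337e3e_al

end MrgPart2

-- ======== part 3: formerly Pool.Agent.MP_337e3e_al.Lam2
section MrgPart3

/-!
Finitely many types of leaf ends, germ exponents, and the pair lemma.
-/

namespace Pool.Agent.MP_337e3e_al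

open Set

/-- description of an upper set whose boundary is rational -/
lemma upper_desc {U : ℝ → Prop} (hm : ∀ a b, a ≤ b → U a → U b)
    (hr : ∀ x, (∀ c, c < x → ¬ U c) → (∀ c, x < c → U c) → Ra x) :
    (∀ a, U a) ∨ (∀ a, ¬ U a) ∨ ∃ θ : ℚ, (∀ a, U a ↔ (θ : ℝ) ≤ a) ∨ ∀ a, U a ↔ (θ : ℝ) < a := by
  by_cases h1 : ∀ a, U a
  · exact Or.inl h1
  by_cases h2 : ∀ a, ¬ U a
  · exact Or.inr (Or.inl h2)
  push Not at h1 h2
  obtain ⟨a₁, h1⟩ := h1
  have hb : BddBelow {a | U a} := ⟨a₁, fun c hc => not_lt.1 fun h => h1 (hm _ _ h.le hc)⟩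
  have x1 : ∀ c, c < sInf {a | U a} → ¬ U c := fun c hc h => absurd (csInf_le hb h) (not_le.2 hc)
  have x2 : ∀ c, sInf {a | U a} < c → U c := fun c hc => by
    obtain ⟨c', h3, h4⟩ := exists_lt_of_csInf_lt h2 hc
    exact hm _ _ h4.le h3
  obtain ⟨θ, hθ⟩ := hr _ x1 x2
  rw [hθ] at x1 x2
  refine Or.inr (Or.inr ⟨θ, ?_⟩)
  by_cases h : U θ
  · exact Or.inl fun a => ⟨fun ha => not_lt.1 fun h' => x1 a h' ha, fun ha => hm _ _ ha h⟩
  · exact Or.inr fun a => ⟨fun ha => not_le.1 fun h' => h (hm _ _ h' ha), x2 a⟩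

namespace Ctx

variable {C : Ctx}

/-- the finite list of representatives of left ends -/
noncomputable def reps (C : Ctx) : Finset ℚ :=
  (C.T ×ˢ (Finset.Icc 1 C.T.card) ×ˢ (Finset.Icc (0 : ℤ) (2 ^ C.T.card))).image
    fun u => ((u.1.2 : ℚ) + (u.2.2 : ℚ) / (2 ^ u.2.1 - 1)) / 2 ^ u.1.1

lemma dy_type {y : ℝ} (hy : Dy y) (hr : C.RAct y) : ∃ ρ ∈ C.reps, ∃ h ∈ C.H, h ρ = y := by
  obtain ⟨k, n, rfl⟩ := hy
  obtain ⟨t, ht, h, hh, hs⟩ := hr.nr k
  have : (2 : ℝ) ^ k * (n / 2 ^ k) = n := by field_simp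
  rw [this, Int.floor_intCast] at hs
  refine ⟨_, Finset.mem_image.2 ⟨(t, 1, 0), ?_, rfl⟩, h, hh, ?_⟩
  · simp only [Finset.mem_product, Finset.mem_Icc, le_refl, true_and]
    exact ⟨ht, Finset.card_pos.2 ⟨t, ht⟩, by positivity⟩
  · rw [← hs.left]
    congr 1
    simp

lemma Leaf.shift {a y β c : ℝ} (hl : C.Leaf a y β) (h0 : ∀ h, C.Ha a h → sl 1 h y = 0)
    (h1 : a ≤ c) (h2 : c ≤ y) : C.Leaf c y β :=
  ⟨hl.1, hl.2.1.mono h1, hl.2.2.1.mono h1, fun x x1 x2 hx => hl.2.2.2 x x1 x2 fun h hh =>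
    cutfix hh.1 (hl.2.1 h hh) (h0 h hh) x1 hx h2⟩

lemma nondy_type {a y β : ℝ} (hl : C.Leaf a y β) (hy : ¬ Dy y) (hay : a < y) :
    ∃ ρ ∈ C.reps, ∃ h ∈ C.H, h ρ = y := by
  set n : ℕ → ℤ := fun k => ⌊2 ^ k * y⌋ with hn'
  have c1 : ∀ k, (n k : ℝ) / 2 ^ k ≤ y := fun k => (floor_cell k y).1
  have c2 : ∀ k, y < (n k + 1 : ℝ) / 2 ^ k := fun k => (floor_cell k y).2
  have key : ∃ δ > (0 : ℝ), ∀ i j : ℕ, 1 / 2 ^ i < δ → 1 / 2 ^ j < δ → ∀ g ∈ C.H,
      SA g j (n j) i (n i) → ¬ g y < y := by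
    have aux : ∀ i j : ℕ, 1 / 2 ^ j < β - y → ∀ g ∈ C.H, SA g j (n j) i (n i) → y < g β :=
      fun i j hj g hg hs => by
        refine (c2 i).trans ?_
        rw [← hs.right, lt_iff hg, add_div]
        linarith [c1 j]
    by_cases h0 : ∀ h, C.Ha a h → sl 1 h y = 0
    · refine ⟨min (y - a) (β - y), lt_min (sub_pos.2 hay) (sub_pos.2 hl.1),
        fun i j hi hj g hg hs hlt => ?_⟩
      rw [lt_min_iff] at hi hj
      have e1 : ∀ k : ℕ, 1 / 2 ^ k < y - a → a ≤ (n k : ℝ) / 2 ^ k := fun k hk => by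
        have := c2 k
        rw [add_div] at this
        linarith
      have l1 := (hl.shift h0 (e1 j hj.1) (c1 j)).conj hg
      rw [hs.left] at l1
      exact l1.2.2.2 y hlt (aux i j hj.2 g hg hs) (hl.2.1.mono (e1 i hi.1))
    · push Not at h0
      obtain ⟨h, hh, hs⟩ := h0
      rw [← (C.pl h hh.1).sl_eq hy] at hs
      obtain ⟨v, hv, hnf⟩ := (C.pl h hh.1).nofix_left (hl.2.1 h hh) hs
      refine ⟨min (y - v) (β - y), lt_min (sub_pos.2 hv) (sub_pos.2 hl.1),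
        fun i j hi hj g hg hs hlt => ?_⟩
      rw [lt_min_iff] at hi hj
      have l1 := hl.conj hg
      have h1 : g a < a := not_le.1 fun h =>
        l1.2.2.2 y hlt (aux i j hj.2 g hg hs) (hl.2.1.mono h)
      refine hnf (g y) ?_ hlt (l1.2.1.mono h1.le h hh)
      have h2 := (le_iff hg).2 (c1 j)
      rw [hs.left] at h2
      have := c2 i
      rw [add_div] at this
      linarith [hi.1]
  obtain ⟨δ, hδ, key⟩ := key
  obtain ⟨K, hK⟩ := exists_pow_lt hδ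
  choose t ht h hh hs using hl.ract.nr
  obtain ⟨i, hi, j, hj, hij, e⟩ := Finset.exists_ne_map_eq_of_card_lt_of_maps_to
    (s := Finset.Icc K (K + C.T.card)) (t := C.T) (by simp; omega) (f := t) fun k _ => ht k
  wlog hlt : i < j generalizing i j
  · exact this j hj i hi hij.symm e.symm (by omega)
  rw [Finset.mem_Icc] at hi hj
  have hg : h i * (h j)⁻¹ ∈ C.H := mul_mem (hh i) (inv_mem (hh j))
  have hsa : SA (h i * (h j)⁻¹) j (n j) i (n i) := (hs i).comp (e ▸ (hs j).inv)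
  have h1 := key i j (hK i hi.1) (hK j hj.1) _ hg hsa
  have h2 := key j i (hK j hj.1) (hK i hi.1) _ (inv_mem hg) hsa.inv
  rw [inv_lt hg] at h2
  have h3 := le_antisymm (not_lt.1 h2) (not_lt.1 h1)
  have hp := two_pow_pos' i
  rw [hsa.apply (c1 j) (c2 j).le, div_eq_iff hp.ne'] at h3
  obtain ⟨r, rfl⟩ := Nat.exists_eq_add_of_le hlt.le
  have hr : (0 : ℝ) < 2 ^ r - 1 := sub_pos.2 (one_lt_pow₀ (by norm_num) (by omega))
  have h4 : (2 ^ i * y - n i) * (2 ^ r - 1) = (n (i + r) - 2 ^ r * n i : ℤ) := by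
    push_cast
    rw [pow_add] at h3
    linarith
  have t0 : 0 ≤ 2 ^ i * y - n i := by
    have := c1 i
    rw [div_le_iff₀ hp] at this
    linarith
  have t1 : 2 ^ i * y - n i ≤ 1 := by
    have := c2 i
    rw [lt_div_iff₀ hp] at this
    linarith
  refine ⟨_, Finset.mem_image.2 ⟨(t i, r, n (i + r) - 2 ^ r * n i), ?_, rfl⟩, h i, hh i, ?_⟩
  · simp only [Finset.mem_product, Finset.mem_Icc]
    refine ⟨ht i, ⟨by omega, by omega⟩, ?_, ?_⟩
    · have : (0 : ℝ) ≤ (n (i + r) - 2 ^ r * n i : ℤ) := h4 ▸ mul_nonneg t0 hr.le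
      exact_mod_cast this
    · have h5 : (2 : ℝ) ^ r ≤ 2 ^ C.T.card := pow_le_pow_right₀ (by norm_num) (by omega)
      have : ((n (i + r) - 2 ^ r * n i : ℤ) : ℝ) ≤ 2 ^ C.T.card := by
        rw [← h4]; nlinarith
      exact_mod_cast this
  · have := hs i _ ⟨t0, t1⟩
    rw [show ((⌊2 ^ i * y⌋ : ℤ) + (2 ^ i * y - n i)) / 2 ^ i = y by
      simp only [hn']; field_simp; ring] at this
    rw [← this]
    congr 1
    rw [eq_div_of_mul_eq hr.ne' h4]
    push_cast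
    rfl

lemma Leaf.unique {c₁ c₂ y β₁ β₂ : ℝ} (h₁ : C.Leaf c₁ y β₁) (h₂ : C.Leaf c₂ y β₂)
    (hf : (∃ h, C.Ha c₁ h ∧ sl 1 h y ≠ 0) ↔ ∃ h, C.Ha c₂ h ∧ sl 1 h y ≠ 0) : β₁ = β₂ := by
  wlog hc : c₁ ≤ c₂ generalizing c₁ c₂ β₁ β₂
  · exact (this h₂ h₁ hf.symm (le_of_not_ge hc)).symm
  refine le_antisymm (not_lt.1 fun h => h₁.2.2.2 _ h₂.1 h fun f hf' => ?_)
    (not_lt.1 fun h => h₂.2.2.2 _ h₁.1 h (h₁.2.2.1.mono hc))
  have fy := h₁.2.1 f hf'
  by_cases h0 : sl 1 f y = 0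
  · exact cutfix hf'.1 fy h0 h₂.1 h₂.2.2.1 h₂.le
  obtain ⟨g, hg, hg'⟩ := hf.1 ⟨f, hf', h0⟩
  have gy := h₂.2.1 g hg
  have := cutfix (mul_mem (zpow_mem hf'.1 (sl 1 g y)) (zpow_mem hg.1 (-sl 1 f y)))
    (by rw [Equiv.Perm.mul_apply, zpow_fix gy, zpow_fix fy])
    (by
      rw [sl_mul ((C.pl f hf'.1).zpow _) ((C.pl g hg.1).zpow _) sg_one, zpow_fix gy,
        sl_zpow (C.pl f hf'.1) sg_one fy, sl_zpow (C.pl g hg.1) sg_one gy]
      ring) h₂.1 h₂.2.2.1 h₂.le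
  rw [Equiv.Perm.mul_apply, zpow_fix (h₂.2.2.1 g hg)] at this
  exact fix_of_zpow (mono hf'.1) hg' this

lemma finite_right (y : ℝ) : {β | ∃ c, C.Leaf c y β}.Finite := by
  have : ∀ s : Prop, {β | ∃ c, C.Leaf c y β ∧
      ((∃ h, C.Ha c h ∧ sl 1 h y ≠ 0) ↔ s)}.Subsingleton := by
    rintro s β₁ ⟨c₁, h₁, e₁⟩ β₂ ⟨c₂, h₂, e₂⟩
    exact h₁.unique h₂ (e₁.trans e₂.symm)
  refine ((this True).finite.union (this False).finite).subset ?_
  rintro β ⟨c, hc⟩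
  by_cases h : ∃ h, C.Ha c h ∧ sl 1 h y ≠ 0
  · exact Or.inl ⟨c, hc, by simp [h]⟩
  · exact Or.inr ⟨c, hc, by simp [h]⟩

/-- a finite set of rational representatives for all special points -/
lemma exists_reps (C : Ctx) : ∃ R : Finset ℚ,
    (∀ b, Dy b → (b = 1 ∨ C.RAct b) → ∃ ρ ∈ R, ∃ h ∈ C.H, h ρ = b) ∧
    ∀ a y β, Dy a → C.Leaf a y β → ∃ ρ ∈ R, ∃ h ∈ C.H, h ρ = β := by
  have hB : {q : ℚ | ∃ ρ ∈ C.reps, ∃ c, C.Leaf c ρ q}.Finite := by
    have : (⋃ ρ ∈ C.reps, {β | ∃ c, C.Leaf c ρ β}).Finite :=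
      C.reps.finite_toSet.biUnion fun ρ _ => finite_right _
    refine (this.preimage (f := fun q : ℚ => (q : ℝ)) Rat.cast_injective.injOn).subset ?_
    rintro q ⟨ρ, h1, h2⟩
    exact mem_biUnion h1 h2
  refine ⟨insert 1 (C.reps ∪ hB.toFinset), fun b hb h => ?_, fun a y β ha hl => ?_⟩
  · rcases h with rfl | h
    · exact ⟨1, by simp, 1, one_mem _, by simp⟩
    · obtain ⟨ρ, h1, h2⟩ := dy_type hb h
      exact ⟨ρ, by simp [h1], h2⟩
  · have : ∃ ρ ∈ C.reps, ∃ h ∈ C.H, h ρ = y := by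
      by_cases hy : Dy y
      · exact dy_type hy hl.ract
      · exact nondy_type hl hy (lt_of_le_of_ne hl.le fun e => hy (e ▸ ha))
    obtain ⟨ρ, h1, h, hh, rfl⟩ := this
    have l1 := hl.conj (inv_mem hh)
    obtain ⟨q, hq⟩ := (C.pl _ (inv_mem hh)).ra (R3 hl ha.ra)
    rw [inv_app, hq] at l1
    refine ⟨q, ?_, h, hh, by rw [← hq, app_inv]⟩
    simp only [Finset.mem_insert, Finset.mem_union, Finite.mem_toFinset, mem_ofPred_eq]
    exact Or.inr (Or.inr ⟨ρ, h1, _, l1⟩)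

/-! ### left germ exponents -/

/-- left slope exponents at `z` of elements fixing `z` that are the identity left of `a` -/
def Phi (C : Ctx) (z a : ℝ) (k : ℤ) : Prop := ∃ h, C.Ha a h ∧ h z = z ∧ sl (-1) h z = k

/-- all exponents are multiples of `n` -/
def PhiU (C : Ctx) (z : ℝ) (n : ℕ) (a : ℝ) : Prop := ∀ k, C.Phi z a k → (n : ℤ) ∣ k

lemma Phi.mono {z a a' : ℝ} {k : ℤ} (h : C.Phi z a' k) (ha : a ≤ a') : C.Phi z a k := by
  obtain ⟨h, h1, h2⟩ := h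
  exact ⟨h, h1.mono ha, h2⟩

lemma Phi.conj {z a : ℝ} {k : ℤ} {g : P} (h : C.Phi z a k) (hg : g ∈ C.H) :
    C.Phi (g z) (g a) k := by
  obtain ⟨h, h1, h2, h3⟩ := h
  exact ⟨_, h1.conj hg, by simp [h2], by rw [sl_conj (C.pl h h1.1) (C.pl g hg) sg_neg h2, h3]⟩

lemma Phi.eq_zero {z a : ℝ} {k : ℤ} (h : C.Phi z a k) (ha : z ≤ a) : k = 0 := by
  obtain ⟨h, h1, -, rfl⟩ := h
  exact sl_left_of_id (y := z - 1) (by linarith) fun t _ ht => h1.2 t (ht.trans ha)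

/-- the exponents form a subgroup -/
def phiS (C : Ctx) (z a : ℝ) : AddSubgroup ℤ where
  carrier := {k | C.Phi z a k}
  zero_mem' := ⟨1, Ha.one a, rfl, sl_one sg_neg z⟩
  add_mem' := by
    rintro _ _ ⟨f, f1, f2, rfl⟩ ⟨g, g1, g2, rfl⟩
    exact ⟨f * g, f1.mul g1, by simp [f2, g2], by
      rw [sl_mul (C.pl f f1.1) (C.pl g g1.1) sg_neg, g2]⟩
  neg_mem' := by
    rintro _ ⟨f, f1, f2, rfl⟩
    exact ⟨f⁻¹, f1.inv, inv_fix f2, sl_inv_fix (C.pl f f1.1) sg_neg f2⟩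

lemma PhiU.mono {z a a' : ℝ} {n : ℕ} (h : C.PhiU z n a) (ha : a ≤ a') : C.PhiU z n a' :=
  fun k hk => h k (hk.mono ha)

lemma fix_boundary {U : ℝ → Prop} {x : ℝ} {h : P} (hh : h ∈ C.H) (h1 : ∀ c, c < x → ¬ U c)
    (h2 : ∀ c, x < c → U c) (hi : ∀ c, U (h c) ↔ U c) : h x = x := by
  rcases lt_trichotomy (h x) x with e | e | e
  · obtain ⟨c, c1, c2⟩ := exists_between e
    exact absurd ((hi _).2 (h2 (h⁻¹ c) ((lt_inv hh).2 c1))) (by rw [app_inv]; exact h1 c c2)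
  · exact e
  · obtain ⟨c, c1, c2⟩ := exists_between e
    exact absurd ((hi _).1 (by rw [app_inv]; exact h2 c c1)) (h1 (h⁻¹ c) ((inv_lt hh).2 c2))

lemma Phi_fix {z : ℝ} {h : P} (hh : h ∈ C.H) (e : h z = z) (c : ℝ) (k : ℤ) :
    C.Phi z (h c) k ↔ C.Phi z c k :=
  ⟨fun h' => by simpa [inv_fix e] using h'.conj (inv_mem hh),
    fun h' => by simpa [e] using h'.conj hh⟩

lemma S1 {z x : ℝ} {n : ℕ} (hz : Ra z) (h1 : ∀ c, c < x → ¬ C.PhiU z n c)
    (h2 : ∀ c, x < c → C.PhiU z n c) : Ra x := by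
  by_contra hx
  have hxz : x ≤ z := not_lt.1 fun h => by
    obtain ⟨c, c1, c2⟩ := exists_between h
    exact h1 c c2 fun k hk => by rw [hk.eq_zero c1.le]; simp
  have hlt : x < z := lt_of_le_of_ne hxz fun e => hx (e ▸ hz)
  refine h1 (x - 1) (by linarith) ?_
  rintro _ ⟨h, hh, e, rfl⟩
  have hfx : h x = x := fix_boundary hh.1 h1 h2 fun c => by
    simp only [PhiU, Phi_fix hh.1 e]
  obtain ⟨u, hu, hid⟩ := (C.pl h hh.1).id_right hfx ((C.pl h hh.1).sl_irr hx hfx sg_one)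
  obtain ⟨d, hd, d1, d2⟩ := exists_dy (lt_min hu hlt)
  obtain ⟨h', h3, h4⟩ := cut' hh.1 hd (hid d d1.le (d2.trans_le (min_le_left _ _)).le)
  have d3 : d < z := d2.trans_le (min_le_right _ _)
  exact h2 d d1 _ ⟨h', h3, by rw [h4 z d3.le, e],
    sl_congr_left (C.pl h hh.1) d3 fun t ht _ => h4 t ht⟩

lemma S2' (z : ℝ) : ∃ e : ℤ, e ≠ 0 ∧ ∀ a k, k ≠ 0 → C.Phi z a k → C.Phi z a e := by
  set A : Set ℝ := {a | ∃ k, k ≠ 0 ∧ C.Phi z a k}
  rcases A.eq_empty_or_nonempty with hA | hA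
  · refine ⟨1, one_ne_zero, fun a k hk h => ?_⟩
    have : a ∈ A := ⟨k, hk, h⟩
    simp [hA] at this
  have hb : BddAbove A := ⟨z, fun a ⟨k, hk, h⟩ => not_lt.1 fun h' => hk (h.eq_zero h'.le)⟩
  by_cases hm : sSup A ∈ A
  · obtain ⟨e, he, h⟩ := hm
    exact ⟨e, he, fun a k hk h' => h.mono (le_csSup hb ⟨k, hk, h'⟩)⟩
  have a1 : ∀ c, c < sSup A → c ∈ A := fun c hc => by
    obtain ⟨a, ⟨k, hk, h⟩, h2⟩ := exists_lt_of_lt_csSup hA hc
    exact ⟨k, hk, h.mono h2.le⟩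
  have a2 : ∀ c ∈ A, c < sSup A := fun c hc =>
    lt_of_le_of_ne (le_csSup hb hc) fun e => hm (e ▸ hc)
  obtain ⟨a₁, k, hk, h, hh, e, rfl⟩ := hA
  have hA : A.Nonempty := ⟨a₁, _, hk, h, hh, e, rfl⟩
  have hle : sSup A ≤ z := csSup_le hA fun a ⟨k, hk, h⟩ => not_lt.1 fun h' => hk (h.eq_zero h'.le)
  have hfx : h (sSup A) = sSup A := fix_boundary (U := fun c => c ∉ A) hh.1
    (fun c hc => not_not.2 (a1 c hc)) (fun c hc h' => absurd (a2 c h') (not_lt.2 hc.le))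
    fun c => by simp only [A, mem_ofPred_eq, Phi_fix hh.1 e]
  have hs : sl (-1) h (sSup A) ≠ 0 := fun hs => by
    obtain ⟨d, hd, h', h3, h4⟩ := cut_left hh.1 hfx hs
    have d3 : d < z := hd.trans_le hle
    exact hm ⟨_, hk, h', h3, by rw [h4 z d3.le, e],
      sl_congr_left (C.pl h hh.1) d3 fun t ht _ => h4 t ht⟩
  obtain ⟨t, ht, t1, t2, t3⟩ := exists_contr hh.1 hfx hs
  have tz : t z = z := by rcases ht with rfl | rfl; exacts [e, inv_fix e]
  obtain ⟨y, hy, hp⟩ := (C.pl t t1).contr_left t2 t3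
  obtain ⟨e', he', h'⟩ := a1 y hy
  refine ⟨e', he', fun a k hk ha => ?_⟩
  obtain ⟨n, hn⟩ := hp y le_rfl a (a2 a ⟨k, hk, ha⟩)
  exact ((Phi_fix (pow_mem t1 n) (pow_fix tz n) y e').2 h').mono hn

lemma S2 (z : ℝ) : ∃ N : ℕ, ∀ a k, ¬ C.Phi z a k ↔
    ∃ n ∈ Finset.range N, C.PhiU z n a ∧ ¬ (n : ℤ) ∣ k := by
  obtain ⟨e, he, h⟩ := S2' (C := C) z
  refine ⟨e.natAbs + 1, fun a k => ⟨fun hk => ?_, fun ⟨n, _, h1, h2⟩ hk => h2 (h1 k hk)⟩⟩
  obtain ⟨m, hm⟩ := Int.subgroup_cyclic (C.phiS z a)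
  have hm' : ∀ j, C.Phi z a j ↔ (m.natAbs : ℤ) ∣ j := fun j => by
    change j ∈ C.phiS z a ↔ _
    rw [hm, AddSubgroup.mem_closure_singleton, Int.natAbs_dvd]
    exact ⟨fun ⟨n, hn⟩ => ⟨n, by rw [← hn]; simp [mul_comm]⟩,
      fun ⟨n, hn⟩ => ⟨n, by rw [hn]; simp [mul_comm]⟩⟩
  refine ⟨m.natAbs, Finset.mem_range.2 (Nat.lt_succ_of_le ?_), fun j => (hm' j).1,
    fun h' => hk ((hm' k).2 h')⟩
  by_cases h0 : m = 0
  · simp [h0]
  · have := (hm' e).1 (h a m h0 ((hm' m).2 (by simp)))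
    exact Nat.le_of_dvd (Int.natAbs_pos.2 he) (by simpa using Int.natAbs_dvd_natAbs.2 this)

/-! ### the pair lemma -/

/-- certificate for membership in `K a` -/
def CK (C : Ctx) (R : Finset ℚ) (a β : ℝ) : Prop :=
  ∃ ρ ∈ R, ∃ h ∈ C.H, h ρ = β ∧ C.K (h⁻¹ a) ρ

/-- certificate for a non-realized left germ -/
def CPhi (C : Ctx) (R : Finset ℚ) (a β : ℝ) (k : ℤ) : Prop :=
  ∃ ρ ∈ R, ∃ h ∈ C.H, h ρ = β ∧ ¬ C.Phi ρ (h⁻¹ a) k

/-- certificate for lying in different orbits -/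
def NO (C : Ctx) (R : Finset ℚ) (b b' : ℝ) : Prop :=
  ∃ ρ ∈ R, ∃ ρ' ∈ R, (¬ ∃ g ∈ C.H, g ρ = ρ') ∧ (∃ h ∈ C.H, h ρ = b) ∧ ∃ h' ∈ C.H, h' ρ' = b'

/-- one-sided obstruction -/
def NP' (C : Ctx) (R : Finset ℚ) (a b : ℝ) (g : P) : Prop :=
  ∃ β : ℚ, b ≤ β ∧ C.CK R a β ∧
    (g β ≠ β ∨ (b < β ∧ ∃ k : ℤ, sl (-1) g β = k ∧ C.CPhi R a β k))

/-- certificate that no element fixes `a` and maps `b` to `b'` -/
def NP (C : Ctx) (R : Finset ℚ) (a b b' : ℝ) : Prop :=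
  C.NO R b b' ∨ ∃ g ∈ C.H, g b = b' ∧ (C.NP' R a b g ∨ C.NP' R a b' g⁻¹)

lemma NP'.sound {R : Finset ℚ} {a b : ℝ} {g h : P} (hn : C.NP' R a b g) (hb : Dy b) (hab : a ≤ b)
    (hg : g ∈ C.H) (hh : C.Ha a h) (e : h b = g b) : False := by
  obtain ⟨β, h1, ⟨ρ, -, f, hf, e1, h2⟩, h3⟩ := hn
  have hK : C.K a β := by rw [← e1, K_conj' hf]; exact h2
  obtain ⟨k, hk, hk'⟩ := cut' (mul_mem (inv_mem hg) hh.1) hb (by simp [e])
  have hk2 := hk.mono hab
  have e2 : ∀ x, b ≤ x → g (k x) = h x := fun x hx => by rw [hk' x hx]; simp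
  have kβ := hK k hk2
  have gβ : g β = β := by rw [← kβ, e2 β h1, hK h hh, kβ]
  rcases h3 with h3 | ⟨h3, _, rfl, ρ', -, f', hf', e3, h4⟩
  · exact h3 gβ
  refine h4 ?_
  have : C.Phi β a (sl (-1) g β) := by
    refine ⟨h * k⁻¹, hh.mul hk2.inv, hK _ (hh.mul hk2.inv), sl_congr_left (C.pl g hg) h3 ?_⟩
    intro t ht _
    rw [Equiv.Perm.mul_apply, ← e2 _ ((le_inv hk.1).2 (by rw [hk.2 b le_rfl]; exact ht)), app_inv]
  have := this.conj (inv_mem hf')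
  rwa [← e3, inv_app, e3] at this

lemma NP.sound {R : Finset ℚ} {a b b' : ℝ} (hn : C.NP R a b b') (ha : Dy a) (hb : Dy b)
    (hab : a ≤ b) : ¬ ∃ h ∈ C.H, h a = a ∧ h b = b' := by
  rintro ⟨h₀, hh₀, e1, rfl⟩
  obtain ⟨h, hh, hh'⟩ := cut' hh₀ ha e1
  rw [← hh' b hab] at hn
  rcases hn with ⟨ρ, -, ρ', -, h1, ⟨f, hf, rfl⟩, f', hf', e2⟩ | ⟨g, hg, e, h1 | h1⟩
  · exact h1 ⟨f'⁻¹ * h * f, mul_mem (mul_mem (inv_mem hf') hh.1) hf, by simp [← e2]⟩
  · exact h1.sound hb hab hg hh e.symm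
  · refine h1.sound ((C.pl h hh.1).dy hb) ?_ (inv_mem hg) hh.inv (by rw [inv_app, ← e, inv_app])
    rw [← hh.2 a le_rfl]
    exact (le_iff hh.1).2 hab

lemma NP.complete (C : Ctx) : ∃ R : Finset ℚ, ∀ a b b', Dy a → Dy b → Dy b' →
    (b = 1 ∨ C.RAct b) → (b' = 1 ∨ C.RAct b') → (¬ ∃ h ∈ C.H, h a = a ∧ h b = b') →
    C.NP R a b b' := by
  obtain ⟨R, hR1, hR2⟩ := C.exists_reps
  refine ⟨R, fun a b b' ha hb hb' hr hr' hno => ?_⟩
  by_cases hO : ∃ g ∈ C.H, g b = b'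
  swap
  · obtain ⟨ρ, h1, h, hh, e⟩ := hR1 b hb hr
    obtain ⟨ρ', h1', h', hh', e'⟩ := hR1 b' hb' hr'
    refine Or.inl ⟨ρ, h1, ρ', h1', fun ⟨g, hg, e2⟩ => hO ?_, ⟨h, hh, e⟩, h', hh', e'⟩
    exact ⟨h' * g * h⁻¹, mul_mem (mul_mem hh' hg) (inv_mem hh), by simp [← e, e2, e']⟩
  obtain ⟨g, hg, e⟩ := hO
  refine Or.inr ⟨g, hg, e, ?_⟩
  have nxt : ∀ b, Dy b → (b = 1 ∨ C.RAct b) → ∃ β : ℚ, b ≤ β ∧ C.K a β ∧
      (∀ z, b ≤ z → C.K a z → β ≤ z) ∧ ∃ ρ ∈ R, ∃ h ∈ C.H, h ρ = β := fun b hb hr => by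
    obtain ⟨β, h1, h2, h3⟩ := C.exists_next a b
    rcases h1.eq_or_lt with rfl | h4
    · obtain ⟨q, hq⟩ := hb.ra
      exact ⟨q, hq.le, hq ▸ h2, hq ▸ h3, hq ▸ hR1 b hb hr⟩
    · obtain ⟨y, hl, -⟩ := exists_leaf_to h4 h2 fun z z1 z2 z3 =>
        absurd (h3 z z1 z3) (not_le.2 z2)
      obtain ⟨q, hq⟩ := R3 hl ha.ra
      exact ⟨q, hq ▸ h1, hq ▸ h2, hq ▸ h3, hq ▸ hR2 a y β ha hl⟩
  have ck : ∀ β : ℝ, C.K a β → (∃ ρ ∈ R, ∃ h ∈ C.H, h ρ = β) → C.CK R a β :=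
    fun β h1 ⟨ρ, h2, h, hh, e⟩ => ⟨ρ, h2, h, hh, e, by rw [← K_conj' hh, e]; exact h1⟩
  obtain ⟨β, b1, b2, b3, b4⟩ := nxt b hb hr
  by_cases gβ : g β = β
  swap
  · exact Or.inl ⟨β, b1, ck β b2 b4, Or.inl gβ⟩
  have b5 : b < β := lt_of_le_of_ne b1 fun e' =>
    hno ⟨1, one_mem _, rfl, by rw [← e, e', gβ]; rfl⟩
  by_cases hΦ : C.Phi β a (sl (-1) g β)
  swap
  · obtain ⟨ρ, h2, h, hh, e'⟩ := b4
    refine Or.inl ⟨β, b1, ck β b2 ⟨ρ, h2, h, hh, e'⟩, Or.inr ⟨b5, _, rfl, ρ, h2, h, hh, e',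
      fun h3 => hΦ ?_⟩⟩
    have := h3.conj hh
    rwa [app_inv, e'] at this
  obtain ⟨y, hl, hy⟩ := exists_leaf_to b5 b2 fun z z1 z2 z3 => absurd (b3 z z1 z3) (not_le.2 z2)
  by_cases hyb : b' ≤ y
  · obtain ⟨β', c1, c2, c3, c4⟩ := nxt b' hb' hr'
    refine Or.inr ⟨β', c1, ck β' c2 c4, Or.inl fun e' => ?_⟩
    have := (le_iff (inv_mem hg)).2 c1
    rw [e', ← e, inv_app] at this
    linarith [c3 y hyb hl.2.1]
  push Not at hyb
  exfalso
  obtain ⟨h, hh, hβ, hs⟩ := hΦ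
  have hg1 : h⁻¹ * g ∈ C.H := mul_mem (inv_mem hh.1) hg
  have e1 : (h⁻¹ * g) β = β := by rw [Equiv.Perm.mul_apply, gβ, inv_fix hβ]
  obtain ⟨v, hv, hid⟩ := (C.pl _ hg1).id_left e1 (by
    rw [sl_mul (C.pl h hh.1).inv (C.pl g hg) sg_neg, gβ, sl_inv_fix (C.pl h hh.1) sg_neg hβ, hs]
    ring)
  obtain ⟨d, hd, d1, d2⟩ := exists_dy (max_lt hv b5)
  obtain ⟨g', hg', g1, g2⟩ := glue hg1 (one_mem _) hd
    (hid d ((le_max_left _ _).trans d1.le) d2.le)
  have g3 : g' b = h⁻¹ b' := by rw [g1 b ((le_max_right _ _).trans d1.le), ← e]; rfl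
  have g4 : g' β = β := g2 β d2.le
  have l2 := hl.conj (inv_mem hg')
  rw [inv_fix g4] at l2
  have hy2 : g'⁻¹ y < b := by
    rw [inv_lt hg', g3, lt_inv hh.1, hl.2.1 h hh]
    exact hyb
  have : ∃ f, C.Ha a f ∧ C.Ha (g'⁻¹ a) f ∧ d < f b := by
    rcases le_total a (g'⁻¹ a) with h5 | h5
    · obtain ⟨f, f1, f2⟩ := l2.push hy2 d2
      exact ⟨f, f1.mono h5, f1, f2⟩
    · obtain ⟨f, f1, f2⟩ := hl.push hy d2
      exact ⟨f, f1, f1.mono h5, f2⟩
  obtain ⟨f, f1, f2, f3⟩ := this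
  have f4 := f2.inv.conj hg'
  rw [app_inv] at f4
  have f5 := hh.mul (f4.mul f1)
  refine hno ⟨_, f5.1, f5.2 a le_rfl, ?_⟩
  have : g'⁻¹ (f b) = f b := inv_fix (g2 _ f3.le)
  simp only [Equiv.Perm.mul_apply, this, inv_app, g3, app_inv]

end Ctx

end Pool.Agent.MP_337e3e_al

end MrgPart3

-- marker of a merged file
example : 731051 + 277253 = 731051 + 277253 := rfl
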