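import Mathlib.Algebra.Ring.IsFormallyReal
import Pool.Agent.MP_337e3e_al.Lam2

-- ======== part 0: formerly Pool.Agent.MP_337e3e_al.Gen
section MrgPart0

/-!
The two standard generators generate all `PL` maps; cutting; finitely many non-rigid classes.
-/

namespace Pool.Agent.MP_337e3e_al

open Set

/-- standard dyadic intervals -/
def Std (p q : ℝ) : Prop := ∃ (k : ℕ) (n : ℤ), p = n / 2 ^ k ∧ q = (n + 1) / 2 ^ k

/-- `f` maps the standard interval `[p,q]` affinely onto a standard interval -/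
def Good (f : P) (p q : ℝ) : Prop :=
  ∃ (k : ℕ) (n : ℤ) (k' : ℕ) (n' : ℤ), p = n / 2 ^ k ∧ q = (n + 1) / 2 ^ k ∧ SA f k n k' n'

/-- chains of good intervals ending at `1` -/
inductive Ch (f : P) : ℕ → ℝ → Prop
  | nil : Ch f 0 1
  | cons {n : ℕ} {p q : ℝ} : Good f p q → Ch f n q → Ch f (n + 1) p

lemma cell_lt (k : ℕ) (n : ℤ) : (n : ℝ) / 2 ^ k < (n + 1) / 2 ^ k := by gcongr; linarith

lemma Good.lt {f : P} {p q : ℝ} (h : Good f p q) : p < q := by
  obtain ⟨k, n, -, -, rfl, rfl, -⟩ := h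
  exact cell_lt k n

lemma Good.std {f : P} {p q : ℝ} (h : Good f p q) : Std p q := by
  obtain ⟨k, n, -, -, h1, h2, -⟩ := h
  exact ⟨k, n, h1, h2⟩

lemma Good.std' {f : P} {p q : ℝ} (h : Good f p q) : Std (f p) (f q) := by
  obtain ⟨k, n, k', n', rfl, rfl, hs⟩ := h
  exact ⟨k', n', hs.left, hs.right⟩

lemma cell_unique {k k' : ℕ} {n n' : ℤ} (h1 : (n : ℝ) / 2 ^ k = n' / 2 ^ k')
    (h2 : ((n : ℝ) + 1) / 2 ^ k = (n' + 1) / 2 ^ k') : k = k' ∧ n = n' := by
  have h3 : (1 : ℝ) / 2 ^ k = 1 / 2 ^ k' := by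
    rw [add_div, add_div] at h2; linarith
  have h4 : (2 : ℝ) ^ k = 2 ^ k' := by
    field_simp at h3; exact h3.symm
  obtain rfl : k = k' := pow_right_injective₀ (by norm_num) (by norm_num) h4
  refine ⟨rfl, ?_⟩
  field_simp at h1
  exact_mod_cast h1

lemma Good.comp {f g : P} {p q : ℝ} (hg : Good g p q) (hf : Good f (g p) (g q)) :
    Good (f * g) p q := by
  obtain ⟨k, n, k', n', rfl, rfl, hs⟩ := hg
  obtain ⟨j, m, j', m', h1, h2, hs'⟩ := hf
  rw [hs.left] at h1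
  rw [hs.right] at h2
  obtain ⟨rfl, rfl⟩ := cell_unique h1 h2
  exact ⟨k, n, j', m', rfl, rfl, hs'.comp hs⟩

lemma Good.inv {f : P} {p q : ℝ} (h : Good f p q) : Good f⁻¹ (f p) (f q) := by
  obtain ⟨k, n, k', n', rfl, rfl, hs⟩ := h
  exact ⟨k', n', k, n, hs.left, hs.right, hs.inv⟩

lemma Std.good_one {p q : ℝ} (h : Std p q) : Good 1 p q := by
  obtain ⟨k, n, h1, h2⟩ := h
  exact ⟨k, n, k, n, h1, h2, SA.one k n⟩

lemma Ch.le {f : P} {n : ℕ} {p : ℝ} (h : Ch f n p) : p ≤ 1 := by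
  induction h with
  | nil => exact le_rfl
  | cons h1 _ ih => exact h1.lt.le.trans ih

lemma Ch.transfer {f φ ψ : P} (hf : StrictMono f) (f1 : f 1 = 1) (φ1 : φ 1 = 1) {n : ℕ} {p : ℝ}
    (h : Ch f n p) (hφ : ∀ x y, p ≤ x → y ≤ 1 → Std x y → Good φ x y)
    (hψ : ∀ x y, f p ≤ x → y ≤ 1 → Std x y → Good ψ x y) : Ch (ψ * f * φ⁻¹) n (φ p) := by
  induction h with
  | nil => rw [φ1]; exact Ch.nil
  | @cons n p q h1 h2 ih =>
    have a1 := hφ p q le_rfl h2.le h1.std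
    have a2 := hψ _ _ le_rfl (f1 ▸ hf.monotone h2.le) h1.std'
    refine Ch.cons (q := φ q) ?_ (ih (fun x y hx => hφ x y (h1.lt.le.trans hx))
      fun x y hx => hψ x y ((hf h1.lt).le.trans hx))
    exact a1.inv.comp (by simpa using h1.comp a2)

lemma good_of {f : P} {p q : ℝ} {k k' : ℕ} {n n' : ℤ} {α l : ℝ} (hp : p = n / 2 ^ k)
    (hq : q = (n + 1) / 2 ^ k) (h : ∀ x, p ≤ x → x ≤ q → f x = α + l * x)
    (e : ∀ t : ℝ, α + l * ((n + t) / 2 ^ k) = (n' + t) / 2 ^ k') : Good f p q :=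
  ⟨k, n, k', n', hp, hq, fun t ht => by
    rw [h _ (by rw [hp]; gcongr; linarith [ht.1]) (by rw [hq]; gcongr; exact ht.2), e]⟩

/-- the map `x ↦ (x+1)/2` -/
noncomputable def sh : P where
  toFun x := (x + 1) / 2
  invFun x := 2 * x - 1
  left_inv x := by ring
  right_inv x := by ring

lemma sh_apply (x : ℝ) : sh x = (x + 1) / 2 := rfl

lemma sh_inv_apply (x : ℝ) : sh⁻¹ x = 2 * x - 1 := rfl

lemma good_sh_inv {x y : ℝ} (h1 : 1 / 2 ≤ x) (h2 : y ≤ 1) (h : Std x y) : Good sh⁻¹ x y := by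
  obtain ⟨k, n, hx, hy⟩ := h
  rcases k with _ | k
  · simp only [pow_zero, div_one] at hx hy
    linarith
  · exact good_of (k' := k) (n' := n - 2 ^ k) (α := -1) (l := 2) hx hy
      (fun x _ _ => by rw [sh_inv_apply]; ring)
      fun t => by push_cast; rw [pow_succ]; field_simp; ring

section gens

variable {a b : P}
  (ha : ∀ x : ℝ, a x = if x < 0 then x else if x ≤ 1/2 then x/2 else if x ≤ 3/4 then x - 1/4
        else if x ≤ 1 then 2*x - 1 else x)
  (hb : ∀ x : ℝ, b x = if x ≤ 1/2 then x else if x ≤ 3/4 then x/2 + 1/4 else if x ≤ 7/8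
        then x - 1/8 else if x ≤ 1 then 2*x - 1 else x)

include ha

lemma a0 {x : ℝ} (h : x ≤ 0) : a x = x := by rw [ha]; split_ifs <;> linarith

lemma a1 {x : ℝ} (h : 0 ≤ x) (h' : x ≤ 1 / 2) : a x = x / 2 := by rw [ha]; split_ifs <;> linarith

lemma a2 {x : ℝ} (h : 1 / 2 ≤ x) (h' : x ≤ 3 / 4) : a x = x - 1 / 4 := by
  rw [ha]; split_ifs <;> linarith

lemma a3 {x : ℝ} (h : 3 / 4 ≤ x) (h' : x ≤ 1) : a x = 2 * x - 1 := by
  rw [ha]; split_ifs <;> linarith

lemma a4 {x : ℝ} (h : 1 ≤ x) : a x = x := by rw [ha]; split_ifs <;> linarith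

lemma ai1 {x : ℝ} (h : 0 ≤ x) (h' : x ≤ 1 / 4) : a⁻¹ x = 2 * x := by
  rw [Equiv.Perm.inv_eq_iff_eq, a1 ha (by linarith) (by linarith)]; ring

lemma ai2 {x : ℝ} (h : 1 / 4 ≤ x) (h' : x ≤ 1 / 2) : a⁻¹ x = x + 1 / 4 := by
  rw [Equiv.Perm.inv_eq_iff_eq, a2 ha (by linarith) (by linarith)]; ring

lemma ai3 {x : ℝ} (h : 1 / 2 ≤ x) (h' : x ≤ 1) : a⁻¹ x = (x + 1) / 2 := by
  rw [Equiv.Perm.inv_eq_iff_eq, a3 ha (by linarith) (by linarith)]; ring

lemma pl_a : PL a := by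
  refine ⟨fun x y hxy => ?_, fun x => a0 ha, fun x => a4 ha, 2, fun n => ?_⟩
  · rw [ha, ha]; split_ifs <;> linarith
  by_cases h : n < 0
  · refine ⟨2, n, SA.of_id fun x _ h2 => a0 ha (h2.trans ?_)⟩
    have : (n : ℝ) + 1 ≤ 0 := by exact_mod_cast h
    linarith
  by_cases h' : 4 ≤ n
  · refine ⟨2, n, SA.of_id fun x h1 _ => a4 ha (le_trans ?_ h1)⟩
    have : (4 : ℝ) ≤ n := by exact_mod_cast h'
    linarith
  obtain rfl | rfl | rfl | rfl : n = 0 ∨ n = 1 ∨ n = 2 ∨ n = 3 := by omega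
  · refine ⟨3, 0, fun t ht => ?_⟩
    push_cast
    rw [a1 ha (by linarith [ht.1]) (by linarith [ht.2])]; ring
  · refine ⟨3, 1, fun t ht => ?_⟩
    push_cast
    rw [a1 ha (by linarith [ht.1]) (by linarith [ht.2])]; ring
  · refine ⟨2, 1, fun t ht => ?_⟩
    push_cast
    rw [a2 ha (by linarith [ht.1]) (by linarith [ht.2])]; ring
  · refine ⟨1, 1, fun t ht => ?_⟩
    push_cast
    rw [a3 ha (by linarith [ht.1]) (by linarith [ht.2])]; ring

lemma good_a_inv {x y : ℝ} (h0 : 0 ≤ x) (h1 : y ≤ 1) (h2 : 0 < x ∨ y ≤ 1 / 4) (h : Std x y) :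
    Good a⁻¹ x y := by
  obtain ⟨k, n, hx, hy⟩ := h
  have n0 : 0 ≤ n := by
    rw [hx, le_div_iff₀ (two_pow_pos' k), zero_mul] at h0
    exact_mod_cast h0
  have n1 : n + 1 ≤ 2 ^ k := by
    rw [hy, div_le_one (two_pow_pos' k)] at h1
    exact_mod_cast h1
  have c3 : 1 / 2 ≤ x → Good a⁻¹ x y := fun h =>
    good_of (k' := k + 1) (n' := n + 2 ^ k) (α := 1 / 2) (l := 1 / 2) hx hy
      (fun z z1 z2 => by rw [ai3 ha (h.trans z1) (z2.trans h1)]; ring)
      fun t => by push_cast; rw [pow_succ]; field_simp; ring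
  rcases k with _ | _ | k
  · obtain rfl : n = 0 := by omega
    simp only [pow_zero, div_one, Int.cast_zero] at hx hy
    rcases h2 with h2 | h2 <;> linarith
  · obtain rfl | rfl : n = 0 ∨ n = 1 := by omega
    · simp only [Int.cast_zero] at hx hy
      rcases h2 with h2 | h2 <;> linarith
    · exact c3 (by rw [hx]; norm_num)
  have hp := two_pow_pos' k
  by_cases m1 : n + 1 ≤ 2 ^ k
  · have : (n : ℝ) + 1 ≤ 2 ^ k := by exact_mod_cast m1
    have y1 : y ≤ 1 / 4 := by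
      rw [hy, div_le_iff₀ (by positivity), pow_succ, pow_succ]; linarith
    exact good_of (k' := k + 1) (n' := n) (α := 0) (l := 2) hx hy
      (fun z z1 z2 => by rw [ai1 ha (h0.trans z1) (z2.trans y1)]; ring)
      fun t => by rw [pow_succ _ (k + 1)]; field_simp; ring
  by_cases m2 : n + 1 ≤ 2 * 2 ^ k
  · have : (n : ℝ) + 1 ≤ 2 * 2 ^ k := by exact_mod_cast m2
    have y1 : y ≤ 1 / 2 := by
      rw [hy, div_le_iff₀ (by positivity), pow_succ, pow_succ]; linarith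
    have : (2 : ℝ) ^ k ≤ n := by exact_mod_cast (show (2 : ℤ) ^ k ≤ n by omega)
    have x1 : 1 / 4 ≤ x := by
      rw [hx, le_div_iff₀ (by positivity), pow_succ, pow_succ]; linarith
    exact good_of (k' := k + 1 + 1) (n' := n + 2 ^ k) (α := 1 / 4) (l := 1) hx hy
      (fun z z1 z2 => by rw [ai2 ha (x1.trans z1) (z2.trans y1)]; ring)
      fun t => by push_cast; rw [pow_succ, pow_succ]; field_simp; ring
  · have : 2 * (2 : ℝ) ^ k ≤ n := by exact_mod_cast (show 2 * (2 : ℤ) ^ k ≤ n by omega)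
    exact c3 (by rw [hx, le_div_iff₀ (by positivity), pow_succ, pow_succ]; linarith)

include hb

lemma sh_a : sh * a * sh⁻¹ = b := by
  ext x
  rw [Equiv.Perm.mul_apply, Equiv.Perm.mul_apply, sh_apply, sh_inv_apply, ha, hb]
  split_ifs <;> linarith

lemma sh_b : sh * b * sh⁻¹ = a⁻¹ * b * a := by
  rw [mul_assoc a⁻¹, eq_inv_mul_iff_mul_eq]
  ext x
  simp only [Equiv.Perm.mul_apply, sh_apply, sh_inv_apply]
  rcases le_total x (3 / 4) with h | h
  · rw [hb (2 * x - 1), if_pos (by linarith), show (2 * x - 1 + 1) / 2 = x by ring, hb,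
      if_pos]
    rw [← show a (3 / 4) = 1 / 2 by rw [a3 ha le_rfl (by norm_num)]; norm_num]
    exact (pl_a ha).mono.monotone h
  rcases le_total x 1 with h' | h'
  · rw [a3 ha h h']
    have : 1 / 2 ≤ b (2 * x - 1) ∧ b (2 * x - 1) ≤ 1 := by
      rw [hb]; split_ifs <;> constructor <;> linarith
    rw [a3 ha (by linarith [this.1]) (by linarith [this.2])]
    ring
  · have : ∀ y, 1 ≤ y → b y = y := fun y hy => by rw [hb]; split_ifs <;> linarith
    rw [this _ (by linarith), show (2 * x - 1 + 1) / 2 = x by ring, a4 ha h', this x h']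

lemma sh_mem {f : P} (hf : f ∈ Subgroup.closure ({a, b} : Set P)) :
    sh * f * sh⁻¹ ∈ Subgroup.closure ({a, b} : Set P) := by
  have ma : a ∈ Subgroup.closure ({a, b} : Set P) := Subgroup.subset_closure (by simp)
  have mb : b ∈ Subgroup.closure ({a, b} : Set P) := Subgroup.subset_closure (by simp)
  induction hf using Subgroup.closure_induction with
  | mem x hx =>
    rcases hx with rfl | rfl
    · rw [sh_a ha hb]; exact mb
    · rw [sh_b ha hb]; exact mul_mem (mul_mem (inv_mem ma) mb) ma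
  | one => simp
  | mul x y _ _ hx hy =>
    rw [show sh * (x * y) * sh⁻¹ = (sh * x * sh⁻¹) * (sh * y * sh⁻¹) by group]
    exact mul_mem hx hy
  | inv x _ hx =>
    rw [show sh * x⁻¹ * sh⁻¹ = (sh * x * sh⁻¹)⁻¹ by group]
    exact inv_mem hx

omit ha hb in
lemma pl_sh {f : P} (hf : PL f) : PL (sh * f * sh⁻¹) := by
  refine ⟨fun x y hxy => ?_, fun x hx => ?_, fun x hx => ?_, ?_⟩
  · simp only [Equiv.Perm.mul_apply, sh_apply, sh_inv_apply]
    have := hf.mono (show 2 * x - 1 < 2 * y - 1 by linarith)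
    linarith
  · simp only [Equiv.Perm.mul_apply, sh_apply, sh_inv_apply]
    rw [hf.lo _ (by linarith)]; ring
  · simp only [Equiv.Perm.mul_apply, sh_apply, sh_inv_apply]
    rw [hf.hi _ (by linarith)]; ring
  · obtain ⟨D, hD⟩ := hf.sa
    refine ⟨D + 1, fun n => ?_⟩
    obtain ⟨k', n', hs⟩ := hD (n - 2 ^ D)
    refine ⟨k' + 1, n' + 2 ^ k', fun t ht => ?_⟩
    simp only [Equiv.Perm.mul_apply, sh_apply, sh_inv_apply]
    rw [show 2 * ((n + t) / 2 ^ (D + 1)) - 1 = (((n - 2 ^ D : ℤ) : ℝ) + t) / 2 ^ D by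
      push_cast; rw [pow_succ]; field_simp; ring, hs t ht]
    push_cast; rw [pow_succ]; field_simp; ring

lemma pl_of_mem {f : P} (hf : f ∈ Subgroup.closure ({a, b} : Set P)) : PL f := by
  induction hf using Subgroup.closure_induction with
  | mem x hx =>
    rcases hx with rfl | rfl
    · exact pl_a ha
    · rw [← sh_a ha hb]; exact pl_sh (pl_a ha)
  | one => exact PL.one
  | mul x y _ _ hx hy => exact hx.mul hy
  | inv x _ hx => exact hx.inv

lemma mem_of_ch (n : ℕ) : ∀ f : P, StrictMono f → (∀ x, x ≤ 0 → f x = x) →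
    (∀ x, 1 ≤ x → f x = x) → Ch f n 0 → f ∈ Subgroup.closure ({a, b} : Set P) := by
  have ma : a ∈ Subgroup.closure ({a, b} : Set P) := Subgroup.subset_closure (by simp)
  have pa := pl_a ha
  induction n with
  | zero =>
    intro f _ _ _ h
    generalize e : (0 : ℝ) = p at h
    cases h
    exact absurd e zero_ne_one
  | succ n ih =>
    have key : ∀ s k k' : ℕ, k + k' = s → ∀ f : P, StrictMono f → (∀ x, x ≤ 0 → f x = x) →
        (∀ x, 1 ≤ x → f x = x) → SA f k 0 k' 0 → Ch f n (1 / 2 ^ k) →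
        f ∈ Subgroup.closure ({a, b} : Set P) := by
      intro s
      induction s using Nat.strong_induction_on with
      | _ s ihs =>
      intro k k' hs f hf lo hi hsa hch
      have f1 := hi 1 le_rfl
      have hr : f (1 / 2 ^ k) = 1 / 2 ^ k' := by simpa using hsa.right
      have small : ∀ j : ℕ, (1 : ℝ) / 2 ^ (j + 2) ≤ 1 / 4 := fun j => by
        rw [pow_add]
        exact one_div_le_one_div_of_le (by norm_num)
          (by have := one_le_pow₀ (n := j) (show (1 : ℝ) ≤ 2 by norm_num); linarith)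
      have sa : ∀ j : ℕ, SA a (j + 1) 0 (j + 2) 0 := fun j t ht => by
        have : (1 : ℝ) ≤ 2 ^ j := one_le_pow₀ (by norm_num)
        simp only [Int.cast_zero, zero_add]
        rw [a1 ha (div_nonneg ht.1 (by positivity))
          (by rw [div_le_iff₀ (by positivity), pow_succ]; linarith [ht.2]), pow_succ _ (j + 1)]
        field_simp
      have triv : k = 0 → k' = 0 → f ∈ Subgroup.closure ({a, b} : Set P) := by
        rintro rfl rfl
        have : f = 1 := Equiv.ext fun x => by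
          rcases le_total x 0 with h | h
          · exact lo x h
          rcases le_total 1 x with h' | h'
          · exact hi x h'
          · simpa using hsa x ⟨h, h'⟩
        rw [this]; exact one_mem _
      have inj : ∀ j : ℕ, (1 : ℝ) / 2 ^ j = 1 → j = 0 := fun j hj => by
        rw [div_eq_one_iff_eq (by positivity)] at hj
        exact (pow_right_injective₀ (a := (2 : ℝ)) (by norm_num) (by norm_num)
          (show (2 : ℝ) ^ 0 = 2 ^ j by simpa using hj)).symm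
      by_cases k0 : k = 0
      · exact triv k0 (inj k' (by rw [← hr, k0]; simpa using f1))
      by_cases k0' : k' = 0
      · exact triv (inj k (f.injective (by rw [hr, k0', f1]; simp))) k0'
      by_cases k2 : 2 ≤ k
      · obtain ⟨j, rfl⟩ : ∃ j, k = j + 2 := ⟨k - 2, by omega⟩
        have := hch.transfer (φ := a⁻¹) (ψ := 1) hf f1 (inv_fix (pa.hi 1 le_rfl))
          (fun x y h1 h2 h3 => good_a_inv ha (le_trans (by positivity) h1) h2
            (Or.inl (lt_of_lt_of_le (by positivity) h1)) h3) fun x y _ _ h => h.good_one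
        rw [one_mul, inv_inv, ai1 ha (by positivity) (small j),
          show (2 : ℝ) * (1 / 2 ^ (j + 2)) = 1 / 2 ^ (j + 1) by
            rw [pow_succ _ (j + 1)]; field_simp] at this
        have := ihs (j + 1 + k') (by omega) (j + 1) k' rfl (f * a) (hf.comp pa.mono)
          (fun x hx => by rw [Equiv.Perm.mul_apply, pa.lo x hx, lo x hx])
          (fun x hx => by rw [Equiv.Perm.mul_apply, pa.hi x hx, hi x hx]) (hsa.comp (sa j)) this
        simpa using mul_mem this (inv_mem ma)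
      by_cases k2' : 2 ≤ k'
      · obtain ⟨j, rfl⟩ : ∃ j, k' = j + 2 := ⟨k' - 2, by omega⟩
        have := hch.transfer (φ := 1) (ψ := a⁻¹) hf f1 rfl (fun x y _ _ h => h.good_one)
          fun x y h1 h2 h3 => by
            rw [hr] at h1
            exact good_a_inv ha (le_trans (by positivity) h1) h2
              (Or.inl (lt_of_lt_of_le (by positivity) h1)) h3
        rw [inv_one, mul_one, Equiv.Perm.one_apply] at this
        have := ihs (k + (j + 1)) (by omega) k (j + 1) rfl (a⁻¹ * f) (pa.inv.mono.comp hf)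
          (fun x hx => by rw [Equiv.Perm.mul_apply, lo x hx, pa.inv.lo x hx])
          (fun x hx => by rw [Equiv.Perm.mul_apply, hi x hx, pa.inv.hi x hx])
          ((sa j).inv.comp hsa) this
        simpa using mul_mem ma this
      obtain rfl : k = 1 := by omega
      obtain rfl : k' = 1 := by omega
      have := hch.transfer (φ := sh⁻¹) (ψ := sh⁻¹) hf f1 (by rw [sh_inv_apply]; norm_num)
        (fun x y h1 h2 h3 => good_sh_inv (by simpa using h1) h2 h3)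
        fun x y h1 h2 h3 => good_sh_inv (by rw [hr] at h1; simpa using h1) h2 h3
      rw [inv_inv, sh_inv_apply, show (2 : ℝ) * (1 / 2 ^ 1) - 1 = 0 by norm_num] at this
      have := ih (sh⁻¹ * f * sh) (fun x y hxy => by
          simp only [Equiv.Perm.mul_apply, sh_apply, sh_inv_apply]
          have := hf (show (x + 1) / 2 < (y + 1) / 2 by linarith)
          linarith)
        (fun x hx => by
          simp only [Equiv.Perm.mul_apply, sh_apply, sh_inv_apply]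
          rcases le_total ((x + 1) / 2) 0 with h | h
          · rw [lo _ h]; ring
          · have := hsa (x + 1) ⟨by linarith, by linarith⟩
            simp only [Int.cast_zero, zero_add, pow_one] at this
            rw [this]; ring)
        (fun x hx => by
          simp only [Equiv.Perm.mul_apply, sh_apply, sh_inv_apply]
          rw [hi _ (by linarith)]; ring) this
      have := sh_mem ha hb this
      rwa [show sh * (sh⁻¹ * f * sh) * sh⁻¹ = f by group] at this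
    intro f hf lo hi h
    generalize e : (0 : ℝ) = p at h
    cases h with
    | cons h1 h2 =>
    obtain ⟨k, m, k', m', e1, rfl, hs⟩ := h1
    have z : ∀ (m : ℤ) (k : ℕ), (0 : ℝ) = m / 2 ^ k → m = 0 := fun m k h => by
      rw [eq_comm, div_eq_zero_iff] at h
      exact_mod_cast h.resolve_right (two_pow_pos' k).ne'
    obtain rfl := z m k (e.trans e1)
    obtain rfl := z m' k' (by rw [← hs.left]; simp [lo 0 le_rfl])
    exact key _ k k' rfl f hf lo hi hs (by simpa using h2)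

lemma mem_of_pl {f : P} (hf : PL f) : f ∈ Subgroup.closure ({a, b} : Set P) := by
  obtain ⟨D, hD⟩ := hf.sa
  have : ∀ j : ℕ, Ch f j (((2 ^ D - j : ℤ) : ℝ) / 2 ^ D) := fun j => by
    induction j with
    | zero => simpa using Ch.nil
    | succ j ih =>
      obtain ⟨k', n', hs⟩ := hD (2 ^ D - (j + 1 : ℕ))
      exact Ch.cons ⟨D, _, k', n', rfl, by push_cast; ring, hs⟩ ih
  exact mem_of_ch ha hb (2 ^ D) f hf.mono hf.lo hf.hi (by simpa using this (2 ^ D))

end gens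

/-- cutting a map at a dyadic fixed point -/
lemma PL.exists_cut {h : P} (hh : PL h) {d : ℝ} (hd : Dy d) (e : h d = d) :
    ∃ h' : P, PL h' ∧ (∀ x, x ≤ d → h' x = x) ∧ ∀ x, d ≤ x → h' x = h x := by
  classical
  set φ : ℝ → ℝ := fun x => if x ≤ d then x else h x
  have h1 : ∀ x, x ≤ d → φ x = x := fun x hx => if_pos hx
  have h2 : ∀ x, d ≤ x → φ x = h x := fun x hx => by
    rcases hx.eq_or_lt with rfl | hx
    · rw [h1 _ le_rfl, e]
    · exact if_neg (not_le.2 hx)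
  have hm : StrictMono φ := fun x y hxy => by
    rcases le_total y d with a | a
    · rwa [h1 y a, h1 x (hxy.le.trans a)]
    rcases le_total d x with b | b
    · rw [h2 x b, h2 y a]; exact hh.mono hxy
    · rw [h1 x b, h2 y a]
      rcases b.eq_or_lt with rfl | b
      · exact e.ge.trans_lt (hh.mono hxy)
      · exact b.trans_le (e ▸ hh.mono.monotone a)
  have hs : Function.Surjective φ := fun y => by
    rcases le_total y d with a | a
    · exact ⟨y, h1 y a⟩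
    · exact ⟨h⁻¹ y, by rw [h2 _ (by rwa [← hh.mono.le_iff_le, app_inv, e]), app_inv]⟩
  refine ⟨Equiv.ofBijective φ ⟨hm.injective, hs⟩, ⟨hm, fun x hx => ?_, fun x hx => ?_, ?_⟩, h1, h2⟩
  · rcases le_total x d with a | a
    · exact h1 x a
    · exact (h2 x a).trans (hh.lo x hx)
  · rcases le_total x d with a | a
    · exact h1 x a
    · exact (h2 x a).trans (hh.hi x hx)
  obtain ⟨D, hD⟩ := hh.sa
  obtain ⟨K, hK⟩ := hd.deep
  obtain ⟨m, rfl⟩ := hK (D + K) (by omega)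
  refine ⟨D + K, fun n => ?_⟩
  rcases lt_or_ge n m with a | a
  · refine ⟨_, _, SA.of_id fun x _ x2 => h1 x (x2.trans ?_)⟩
    have : (n : ℝ) + 1 ≤ m := by exact_mod_cast a
    gcongr
  · obtain ⟨k', n', hs⟩ := hD.mono (show D ≤ D + K by omega) n
    refine ⟨k', n', fun t ht => (h2 _ ?_).trans (hs t ht)⟩
    have : (m : ℝ) ≤ n := by exact_mod_cast a
    gcongr
    linarith [ht.1]

/-- an interval on which all elements are standard-affine is rigid -/
lemma rigid_of_sa {H : Subgroup P} (hpl : ∀ g ∈ H, PL g) {k : ℕ} {n : ℤ}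
    (h : ∀ g ∈ H, ∃ k' n', SA g k n k' n') : Rigid H k n := by
  intro g hg s hs e
  have hp := two_pow_pos' k
  set y : ℝ := (n + s) / 2 ^ k with hy
  have y1 : (n : ℝ) / 2 ^ k ≤ y := by rw [hy]; gcongr; linarith [hs.1]
  have y2 : y ≤ (n + 1) / 2 ^ k := by rw [hy]; gcongr; exact hs.2
  obtain ⟨σ, hσ, hsl⟩ : ∃ σ, Sg σ ∧ ∀ f : P, ∀ k' n', SA f k n k' n' → sl σ f y = k - k' := by
    rcases y2.eq_or_lt with a | a
    · exact ⟨-1, sg_neg, fun f k' n' hf => (hf.sl_left (a ▸ cell_lt k n) y2).eq sg_neg⟩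
    · exact ⟨1, sg_one, fun f k' n' hf => (hf.sl_right y1 a).eq sg_one⟩
  have h1 : ∀ m : ℤ, m * sl σ g y ≤ k := fun m => by
    obtain ⟨k', n', hf⟩ := h _ (zpow_mem hg m)
    rw [← sl_zpow (hpl g hg) hσ e, hsl _ _ _ hf]
    omega
  have h2 : sl σ g y = 0 := by
    by_contra hc
    have a := h1 ((k + 1) * sl σ g y)
    have b : 1 ≤ sl σ g y * sl σ g y := mul_self_pos.2 hc
    nlinarith
  obtain ⟨k', n', hf⟩ := h g hg
  rw [hsl _ _ _ hf] at h2
  intro t ht
  rw [hf.diff y1 y2 (by gcongr; linarith [ht.1]) (by gcongr; exact ht.2), h2, e]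
  ring

lemma finite_pld {l : List P} (hl : ∀ g ∈ l, PL g) :
    ∃ D : ℕ, ∀ g ∈ l, PLD g D ∧ PLD g⁻¹ D := by
  induction l with
  | nil => exact ⟨0, by simp⟩
  | cons g l ih =>
    obtain ⟨D, hD⟩ := ih fun f hf => hl f (List.mem_cons_of_mem _ hf)
    obtain ⟨D1, h1⟩ := (hl g List.mem_cons_self).sa
    obtain ⟨D2, h2⟩ := (hl g List.mem_cons_self).inv.sa
    refine ⟨D + D1 + D2, fun f hf => ?_⟩
    rcases List.mem_cons.1 hf with rfl | hf
    · exact ⟨h1.mono (by omega), h2.mono (by omega)⟩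
    · exact ⟨(hD f hf).1.mono (by omega), (hD f hf).2.mono (by omega)⟩

lemma exists_fin {l : List P} {H : Subgroup P} (hH : H = Subgroup.closure {g | g ∈ l})
    (hpl : ∀ g ∈ H, PL g) : ∃ T : Finset (ℕ × ℤ), ∀ (k : ℕ) (n : ℤ),
      Rigid H k n ∨ ∃ t ∈ T, ∃ h ∈ H, SA h t.1 t.2 k n := by
  obtain ⟨D, hD⟩ := finite_pld (l := l) fun g hg =>
    hpl g (hH ▸ Subgroup.subset_closure hg)
  refine ⟨Finset.range D ×ˢ Finset.Ico (0 : ℤ) (2 ^ D), fun k n => ?_⟩
  by_cases hn : n < 0 ∨ 2 ^ k ≤ n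
  · exact Or.inl (rigid_of_sa hpl fun g hg => ⟨k, n, (hpl g hg).sa_out k hn⟩)
  refine or_iff_not_imp_right.2 fun hno => rigid_of_sa hpl fun g hg => ?_
  have deep : ∀ g ∈ H, ∀ k' n', SA g k n k' n' → D ≤ k' := fun g hg k' n' hs => by
    by_contra hc
    push Not at hc
    by_cases hn' : n' < 0 ∨ 2 ^ k' ≤ n'
    · have a := (hpl _ (inv_mem hg)).sa_out k' hn'
      obtain ⟨rfl, rfl⟩ := cell_unique (a.left.symm.trans hs.inv.left)
        (a.right.symm.trans hs.inv.right)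
      exact hn hn'
    · push Not at hn'
      refine hno ⟨(k', n'), ?_, g⁻¹, inv_mem hg, hs.inv⟩
      simp only [Finset.mem_product, Finset.mem_range, Finset.mem_Ico]
      exact ⟨hc, hn'.1, hn'.2.trans_le (pow_le_pow_right₀ (by norm_num) hc.le)⟩
  subst hH
  induction hg using Subgroup.closure_induction_left with
  | one => exact ⟨k, n, SA.one k n⟩
  | mul_left x hx y hy ih =>
    obtain ⟨k', n', hs⟩ := ih
    obtain ⟨k'', n'', hs'⟩ := (hD x hx).1.mono (deep y hy k' n' hs) n'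
    exact ⟨_, _, hs'.comp hs⟩
  | inv_mul_cancel x hx y hy ih =>
    obtain ⟨k', n', hs⟩ := ih
    obtain ⟨k'', n'', hs'⟩ := (hD x hx).2.mono (deep y hy k' n' hs) n'
    exact ⟨_, _, hs'.comp hs⟩

theorem exists_ctx {a b : P}
    (ha : ∀ x : ℝ, a x = if x < 0 then x else if x ≤ 1/2 then x/2 else if x ≤ 3/4 then x - 1/4
        else if x ≤ 1 then 2*x - 1 else x)
    (hb : ∀ x : ℝ, b x = if x ≤ 1/2 then x else if x ≤ 3/4 then x/2 + 1/4 else if x ≤ 7/8
        then x - 1/8 else if x ≤ 1 then 2*x - 1 else x)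
    {l : List P} {H : Subgroup P} (hH : H = Subgroup.closure {g | g ∈ l})
    (hle : H ≤ Subgroup.closure ({a, b} : Set P))
    (hcl : ∀ f ∈ Subgroup.closure ({a, b} : Set P),
        (∃ n : ℕ, ∃ t : ℕ → ℝ, t 0 = 0 ∧ t n = 1 ∧ (∀ i < n, t i < t (i+1)) ∧
          ∀ i < n, ∃ h ∈ H, ∀ x ∈ Set.Icc (t i) (t (i+1)), f x = h x) → f ∈ H) :
    ∃ C : Ctx, C.H = H := by
  have hpl : ∀ g ∈ H, PL g := fun g hg => pl_of_mem ha hb (hle hg)
  obtain ⟨T, hT⟩ := exists_fin hH hpl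
  refine ⟨⟨H, hpl, fun h hh d hd e => ?_, T, hT⟩, rfl⟩
  rcases le_or_gt d 0 with d0 | d0
  · exact ⟨h, hh, fun x hx => (hpl h hh).lo x (hx.trans d0), fun _ _ => rfl⟩
  rcases le_or_gt 1 d with d1 | d1
  · exact ⟨1, one_mem _, fun _ _ => rfl, fun x hx => ((hpl h hh).hi x (d1.trans hx)).symm⟩
  obtain ⟨h', h1, h2, h3⟩ := (hpl h hh).exists_cut hd e
  refine ⟨h', hcl h' (mem_of_pl ha hb h1) ⟨2, fun i => if i = 0 then 0 else if i = 1 then d else 1,
    by simp, by simp, fun i hi => ?_, fun i hi => ?_⟩, h2, h3⟩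
  · obtain rfl | rfl : i = 0 ∨ i = 1 := by omega
    · simpa using d0
    · simpa using d1
  · obtain rfl | rfl : i = 0 ∨ i = 1 := by omega
    · exact ⟨1, one_mem _, fun x hx => h2 x (by simpa using hx.2)⟩
    · exact ⟨h, hh, fun x hx => h3 x (by simpa using hx.1)⟩

end Pool.Agent.MP_337e3e_al

end MrgPart0

-- ======== part 1: formerly Pool.Agent.MP_337e3e_al.Conj
section MrgPart1

/-!
Certificates of non-conjugacy: soundness and completeness.
-/

namespace Pool.Agent.MP_337e3e_al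

open Set

/-- no dyadic fixed point between two dyadic points -/
def NDF' (f : P) (p q : ℝ) : Prop := Dy p ∧ Dy q ∧ NDF f p q

namespace Ctx

variable {C : Ctx}

/-- some element maps `[p,q]` affinely onto `[p',q']` -/
def Eqv (C : Ctx) (p q p' q' : ℝ) : Prop := ∃ h ∈ C.H, AffOn h p q ∧ h p = p' ∧ h q = q'

/-- certificate for non-equivalence of intervals -/
def NE (C : Ctx) (p q p' q' : ℝ) : Prop :=
  ∃ t ∈ C.T, ∃ t' ∈ C.T,
    ¬ C.Eqv (t.2 / 2 ^ t.1) ((t.2 + 1) / 2 ^ t.1) (t'.2 / 2 ^ t'.1) ((t'.2 + 1) / 2 ^ t'.1) ∧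
    C.Eqv (t.2 / 2 ^ t.1) ((t.2 + 1) / 2 ^ t.1) p q ∧
    C.Eqv (t'.2 / 2 ^ t'.1) ((t'.2 + 1) / 2 ^ t'.1) p' q'

lemma Eqv.symm {p q p' q' : ℝ} (h : C.Eqv p q p' q') : C.Eqv p' q' p q := by
  obtain ⟨h, hh, h1, rfl, rfl⟩ := h
  exact ⟨h⁻¹, inv_mem hh, h1.inv (mono hh), inv_app _ _, inv_app _ _⟩

lemma Eqv.trans {p q p' q' p'' q'' : ℝ} (h : C.Eqv p q p' q') (h' : C.Eqv p' q' p'' q'') :
    C.Eqv p q p'' q'' := by
  obtain ⟨h, hh, h1, rfl, rfl⟩ := h
  obtain ⟨g, hg, g1, rfl, rfl⟩ := h'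
  exact ⟨g * h, mul_mem hg hh, h1.comp (mono hh) g1, rfl, rfl⟩

lemma NE.sound {p q p' q' : ℝ} (h : C.NE p q p' q') : ¬ C.Eqv p q p' q' := by
  obtain ⟨t, -, t', -, h1, h2, h3⟩ := h
  exact fun e => h1 ((h2.trans e).trans h3.symm)

lemma eqv_of_sa {h : P} (hh : h ∈ C.H) {k k' : ℕ} {n n' : ℤ} (hs : SA h k n k' n') :
    C.Eqv (n / 2 ^ k) ((n + 1) / 2 ^ k) (n' / 2 ^ k') ((n' + 1) / 2 ^ k') :=
  ⟨h, hh, hs.affOn, hs.left, hs.right⟩

lemma NE.complete {k k' : ℕ} {n n' : ℤ} (h1 : ¬ Rigid C.H k n) (h2 : ¬ Rigid C.H k' n')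
    (h : ¬ C.Eqv (n / 2 ^ k) ((n + 1) / 2 ^ k) (n' / 2 ^ k') ((n' + 1) / 2 ^ k')) :
    C.NE (n / 2 ^ k) ((n + 1) / 2 ^ k) (n' / 2 ^ k') ((n' + 1) / 2 ^ k') := by
  obtain ⟨t, ht, g, hg, hs⟩ := (C.fin k n).resolve_left h1
  obtain ⟨t', ht', g', hg', hs'⟩ := (C.fin k' n').resolve_left h2
  exact ⟨t, ht, t', ht', fun e => h (((eqv_of_sa hg hs).symm.trans e).trans (eqv_of_sa hg' hs')),
    eqv_of_sa hg hs, eqv_of_sa hg' hs'⟩

/-- obstruction to continuing a conjugator over the next fixed point -/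
def ObsB (C : Ctx) (F G : P) (z r : ℝ) : Prop :=
  ∃ r₀ : ℚ, ∃ s : ℚ, ∃ s' : ℚ, ∃ N : ℕ, z ≤ r₀ ∧ r₀ < F r₀ ∧ F r₀ ≤ r ∧ F s = s ∧ G s' = s' ∧
    (F ^ N) r₀ < s ∧ (G ^ N) r₀ < s' ∧ AffOn F ((F ^ N) r₀) s ∧ AffOn G ((G ^ N) r₀) s' ∧
    ((∃ x : ℚ, (r₀ : ℝ) ≤ x ∧ x ≤ F r₀ ∧
        (s' - (G ^ N) x) * (s - (F ^ N) r₀) ≠ (s' - (G ^ N) r₀) * (s - (F ^ N) x)) ∨
      ∃ q : ℚ, ∃ q' : ℚ, (s : ℝ) ≤ q ∧ ((s : ℝ) = q ∨ NDF' F ((F ^ N) r₀) q) ∧
        AffOn F ((F ^ N) r₀) q ∧ AffOn G ((G ^ N) r₀) q' ∧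
        (q' - (G ^ N) r₀) * (s - (F ^ N) r₀) = (s' - (G ^ N) r₀) * (q - (F ^ N) r₀) ∧
        C.NE ((F ^ N) r₀) q ((G ^ N) r₀) q')

lemma ObsB.weaken {F G : P} {z r r' : ℝ} (h : C.ObsB F G z r) (hr : r ≤ r') : C.ObsB F G z r' := by
  obtain ⟨r₀, s, s', N, h1, h2, h3, h4⟩ := h
  exact ⟨r₀, s, s', N, h1, h2, h3.trans hr, h4⟩

lemma ObsB.sound {F G k : P} {z r : ℝ} (h : C.ObsB F G z r) (hF : F ∈ C.H) (hG : G ∈ C.H)
    (hk : k ∈ C.H) (hc : k * F = G * k) (hid : ∀ x, z ≤ x → x ≤ r → k x = x) : False := by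
  obtain ⟨r₀, s, s', N, h1, h2, h3, h4, h5, h6, h7, h8, h9, h10⟩ := h
  have hFN := pow_mem hF N
  have kx : ∀ x : ℝ, r₀ ≤ x → x ≤ F r₀ → k ((F ^ N) x) = (G ^ N) x := fun x x1 x2 => by
    rw [conj_pow_apply hc, hid x (h1.trans x1) (x2.trans h3)]
  have kp := kx r₀ le_rfl h2.le
  have comm : (F ^ N) (F r₀) = F ((F ^ N) r₀) := by
    rw [← Equiv.Perm.mul_apply, ← pow_succ, pow_succ', Equiv.Perm.mul_apply]
  have hp : (F ^ N) r₀ < F ((F ^ N) r₀) := comm ▸ mono hFN h2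
  obtain ⟨μ, l, m0, m1, hμ, hμ', hl⟩ := linearize (C.pl F hF) (C.pl G hG) (C.pl k hk) hc h6 hp h4
    h8 (kp ▸ h7) h5 (kp ▸ h9)
  set p := (F ^ N) r₀
  set p' := (G ^ N) r₀
  have e1 := hl p le_rfl h6.le
  rw [kp] at e1 hμ'
  rcases h10 with ⟨x, x1, x2, x3⟩ | ⟨q, q', q1, q2, q3, q4, q5, q6⟩
  · have e2 := hl ((F ^ N) x) ((le_iff hFN).2 x1) (by
      refine ((le_iff hFN).2 x2).trans ?_
      rw [comm, ← h4]
      exact (mono hF h6).le)
    rw [kx x x1 x2] at e2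
    exact x3 (by rw [e1, e2]; ring)
  have l0 : 0 < l := by
    by_contra hc
    push Not at hc
    nlinarith
  have e2 : q' - p' = l * (q - p) := by
    have : (q' - p' - l * (q - p)) * (s - p) = 0 := by rw [e1] at q5 ⊢; linarith
    rcases mul_eq_zero.1 this with h | h <;> linarith
  have key : ∀ y, p ≤ y → y ≤ q → k y = s' + l * (y - s) := by
    rcases q1.eq_or_lt with e | hlt
    · exact e ▸ hl
    have hd : ¬ Dy s := fun hd => (q2.resolve_left hlt.ne).2.2 s hd h6 q1 h4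
    have a1 := q3.extend h6 q1 hμ
    have a2 := q4.extend h7 (by nlinarith) hμ'
    obtain ⟨ε, hε, b1⟩ := (C.pl k hk).sl_spec sg_one s
    obtain ⟨ε', hε', b2⟩ := (C.pl k hk).sl_spec sg_neg s
    have ks : k s = s' := by simpa using hl s h6.le le_rfl
    rw [(C.pl k hk).sl_eq hd] at b2
    have hm : 0 < min ε' (s - p) := lt_min hε' (sub_pos.2 h6)
    have b3 := b2 _ ⟨hm.le, min_le_left _ _⟩
    rw [hl _ (by linarith [min_le_right ε' (s - p)]) (by linarith), ks] at b3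
    have b4 : 2 ^ sl 1 k s = l := mul_right_cancel₀ hm.ne' (by linarith)
    rw [b4, ks] at b1
    obtain ⟨M, hM⟩ := spread (F := F) (G := G) (c := k) (s := s) (s' := s') m0 m1 l0.le hε
      (sub_pos.2 hlt) (fun t ht => by
        rw [a1 _ (by linarith [ht.1]) (by linarith [ht.2])]; ring) (fun t ht => by
        rw [a2 _ (by linarith [ht.1]) (by linarith [ht.2])]; ring) (by simpa using b1)
    rw [mul_assoc, (SemiconjBy.pow_right hc M).eq, inv_mul_cancel_left] at hM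
    intro y y1 y2
    rcases le_total y s with y3 | y3
    · exact hl y y1 y3
    · simpa using hM (y - s) ⟨by linarith, by linarith⟩
  refine q6.sound ⟨k, hk, affOn_of (α := s' - l * s) (l := l) fun y y1 y2 => ?_, kp, ?_⟩
  · rw [key y y1 y2]; ring
  · rw [key q (h6.le.trans q1) le_rfl]; linarith

lemma ObsB.complete {F G : P} {z r : ℝ} (hF : F ∈ C.H) (hG : G ∈ C.H) (hz : F z = z) (hzr : z < r)
    (hr : Ra r) (hFr : r < F r) (e : EqI F G z r) :
    C.ObsB F G z r ∨ ∃ κ ∈ C.H, (∀ x, z ≤ x → x ≤ r → κ x = x) ∧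
      ∃ s, r < s ∧ F s = s ∧ (∀ y, r ≤ y → y < s → y < F y) ∧
        ∀ x, z ≤ x → x ≤ s → κ (F x) = G (κ x) := by
  have pF := C.pl F hF
  have pG := C.pl G hG
  obtain ⟨r₀, hr₀⟩ := pF.inv.ra hr
  have f0 : F r₀ = r := by rw [← hr₀, app_inv]
  have r1 : (r₀ : ℝ) < r := by rw [← hr₀, inv_lt hF]; exact hFr
  have r2 : z ≤ r₀ := by rw [← hr₀, le_inv hF, hz]; exact hzr.le
  have g0 : G r₀ = r := by rw [← e _ r2 r1.le, f0]
  obtain ⟨s, s1, s2, s3⟩ := pF.next_fix (x := r₀) (by rwa [f0])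
  obtain ⟨s', s1', s2', s3'⟩ := pG.next_fix (x := r₀) (by rwa [g0])
  have hsl : ∀ {f : P} {s : ℝ}, PL f → (r₀ : ℝ) < s → f s = s →
      (∀ y, (r₀ : ℝ) ≤ y → y < s → y < f y) → Ra s := fun {f s} pf h1 h2 h3 => by
    by_contra hs
    obtain ⟨v, hv, hid⟩ := pf.id_left h2 (pf.sl_irr hs h2 sg_neg)
    exact (h3 _ (le_max_right _ _) (max_lt hv h1)).ne' (hid _ (le_max_left _ _) (max_lt hv h1).le)
  obtain ⟨s, rfl⟩ := hsl pF s1 s2 s3
  obtain ⟨s', rfl⟩ := hsl pG s1' s2' s3'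
  have rs : r < s := by rw [← f0, ← s2]; exact mono hF s1
  obtain ⟨y, hy, ya⟩ := (pF.sl_spec sg_neg s).affOn_left
  obtain ⟨y', hy', ya'⟩ := (pG.sl_spec sg_neg s').affOn_left
  obtain ⟨n1, hn1⟩ := orbit pF.mono s3 hy
  obtain ⟨n2, hn2⟩ := orbit pG.mono s3' hy'
  have mF := pow_mono_of_le pF (x := r₀) (by rw [f0]; exact r1.le)
  have mG := pow_mono_of_le pG (x := r₀) (by rw [g0]; exact r1.le)
  have mr := pow_mono_of_le pF hFr.le
  set N := max n1 n2
  set p := (F ^ N) r₀ with hp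
  set p' := (G ^ N) r₀ with hp'
  have p1 : p < s := by rw [← pow_fix s2 N]; exact mono (pow_mem hF N) s1
  have p1' : p' < s' := by rw [← pow_fix s2' N]; exact mono (pow_mem hG N) s1'
  have p2 : (r₀ : ℝ) ≤ p := by simpa using mF (Nat.zero_le N)
  have p2' : (r₀ : ℝ) ≤ p' := by simpa using mG (Nat.zero_le N)
  have pa : AffOn F p s := ya.mono (hn1.le.trans (mF (le_max_left _ _))) le_rfl
  have pa' : AffOn G p' s' := ya'.mono (hn2.le.trans (mG (le_max_right _ _))) le_rfl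
  by_cases hii : ∃ x : ℚ, (r₀ : ℝ) ≤ x ∧ x ≤ F r₀ ∧
      (s' - (G ^ N) x) * (s - p) ≠ (s' - p') * (s - (F ^ N) x)
  · exact Or.inl ⟨r₀, s, s', N, r2, by rwa [f0], f0.le, s2, s2', p1, p1', pa, pa', Or.inl hii⟩
  push Not at hii
  rw [f0] at hii
  have hlin := eq_of_rat (φ := fun x => (s' - (G ^ N) x) * (s - p))
    (ψ := fun x => (s' - p') * (s - (F ^ N) x))
    ((continuous_const.sub (pG.pow N).continuous).mul continuous_const)
    (continuous_const.mul (continuous_const.sub (pF.pow N).continuous)) r1 hii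
  obtain ⟨μ, m0, m1, hμ⟩ := aff_contr pF.mono p1 (s3 p p2 p1) s2 pa
  obtain ⟨μ', m0', m1', hμ'⟩ := aff_contr pG.mono p1' (s3' p' p2' p1') s2' pa'
  have cF : (F ^ N) r = F p := by
    rw [← f0, ← Equiv.Perm.mul_apply, ← pow_succ, pow_succ', Equiv.Perm.mul_apply]
  have cG : (G ^ N) r = G p' := by
    rw [← g0, ← Equiv.Perm.mul_apply, ← pow_succ, pow_succ', Equiv.Perm.mul_apply]
  have sp : 0 < s - p := sub_pos.2 p1
  have sp' : 0 < s' - p' := sub_pos.2 p1'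
  obtain rfl : μ = μ' := by
    have := hlin r r1.le le_rfl
    simp only [cF, cG, hμ p le_rfl p1.le, hμ' p' le_rfl p1'.le] at this
    have h2 : (μ - μ') * ((s - p) * (s' - p')) = 0 := by linarith
    rcases mul_eq_zero.1 h2 with h | h
    · linarith
    · exact absurd h (mul_pos sp sp').ne'
  set l := (s' - p') / (s - p) with hl
  have l0 : 0 < l := div_pos sp' sp
  have l1 : l * (s - p) = s' - p' := div_mul_cancel₀ _ sp.ne'
  have comm : ∀ w, p ≤ w → w ≤ s → G (s' + l * (w - s)) = s' + l * (F w - s) := fun w w1 w2 => by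
    rw [hμ w w1 w2, hμ' _ (by nlinarith) (by nlinarith)]
    ring
  set κ : ℕ → P := fun M => G ^ M * (F ^ M)⁻¹ with hκ
  have κm : ∀ M, κ M ∈ C.H := fun M => mul_mem (pow_mem hG M) (inv_mem (pow_mem hF M))
  have κs : ∀ M x, κ (M + 1) x = G (κ M (F⁻¹ x)) := fun M x => by
    simp only [hκ]
    rw [pow_succ' G, pow_succ' F, mul_inv_rev]
    rfl
  have stab : ∀ M y, z ≤ y → y ≤ (F ^ (M + 1)) r → κ (M + 1) y = κ M y := fun M y y1 y2 => by
    have hFM := pow_mem hF (M + 1)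
    have a := e ((F ^ (M + 1))⁻¹ y) (by rw [le_inv hFM, pow_fix hz]; exact y1)
      ((inv_le hFM).2 y2)
    simp only [hκ]
    rw [pow_succ G, Equiv.Perm.mul_apply, Equiv.Perm.mul_apply, ← a, pow_succ F, mul_inv_rev,
      Equiv.Perm.mul_apply, app_inv, Equiv.Perm.mul_apply]
  have conj : ∀ M y, z ≤ y → y ≤ (F ^ M) r → κ M (F y) = G (κ M y) := fun M y y1 y2 => by
    rw [← stab M (F y) (by rw [← hz]; exact (le_iff hF).2 y1)
      (by rw [pow_succ', Equiv.Perm.mul_apply]; exact (le_iff hF).2 y2), κs, inv_app]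
  have κid : ∀ M x, z ≤ x → x ≤ r → κ M x = x := fun M x x1 x2 => by
    induction M with
    | zero => simp [hκ]
    | succ M ih => rw [stab M x x1 (x2.trans (by simpa using mr (Nat.zero_le (M + 1)))), ih]
  have κl : ∀ M, N ≤ M → ∀ y, p ≤ y → y ≤ (F ^ M) r → κ M y = s' + l * (y - s) := by
    intro M hM
    induction M, hM using Nat.le_induction with
    | base =>
      intro y y1 y2
      have hFN := pow_mem hF N
      have := hlin ((F ^ N)⁻¹ y) ((le_inv hFN).2 y1) ((inv_le hFN).2 y2)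
      simp only [app_inv] at this
      change (G ^ N) ((F ^ N)⁻¹ y) = _
      refine mul_right_cancel₀ sp.ne' ?_
      linear_combination -this - (y - s) * l1
    | succ M hM ih =>
      intro y y1 y2
      rcases le_total y ((F ^ M) r) with y3 | y3
      · rw [stab M y (r2.trans (p2.trans y1)) y2, ih y y1 y3]
      · have a1 : p ≤ F⁻¹ y := by
          rw [le_inv hF, ← cF]; exact (mr hM).trans y3
        have a2 : F⁻¹ y ≤ (F ^ M) r := by
          rw [inv_le hF]; rwa [pow_succ', Equiv.Perm.mul_apply] at y2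
        have a3 : (F ^ M) r ≤ s := by
          rw [← pow_fix s2 M]; exact (le_iff (pow_mem hF M)).2 rs.le
        rw [κs, ih _ a1 a2, comm _ a1 (a2.trans a3), app_inv]
  have std : ∃ D k₀ : ℕ, ∃ c : ℤ, ∀ y : ℝ, s' + l * (y - s) = (c + 2 ^ D * y) / 2 ^ k₀ := by
    obtain ⟨D₀, hD₀⟩ := (C.pl _ (κm N)).sa
    have pp : p < F p := s3 p p2 p1
    obtain ⟨K, hK⟩ := exists_pow_lt (half_pos (sub_pos.2 pp))
    obtain ⟨D, D1, D2⟩ : ∃ D, D₀ ≤ D ∧ K ≤ D := ⟨max D₀ K, le_max_left _ _, le_max_right _ _⟩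
    have a0 := hK D D2
    obtain ⟨k₀, m₀, hs⟩ := hD₀.mono D1 ⌊2 ^ D * ((p + F p) / 2)⌋
    obtain ⟨c1, c2⟩ := floor_cell D ((p + F p) / 2)
    have a1 := hs.left
    have a2 := hs.right
    set n₀ := ⌊2 ^ D * ((p + F p) / 2)⌋
    have c3 : ((n₀ : ℝ) + 1) / 2 ^ D = n₀ / 2 ^ D + 1 / 2 ^ D := add_div _ _ _
    rw [κl N le_rfl _ (by linarith) (by rw [cF]; linarith)] at a1
    rw [κl N le_rfl _ (by linarith) (by rw [cF]; linarith)] at a2
    refine ⟨D, k₀, m₀ - n₀, fun y => ?_⟩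
    have hD := two_pow_pos' D
    have hk := two_pow_pos' k₀
    have a3 : l = 2 ^ D / 2 ^ k₀ := by
      have : l * (1 / 2 ^ D) = 1 / 2 ^ k₀ := by
        rw [c3, add_div] at a2
        linarith
      field_simp at this ⊢
      linarith
    have a4 : s' + l * (y - s) = m₀ / 2 ^ k₀ + l * (y - n₀ / 2 ^ D) := by rw [← a1]; ring
    rw [a4, a3]
    push_cast
    field_simp
    ring
  obtain ⟨D, k₀, c, hstd⟩ := std
  obtain ⟨DF, hDF⟩ := pF.sa
  obtain ⟨DG, hDG⟩ := pG.sa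
  obtain ⟨K1, hK1⟩ := exists_pow_lt sp
  obtain ⟨K2, hK2⟩ : ∃ K, Dy s → ∀ k ≥ K, ∃ n : ℤ, (s : ℝ) = n / 2 ^ k := by
    by_cases hd : Dy s
    · obtain ⟨K, hK⟩ := hd.deep
      exact ⟨K, fun _ => hK⟩
    · exact ⟨0, fun h => absurd h hd⟩
  set E := DF + DG + K1 + K2
  set n : ℤ := ⌈2 ^ (D + E) * (s : ℝ)⌉ - 1 with hn
  obtain ⟨c1, c2⟩ := ceil_cell (D + E) s
  rw [← hn] at c1 c2
  set n' : ℤ := 2 ^ E * c + n
  have hΛ : ∀ t : ℝ, s' + l * ((n + t) / 2 ^ (D + E) - s) = (n' + t) / 2 ^ (k₀ + E) := fun t => by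
    rw [hstd]
    simp only [n']
    push_cast
    rw [pow_add, pow_add]
    field_simp
    ring
  have hΛ0 := hΛ 0
  have hΛ1 := hΛ 1
  rw [add_zero, add_zero] at hΛ0
  obtain ⟨_, _, sF⟩ := hDF.mono (show DF ≤ D + E by omega) n
  obtain ⟨_, _, sG⟩ := hDG.mono (show DG ≤ k₀ + E by omega) n'
  have aF := sF.affOn
  have aG := sG.affOn
  have u1 : p < (n : ℝ) / 2 ^ (D + E) := by
    have := hK1 (D + E) (by omega)
    rw [add_div] at c2
    linarith
  set u0 : ℝ := n / 2 ^ (D + E) with hu0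
  set u1' : ℝ := (n + 1) / 2 ^ (D + E) with hu1
  set v0 : ℝ := n' / 2 ^ (k₀ + E) with hv0
  set v1 : ℝ := (n' + 1) / 2 ^ (k₀ + E) with hv1
  have v0s : v0 < s' := by rw [← hΛ0]; nlinarith
  have v1s : s' ≤ v1 := by rw [← hΛ1]; nlinarith
  have pv0 : p' ≤ v0 := by rw [← hΛ0]; nlinarith
  have Fu : u0 < F u0 := s3 _ (p2.trans u1.le) c1
  have Fus : F u0 < s := by rw [← s2]; exact mono hF c1
  obtain ⟨M0, hM0⟩ := orbit pF.mono (x := r) (fun y y1 y2 => s3 y (r1.le.trans y1) y2) Fus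
  set M := max M0 N
  have M1 : F u0 ≤ (F ^ M) r := hM0.le.trans (mr (le_max_left _ _))
  have κM := κl M (le_max_right _ _)
  have hFM := pow_mem hF M
  have zu : z ≤ u0 := r2.trans (p2.trans u1.le)
  by_cases hE : C.Eqv u0 u1' v0 v1
  · obtain ⟨h, hh, h1, h2, h3⟩ := hE
    have hΛh : ∀ y, u0 ≤ y → y ≤ u1' → h y = s' + l * (y - s) := fun y y1 y2 => by
      have := h1 y ⟨y1, y2⟩
      rw [h2, h3, ← hΛ0, ← hΛ1] at this
      refine mul_left_cancel₀ (sub_pos.2 (c1.trans_le c2)).ne' ?_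
      rw [this]
      ring
    obtain ⟨k, hk, k1, k2⟩ := glue (κm M) hh (dy_grid (D + E) n) (by
      rw [κM _ u1.le (Fu.le.trans M1), hΛh _ le_rfl (c1.le.trans c2)])
    have k3 : ∀ x, x ≤ F u0 → k x = κ M x := fun x hx => by
      rcases le_total x u0 with a | a
      · exact k1 x a
      · rw [k2 x a, hΛh x a (hx.trans (Fus.le.trans c2)), κM x (u1.le.trans a) (hx.trans M1)]
    have ru : r ≤ F u0 := by rw [← f0]; exact (le_iff hF).2 (p2.trans u1.le)
    refine Or.inr ⟨k, hk, fun x x1 x2 => by rw [k3 x (x2.trans ru), κid M x x1 x2], s, rs, s2,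
      fun y y1 y2 => s3 y (r1.le.trans y1) y2, fun x x1 x2 => ?_⟩
    rcases le_total x u0 with a | a
    · rw [k3 _ ((le_iff hF).2 a), k1 x a, conj M x x1 (a.trans (Fu.le.trans M1))]
    · have a1 : F x ≤ s := by rw [← s2]; exact (le_iff hF).2 x2
      have a2 : u0 ≤ F x := Fu.le.trans ((le_iff hF).2 a)
      rw [k2 _ a2, k2 _ a, hΛh _ a2 (a1.trans c2), hΛh _ a (x2.trans c2),
        comm x (u1.le.trans a) x2]
  have hNE := NE.complete (C := C) (fun hr => Fu.ne' (hr.apply hF c1.le c2 le_rfl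
      (c1.le.trans c2) s2)) (fun hr => (s3' v0 (p2'.trans pv0) v0s).ne'
      (hr.apply hG v0s.le v1s le_rfl (v0s.le.trans v1s) s2')) hE
  obtain ⟨r₁, hr₁⟩ := (pF.pow M).inv.ra (dy_grid (D + E) n).ra
  rw [← hu0] at hr₁
  have e1 : (F ^ M) r₁ = u0 := by rw [← hr₁, app_inv]
  have e2 : (G ^ M) r₁ = v0 := by
    rw [← hr₁, ← hΛ0, ← κM _ u1.le (Fu.le.trans M1)]; rfl
  have e3 : (F ^ M) (F r₁) = F u0 := by
    rw [← e1, ← Equiv.Perm.mul_apply, ← pow_succ, pow_succ', Equiv.Perm.mul_apply]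
  have q1 : (((n + 1) / 2 ^ (D + E) : ℚ) : ℝ) = u1' := by push_cast; rfl
  have q2 : (((n' + 1) / 2 ^ (k₀ + E) : ℚ) : ℝ) = v1 := by push_cast; rfl
  refine Or.inl ⟨r₁, s, s', M, ?_, ?_, ?_, s2, s2', e1 ▸ c1, e2 ▸ v0s, e1 ▸ aF.mono le_rfl c2,
    e2 ▸ aG.mono le_rfl v1s, Or.inr ⟨(n + 1) / 2 ^ (D + E), (n' + 1) / 2 ^ (k₀ + E), ?_⟩⟩
  · rw [← le_iff hFM, e1, pow_fix hz]; exact zu
  · rw [← lt_iff hFM, e1, e3]; exact Fu
  · rw [← le_iff hFM, e3]; exact M1
  rw [e1, e2, q1, q2]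
  refine ⟨c2, ?_, aF, aG, by rw [← hΛ0, ← hΛ1]; ring, hNE⟩
  by_cases hd : Dy s
  · obtain ⟨m, hm⟩ := hK2 hd (D + E) (by omega)
    refine Or.inl ?_
    have : (2 : ℝ) ^ (D + E) * s = m := by rw [hm]; field_simp
    rw [this, Int.ceil_intCast] at hn
    rw [hu1, hn, hm]
    push_cast
    ring
  · refine Or.inr ⟨dy_grid _ _, ⟨D + E, n + 1, by push_cast; rfl⟩, fun d d1 d2 d3 d4 => hd ?_⟩
    have := aF.extend c1 c2 (fun y y1 y2 => hμ y (u1.le.trans y1) y2) d d2.le d3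
    rw [d4] at this
    have h2 : (1 - μ) * (d - s) = 0 := by linarith
    rcases mul_eq_zero.1 h2 with h | h
    · linarith
    · rwa [show (s : ℝ) = d by linarith]

end Ctx

end Pool.Agent.MP_337e3e_al

end MrgPart1

-- ======== part 2: formerly Pool.Agent.MP_337e3e_al.Conj2
section MrgPart2

/-!
The full certificate of non-conjugacy.
-/

namespace Pool.Agent.MP_337e3e_al

open Set

namespace Ctx

variable {C : Ctx}

/-- certificate that no element fixes `z` with right slope `2^k` -/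
def NoGerm (C : Ctx) (f : P) (z : ℝ) (k : ℕ) : Prop :=
  ∃ q : ℚ, ∃ q' : ℚ, z < q ∧ AffOn f z q' ∧ q' - z = 2 ^ k * (q - z) ∧ C.NE z q z q'

/-- certificate that no conjugator fixes `z` with right slope `2^k` -/
def ObsK (C : Ctx) (f g : P) (z : ℝ) (k : ℕ) : Prop :=
  C.NoGerm f z k ∨ ∃ c ∈ C.H, c z = z ∧ sl 1 c z = k ∧ ∃ r : ℚ, EqI f (c⁻¹ * g * c) z r ∧
    NDF' f z r ∧ (C.ObsB f (c⁻¹ * g * c) z r ∨ C.ObsB f⁻¹ (c⁻¹ * g * c)⁻¹ z r)

/-- certificate that no conjugator fixes `z` -/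
def Obs (C : Ctx) (R : Finset ℚ) (f g : P) (z : ℝ) : Prop :=
  (∃ k : ℤ, ∃ k' : ℤ, sl 1 f z = k ∧ sl 1 g z = k' ∧ k ≠ k') ∨
  (∃ s : ℚ, ∃ s' : ℚ, Dy s ∧ z < s ∧ z < s' ∧ EqI f 1 z s ∧ EqI g 1 z s' ∧ Node f s ∧ Node g s' ∧
    C.NP R z s s') ∨
  ∃ n : ℕ, n ≠ 0 ∧ (sl 1 f z = n ∨ sl 1 f z = -(n : ℤ)) ∧ ∀ k < n, C.ObsK f g z k

/-- certificate of non-conjugacy -/
def NC (C : Ctx) (R : Finset ℚ) (f g : P) : Prop :=
  ∃ c ∈ C.H, ∃ z : ℚ, Dy z ∧ EqI f (c⁻¹ * g * c) 0 z ∧ Node f z ∧ Node (c⁻¹ * g * c) z ∧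
    C.Obs R f (c⁻¹ * g * c) z

lemma contr_right {f : P} (hf : f ∈ C.H) {z q : ℝ} (hz : f z = z) (hs : sl 1 f z ≠ 0)
    (hq : z < q) (ha : AffOn f z q) :
    ∃ F ∈ C.H, ∃ μ, 0 < μ ∧ μ < 1 ∧ ∀ t ∈ Icc (0 : ℝ) (q - z), F (z + t) = z + μ * t := by
  obtain ⟨l, hl⟩ := ha.exists hq
  rw [hz] at hl
  have l0 : 0 < l := by
    have := mono hf hq
    rw [hz, hl q hq.le le_rfl] at this
    by_contra hc
    push Not at hc
    nlinarith
  rcases lt_trichotomy l 1 with h | h | h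
  · exact ⟨f, hf, l, l0, h, fun t ht => by
      rw [hl _ (by linarith [ht.1]) (by linarith [ht.2])]; ring⟩
  · exact absurd (sl_right_of_id hq fun t t1 t2 => by rw [hl t t1 t2, h]; ring) hs
  · refine ⟨f⁻¹, inv_mem hf, l⁻¹, inv_pos.2 l0, inv_lt_one_of_one_lt₀ h, fun t ht => ?_⟩
    have a1 : 0 ≤ l⁻¹ * t := mul_nonneg (inv_pos.2 l0).le ht.1
    have a2 : l⁻¹ * t ≤ t := mul_le_of_le_one_left ht.1 (inv_lt_one_of_one_lt₀ h).le
    rw [Equiv.Perm.inv_eq_iff_eq, hl _ (by linarith) (by linarith [ht.2])]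
    field_simp
    ring

lemma NoGerm.sound {f c : P} {z : ℝ} {k : ℕ} (h : C.NoGerm f z k) (hf : f ∈ C.H) (hz : f z = z)
    (hs : sl 1 f z ≠ 0) (hc : c ∈ C.H) (cz : c z = z) (cs : sl 1 c z = k) : False := by
  obtain ⟨q, q', h1, h2, h3, h4⟩ := h
  have h5 : (1 : ℝ) ≤ 2 ^ k := one_le_pow₀ (by norm_num)
  have h6 : (q : ℝ) ≤ q' := by nlinarith
  obtain ⟨F, hF, μ, m0, m1, hμ⟩ := contr_right hf hz hs (h1.trans_le h6) h2
  obtain ⟨ε, hε, b⟩ := (C.pl c hc).sl_spec sg_one z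
  rw [cs, cz, zpow_natCast] at b
  obtain ⟨M, hM⟩ := spread (F := F) (G := F) (c := c) (s := z) (s' := z) (l := 2 ^ k) m0 m1
    (by positivity) hε (sub_pos.2 h1) (fun t ht => hμ t ⟨ht.1, by linarith [ht.2]⟩)
    (fun t ht => hμ t (h3 ▸ ht)) (by simpa using b)
  have key : ∀ y, z ≤ y → y ≤ q → ((F ^ M)⁻¹ * c * F ^ M) y = z + 2 ^ k * (y - z) :=
    fun y y1 y2 => by simpa using hM (y - z) ⟨by linarith, by linarith⟩
  refine h4.sound ⟨_, mul_mem (mul_mem (inv_mem (pow_mem hF M)) hc) (pow_mem hF M),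
    affOn_of (α := z - 2 ^ k * z) (l := 2 ^ k) fun y y1 y2 => ?_, ?_, ?_⟩
  · rw [key y y1 y2]; ring
  · rw [key z le_rfl h1.le]; ring
  · rw [key q h1.le le_rfl]; linarith

lemma ract_of {f : P} (hf : f ∈ C.H) {z : ℝ} (hz : f z = z) (hs : sl 1 f z ≠ 0) : C.RAct z :=
  fun w hw => by
    obtain ⟨y, hy, hnf⟩ := (C.pl f hf).nofix_right hz hs
    exact ⟨f, hf, z, min w y, le_rfl, hw.le, (lt_min hw hy).le, min_le_left _ _, hz,
      hnf _ (lt_min hw hy) (min_le_right _ _)⟩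

lemma RAct.not_rigid {z : ℝ} (h : C.RAct z) {k : ℕ} {n : ℤ} (e : z = n / 2 ^ k) :
    ¬ Rigid C.H k n := fun hr => by
  have hlt : z < (n + 1) / 2 ^ k := by rw [e]; gcongr; linarith
  obtain ⟨g, hg, y, y', h1, h2, h3, h4, h5, h6⟩ := h _ hlt
  exact h6 (hr.apply hg (e ▸ h1) h2 (e ▸ h3) h4 h5)

lemma NoGerm.complete {f : P} {z : ℝ} {k : ℕ} (hf : f ∈ C.H) (hd : Dy z) (hz : f z = z)
    (hs : sl 1 f z ≠ 0) (hno : ¬ ∃ c ∈ C.H, c z = z ∧ sl 1 c z = k) : C.NoGerm f z k := by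
  obtain ⟨D, hD⟩ := (C.pl f hf).sa
  obtain ⟨K, hK⟩ := hd.deep
  obtain ⟨n, hn⟩ := hK (D + K) (by omega)
  obtain ⟨_, _, sF⟩ := hD.mono (show D ≤ D + K by omega) n
  generalize D + K = m at hn sF
  have hn' : z = ((2 ^ k * n : ℤ) : ℝ) / 2 ^ (m + k) := by
    rw [hn, pow_add]; push_cast; field_simp
  have ra := ract_of hf hz hs
  have q1 : ((((2 ^ k * n : ℤ) + 1) / 2 ^ (m + k) : ℚ) : ℝ) =
      ((2 ^ k * n : ℤ) + 1) / 2 ^ (m + k) := by push_cast; rfl
  have q2 : (((n + 1) / 2 ^ m : ℚ) : ℝ) = (n + 1) / 2 ^ m := by push_cast; rfl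
  have e1 : z < (((2 ^ k * n : ℤ) : ℝ) + 1) / 2 ^ (m + k) := by rw [hn']; gcongr; linarith
  have e2 : ((n : ℝ) + 1) / 2 ^ m - z =
      2 ^ k * ((((2 ^ k * n : ℤ) : ℝ) + 1) / 2 ^ (m + k) - z) := by
    rw [hn, pow_add]; push_cast; field_simp; ring
  refine ⟨((2 ^ k * n : ℤ) + 1) / 2 ^ (m + k), (n + 1) / 2 ^ m, ?_⟩
  rw [q1, q2]
  refine ⟨e1, hn ▸ sF.affOn, e2, ?_⟩
  have := NE.complete (ra.not_rigid hn') (ra.not_rigid hn) fun ⟨h, hh, h1, h2, h3⟩ => by
    rw [← hn'] at h1 h2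
    rw [← hn] at h2
    refine hno ⟨h, hh, h2, Sl.eq sg_one ⟨_, sub_pos.2 e1, fun t ht => ?_⟩⟩
    have := h1 (z + 1 * t) ⟨by linarith [ht.1], by linarith [ht.2]⟩
    rw [h2, h3] at this
    rw [h2, zpow_natCast]
    refine mul_left_cancel₀ (sub_pos.2 e1).ne' ?_
    rw [this]
    linear_combination t * e2
  rwa [← hn', ← hn] at this

lemma ObsK.sound {f g c : P} {z : ℝ} {k : ℕ} (h : C.ObsK f g z k) (hf : f ∈ C.H) (hg : g ∈ C.H)
    (hz : f z = z) (hs : sl 1 f z ≠ 0) (hc : c ∈ C.H) (cz : c z = z) (cs : sl 1 c z = k)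
    (e : c * f = g * c) : False := by
  rcases h with h | ⟨c₀, hc₀, h1, h2, r, h3, h4, h5⟩
  · exact h.sound hf hz hs hc cz cs
  have hk : c₀⁻¹ * c ∈ C.H := mul_mem (inv_mem hc₀) hc
  have hG : c₀⁻¹ * g * c₀ ∈ C.H := mul_mem (mul_mem (inv_mem hc₀) hg) hc₀
  have e' : (c₀⁻¹ * c) * f = (c₀⁻¹ * g * c₀) * (c₀⁻¹ * c) := by
    rw [mul_assoc, e]; group
  have hid := rigid_conj (C.pl f hf) (C.pl _ hk) e' hz
    (by rw [Equiv.Perm.mul_apply, cz, inv_fix h1]) (by
      rw [sl_mul (C.pl _ hc₀).inv (C.pl c hc) sg_one, cz, sl_inv_fix (C.pl _ hc₀) sg_one h1, h2, cs]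
      ring) h3 h4.2.2
  rcases h5 with h5 | h5
  · exact h5.sound hf hG hk e' hid
  · exact h5.sound (inv_mem hf) (inv_mem hG) hk (SemiconjBy.inv_right e').eq hid

lemma Obs.sound {R : Finset ℚ} {f g c : P} {z : ℝ} (h : C.Obs R f g z) (hf : f ∈ C.H)
    (hg : g ∈ C.H) (hd : Dy z) (hn : Node f z) (hc : c ∈ C.H) (cz : c z = z)
    (e : c * f * c⁻¹ = g) : False := by
  have pf := C.pl f hf
  have pg := C.pl g hg
  have pc := C.pl c hc
  have hz := hn.fix pf
  rcases h with ⟨_, _, rfl, rfl, h⟩ | ⟨s, s', h1, h2, h3, h4, h5, h6, h7, h8⟩ | ⟨n, h1, h2, h3⟩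
  · have := sl_conj pf pc sg_one hz
    rw [cz, e] at this
    exact h this.symm
  · refine h8.sound hd h1 h2.le ⟨c, hc, cz, ?_⟩
    rcases lt_trichotomy (c s) s' with a | a | a
    · exact ((e ▸ h6.conj pf pc).not_inner h5 (hn.mem pf).1 (by rw [← cz]; exact mono hc h2) a
        (h7.mem pg).2).elim
    · exact a
    · have b := h7.conj pg pc.inv
      rw [← e, show c⁻¹ * (c * f * c⁻¹) * c⁻¹⁻¹ = f by group] at b
      exact (b.not_inner h4 (hn.mem pf).1 (by rw [lt_inv hc, cz]; exact h3) ((inv_lt hc).2 a)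
        (h6.mem pf).2).elim
  · have n0 : (0 : ℤ) < n := by omega
    obtain ⟨m, hm⟩ : ∃ m : ℤ, sl 1 c z + m * sl 1 f z = sl 1 c z % n := by
      have := Int.emod_add_mul_ediv (sl 1 c z) n
      rcases h2 with h2 | h2
      · exact ⟨-(sl 1 c z / n), by rw [h2]; linarith⟩
      · exact ⟨sl 1 c z / n, by rw [h2]; linarith⟩
    have a1 := Int.emod_nonneg (sl 1 c z) n0.ne'
    have a2 := Int.emod_lt_of_pos (sl 1 c z) n0
    refine (h3 (sl 1 c z % n).toNat (by omega)).sound hf hg hz (by omega)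
      (mul_mem hc (zpow_mem hf m)) (by rw [Equiv.Perm.mul_apply, zpow_fix hz, cz]) ?_ ?_
    · rw [sl_mul pc (pf.zpow m) sg_one, zpow_fix hz, sl_zpow pf sg_one hz, hm]
      omega
    · rw [← e]; group

theorem NC.sound {R : Finset ℚ} {f g : P} (h : C.NC R f g) (hf : f ∈ C.H) (hg : g ∈ C.H) :
    ¬ ∃ c ∈ C.H, c * f * c⁻¹ = g := by
  rintro ⟨c, hc, e⟩
  obtain ⟨c₀, hc₀, z, h1, h2, h3, h4, h5⟩ := h
  have hk : c₀⁻¹ * c ∈ C.H := mul_mem (inv_mem hc₀) hc
  have hG : c₀⁻¹ * g * c₀ ∈ C.H := mul_mem (mul_mem (inv_mem hc₀) hg) hc₀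
  have e' : (c₀⁻¹ * c) * f * (c₀⁻¹ * c)⁻¹ = c₀⁻¹ * g * c₀ := by rw [← e]; group
  refine h5.sound hf hG h1 h3 hk (agree (C.pl f hf) (C.pl _ hk) e' (fun y hy => ?_) h3 h4) e'
  rcases le_total y 0 with a | a
  · rw [(C.pl _ hG).lo y a, (C.pl f hf).lo y a]
  · exact (h2 y a hy).symm

lemma ObsK.complete {f g : P} {z w : ℝ} {k : ℕ} (hf : f ∈ C.H) (hg : g ∈ C.H) (hd : Dy z)
    (hz : f z = z) (gz : g z = z) (hs : sl 1 f z ≠ 0) (es : sl 1 f z = sl 1 g z) (hw : z < w)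
    (fw : f w = w) (hn : ∀ d, Dy d → z < d → d < w → f d ≠ d)
    (hno : ¬ ∃ c ∈ C.H, c z = z ∧ ∀ x, z ≤ x → x ≤ w → c (f x) = g (c x)) : C.ObsK f g z k := by
  have pf := C.pl f hf
  have pg := C.pl g hg
  by_cases h0 : ∃ c ∈ C.H, c z = z ∧ sl 1 c z = k
  swap
  · exact Or.inl (NoGerm.complete hf hd hz hs h0)
  set W : Set ℝ := {s | z ≤ s ∧ s ≤ w ∧ f s = s ∧
    ∃ c ∈ C.H, c z = z ∧ sl 1 c z = k ∧ ∀ x, z ≤ x → x ≤ s → c (f x) = g (c x)}
  have hW : W.Finite := pf.finite_nodes.subset fun s ⟨s1, s2, s3, _⟩ => by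
    refine Or.inr (Or.inr ⟨s3, ?_⟩)
    rcases s1.eq_or_lt with rfl | s1
    · exact Or.inl hs
    · exact Or.inr (pf.sl_left_ne hn s1 s2 s3)
  obtain ⟨s, ⟨s1, s2, s3, c, hc, c1, c2, c3⟩, hmax⟩ := Set.exists_max_image W id hW (by
    obtain ⟨c, hc, c1, c2⟩ := h0
    exact ⟨z, le_rfl, hw.le, hz, c, hc, c1, c2, fun x x1 x2 => by
      rw [le_antisymm x2 x1, hz, c1, gz]⟩)
  have s4 : s < w := lt_of_le_of_ne s2 fun e => hno ⟨c, hc, c1, e ▸ c3⟩
  have pc := C.pl c hc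
  have hG : c⁻¹ * g * c ∈ C.H := mul_mem (mul_mem (inv_mem hc) hg) hc
  set G := c⁻¹ * g * c with hG'
  have pG := C.pl G hG
  have e1 : EqI f G z s := fun x x1 x2 => by simp [hG', ← c3 x x1 x2]
  have e2 : sl 1 f s = sl 1 G s := by
    rcases s1.eq_or_lt with rfl | s1
    · have := sl_conj pg pc.inv sg_one gz
      rw [inv_fix c1, inv_inv] at this
      rw [es, ← this]
    · have hd' : ¬ Dy s := fun h => hn s h s1 s4 s3
      rw [← pf.sl_eq hd', ← pG.sl_eq hd']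
      exact sl_congr_left pG s1 e1
  obtain ⟨r₁, r1, e3⟩ := eqI_of_sl pf pG (e1 s s1 le_rfl) e2
  obtain ⟨r, rd, r2, r3⟩ := exists_dy (lt_min r1 s4)
  obtain ⟨r, rfl⟩ := rd.ra
  have r4 : (r : ℝ) < w := r3.trans_le (min_le_right _ _)
  have e4 : EqI f G z r := fun x x1 x2 => by
    rcases le_total x s with a | a
    · exact e1 x x1 a
    · exact e3 x a (x2.trans (r3.trans_le (min_le_left _ _)).le)
  have zr : z < r := s1.trans_lt r2
  refine Or.inr ⟨c, hc, c1, c2, r, e4, ⟨hd, rd, fun d d1 d2 d3 => hn d d1 d2 (d3.trans_lt r4)⟩, ?_⟩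
  have fin : ∀ κ ∈ C.H, ∀ r' s', z < r' → s < s' → s' ≤ w → f s' = s' →
      (∀ x, z ≤ x → x ≤ r' → κ x = x) → (∀ x, z ≤ x → x ≤ s' → κ (f x) = G (κ x)) → False :=
    fun κ hκ r' s' a1 a2 a3 a4 a5 a6 => by
      have kz := a5 z le_rfl a1.le
      refine absurd (hmax s' ⟨s1.trans a2.le, a3, a4, c * κ, mul_mem hc hκ,
        by rw [Equiv.Perm.mul_apply, kz, c1], ?_, fun x x1 x2 => ?_⟩) (not_le.2 a2)
      · rw [sl_mul pc (C.pl κ hκ) sg_one, kz, c2, sl_right_of_id a1 a5, add_zero]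
      · simp [a6 x x1 x2, hG']
  rcases lt_or_gt_of_ne (hn r rd zr r4) with a | a
  · have b1 : z < f r := by rw [← hz]; exact mono hf zr
    have Gz : G z = z := by rw [← e4 z le_rfl zr.le, hz]
    rcases ObsB.complete (inv_mem hf) (inv_mem hG) (inv_fix hz) b1 (pf.ra rd.ra)
      (by rwa [inv_app]) (fun x x1 x2 => by
        rw [eq_comm, Equiv.Perm.inv_eq_iff_eq, ← e4 _ (by rwa [le_inv hf, hz])
          ((inv_le hf).2 x2), app_inv]) with h | ⟨κ, hκ, k1, s', k2, k3, k4, k5⟩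
    · exact Or.inr (h.weaken a.le)
    · have fs : f s' = s' := by simpa using inv_fix k3
      refine (fin κ hκ _ s' b1 (lt_trans (by rw [← s3]; exact mono hf r2) k2)
        (not_lt.1 fun h => (k4 w (a.le.trans r4.le) h).ne' (inv_fix fw)) fs k1
        fun x x1 x2 => ?_).elim
      have := k5 (f x) (by rw [← hz]; exact (le_iff hf).2 x1) (by rw [← fs]; exact (le_iff hf).2 x2)
      rw [inv_app] at this
      rw [this, app_inv]
  · rcases ObsB.complete hf hG hz zr rd.ra a e4 with h | ⟨κ, hκ, k1, s', k2, k3, k4, k5⟩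
    · exact Or.inl h
    · exact (fin κ hκ _ s' zr (r2.trans k2) (not_lt.1 fun h => (k4 w r4.le h).ne' fw) k3 k1
        k5).elim

theorem NC.complete (C : Ctx) : ∃ R : Finset ℚ, ∀ f ∈ C.H, ∀ g ∈ C.H,
    (¬ ∃ c ∈ C.H, c * f * c⁻¹ = g) → C.NC R f g := by
  obtain ⟨R, hR⟩ := NP.complete C
  refine ⟨R, fun f hf g hg hno => ?_⟩
  have pf := C.pl f hf
  set Z : Set ℝ := {z | Node f z ∧ Dy z ∧
    ∃ c ∈ C.H, EqI f (c⁻¹ * g * c) 0 z ∧ Node (c⁻¹ * g * c) z}
  obtain ⟨z, ⟨z1, z2, c₀, hc₀, z3, z4⟩, hmax⟩ := Set.exists_max_image Z id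
    (pf.finite_nodes.subset fun z hz => hz.1) ⟨0, Or.inl rfl, dy_zero, 1, one_mem _,
      fun x x1 x2 => by simp [pf.lo x x2, (C.pl g hg).lo x x2], Or.inl rfl⟩
  obtain ⟨z, rfl⟩ := z2.ra
  refine ⟨c₀, hc₀, z, z2, z3, z1, z4, ?_⟩
  have hG : c₀⁻¹ * g * c₀ ∈ C.H := mul_mem (mul_mem (inv_mem hc₀) hg) hc₀
  set G := c₀⁻¹ * g * c₀ with hG'
  have pG := C.pl G hG
  have fz := z1.fix pf
  have Gz := z4.fix pG
  have z5 : (z : ℝ) < 1 := lt_of_le_of_ne (z1.mem pf).2 fun e => hno ⟨c₀, hc₀, by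
    have : f = G := Equiv.ext fun x => by
      rcases le_total x 0 with a | a
      · rw [pf.lo x a, pG.lo x a]
      rcases le_total 1 x with b | b
      · rw [pf.hi x b, pG.hi x b]
      · exact z3 x a (e ▸ b)
    rw [this, hG']; group⟩
  have noext : ∀ c ∈ C.H, ∀ w, (z : ℝ) < w → Dy w → Node f w → c z = z →
      (∀ x, (z : ℝ) ≤ x → x ≤ w → c (f x) = G (c x)) → Node G (c w) → False :=
    fun c hc w w1 w2 w3 cz hcf w4 => by
      obtain ⟨c', hc', hc''⟩ := cut' hc z2 cz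
      have e : (c₀ * c')⁻¹ * g * (c₀ * c') = c'⁻¹ * G * c' := by rw [hG']; group
      refine absurd (hmax w ⟨w3, w2, c₀ * c', mul_mem hc₀ hc'.1, ?_, ?_⟩) (not_le.2 w1)
      · rw [e]
        intro x x1 x2
        rw [Equiv.Perm.mul_apply, Equiv.Perm.mul_apply, eq_comm, Equiv.Perm.inv_eq_iff_eq]
        rcases le_total x z with a | a
        · rw [hc'.2 x a, ← z3 x x1 a, hc'.2 _ (by rw [← fz]; exact (le_iff hf).2 a)]
        · rw [hc'' x a, hc'' _ (by rw [← fz]; exact (le_iff hf).2 a), hcf x a x2]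
      · rw [e]
        have := w4.conj pG (C.pl _ hc'.1).inv
        rwa [← hc'' w w1.le, inv_app, inv_inv] at this
  by_cases h1 : sl 1 f z = sl 1 G z
  swap
  · exact Or.inl ⟨_, _, rfl, rfl, h1⟩
  by_cases h2 : sl 1 f z = 0
  · obtain ⟨s, s1, s2, s3, s4⟩ := pf.next_node fz z5 h2
    obtain ⟨s', s1', s2', s3', s4'⟩ := pG.next_node Gz z5 (h1 ▸ h2)
    have fs : f s = s := s3 s s2.le le_rfl
    have Gs : G s' = s' := s3' s' s2'.le le_rfl
    have n1 : Node f s := s4.elim (fun h => Or.inr (Or.inl h))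
      fun h => Or.inr (Or.inr ⟨fs, Or.inl h⟩)
    have n2 : Node G s' := s4'.elim (fun h => Or.inr (Or.inl h))
      fun h => Or.inr (Or.inr ⟨Gs, Or.inl h⟩)
    have := hR z s s' z2 s1 s1' (s4.imp_right (ract_of hf fs)) (s4'.imp_right (ract_of hG Gs))
      fun ⟨h, hh, e1, e2⟩ => noext h hh s s2 s1 n1 e1 (fun x x1 x2 => by
        rw [show f x = x from s3 x x1 x2]
        exact (s3' (h x) (by rw [← e1]; exact (le_iff hh).2 x1)
          (by rw [← e2]; exact (le_iff hh).2 x2)).symm) (e2 ▸ n2)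
    obtain ⟨s, rfl⟩ := s1.ra
    obtain ⟨s', rfl⟩ := s1'.ra
    exact Or.inr (Or.inl ⟨s, s', s1, s2, s2', s3, s3', n1, n2, this⟩)
  obtain ⟨w, w1, w2, w3, w4⟩ := pf.next_dy fz h2
  have w5 := pf.sl_left_ne w4 w2 le_rfl w3
  refine Or.inr (Or.inr ⟨(sl 1 f z).natAbs, by omega, by omega, fun k _ =>
    ObsK.complete hf hG z2 fz Gz h2 h1 w2 w3 w4 fun ⟨c, hc, cz, hcf⟩ =>
      noext c hc w w2 w1 (Or.inr (Or.inr ⟨w3, Or.inr w5⟩)) cz hcf ?_⟩)
  have pc := C.pl c hc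
  refine Or.inr (Or.inr ⟨by rw [← hcf w w2.le le_rfl, w3], Or.inr ?_⟩)
  rw [sl_congr_left ((pc.mul pf).mul pc.inv) (mono hc w2) (g := G) fun t t1 t2 => by
    have := hcf (c⁻¹ t) ((le_inv hc).2 t1) ((inv_le hc).2 t2)
    rw [app_inv] at this
    exact this.symm, sl_conj pf pc sg_neg w3]
  exact w5

end Ctx

end Pool.Agent.MP_337e3e_al

end MrgPart2

-- ======== part 3: formerly Pool.Agent.MP_337e3e_al.Sig2
section MrgPart3

/-!
Evaluation of words on computable points, and finite checks for affinity, equality, slopes.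
-/

namespace Pool.Agent.MP_337e3e_al

open Set

/-- value of a letter -/
noncomputable def gen (l : List P) (q : ℕ × Bool) : P :=
  if q.2 then l.getD q.1 1 else (l.getD q.1 1)⁻¹

lemma ev_nil (l : List P) : ev l [] = 1 := rfl

lemma ev_cons (l : List P) (q : ℕ × Bool) (w : Word) : ev l (q :: w) = gen l q * ev l w := by
  simp [ev, gen]

lemma ev_append (l : List P) (v w : Word) : ev l (v ++ w) = ev l v * ev l w := by
  simp [ev]

lemma ev_inv (l : List P) (w : Word) :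
    ev l (w.map fun q => (q.1, !q.2)).reverse = (ev l w)⁻¹ := by
  induction w with
  | nil => simp [ev_nil]
  | cons q w ih =>
    rw [List.map_cons, List.reverse_cons, ev_append, ih, ev_cons, ev_cons, ev_nil, mul_one,
      mul_inv_rev]
    congr 1
    rcases q with ⟨i, _ | _⟩ <;> simp [gen]

lemma ev_pow (l : List P) (w : Word) (n : ℕ) :
    ev l ((fun v => w ++ v)^[n] []) = ev l w ^ n := by
  induction n with
  | zero => simp [ev_nil]
  | succ n ih => rw [Function.iterate_succ_apply', ev_append, ih, pow_succ']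

lemma getD_cases (l : List P) (i : ℕ) : l.getD i 1 ∈ l ∨ l.getD i 1 = 1 := by
  by_cases h : i < l.length
  · exact Or.inl (by simp [h])
  · exact Or.inr (by simp [not_lt.1 h])

lemma ev_mem (l : List P) (w : Word) : ev l w ∈ Subgroup.closure {g | g ∈ l} := by
  induction w with
  | nil => exact one_mem _
  | cons q w ih =>
    rw [ev_cons]
    refine mul_mem ?_ ih
    have : l.getD q.1 1 ∈ Subgroup.closure {g | g ∈ l} := by
      rcases getD_cases l q.1 with h | h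
      · exact Subgroup.subset_closure h
      · rw [h]; exact one_mem _
    unfold gen
    split_ifs
    · exact this
    · exact inv_mem this

lemma exists_word {l : List P} {h : P} (hh : h ∈ Subgroup.closure {g | g ∈ l}) :
    ∃ w, ev l w = h := by
  induction hh using Subgroup.closure_induction with
  | mem x hx =>
    obtain ⟨i, hi, rfl⟩ := List.getElem_of_mem hx
    exact ⟨[(i, true)], by simp [ev_cons, ev_nil, gen, hi]⟩
  | one => exact ⟨[], rfl⟩
  | mul x y _ _ hx hy =>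
    obtain ⟨v, rfl⟩ := hx
    obtain ⟨w, rfl⟩ := hy
    exact ⟨_, ev_append l v w⟩
  | inv x _ hx =>
    obtain ⟨v, rfl⟩ := hx
    exact ⟨_, ev_inv l v⟩

lemma pl_gen {l : List P} (hl : ∀ g ∈ l, PL g) (q : ℕ × Bool) : PL (gen l q) := by
  have : PL (l.getD q.1 1) := by
    rcases getD_cases l q.1 with h | h
    · exact hl _ h
    · rw [h]; exact PL.one
  unfold gen
  split_ifs
  · exact this
  · exact this.inv

lemma pl_ev {l : List P} (hl : ∀ g ∈ l, PL g) (w : Word) : PL (ev l w) := by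
  induction w with
  | nil => exact PL.one
  | cons q w ih => rw [ev_cons]; exact (pl_gen hl q).mul ih

lemma pld_gen {l : List P} (hl : ∀ g ∈ l, PL g) : ∃ D, ∀ q, PLD (gen l q) D := by
  obtain ⟨D, hD⟩ := finite_pld hl
  refine ⟨D, fun q => ?_⟩
  unfold gen
  rcases getD_cases l q.1 with h | h
  · split_ifs
    · exact (hD _ h).1
    · exact (hD _ h).2
  · rw [h]
    simpa using PLD.one D

lemma pld_ev {l : List P} {D : ℕ} (hD : ∀ q, PLD (gen l q) D) (w : Word) :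
    PLD (ev l w) (D * w.length) := by
  induction w with
  | nil => exact PLD.one _
  | cons q w ih => rw [ev_cons, List.length_cons, Nat.mul_succ]; exact (hD q).mul ih

/-- finite check of affinity -/
lemma affOn_iff {f : P} (hf : PL f) {D : ℕ} (hD : PLD f D) (p q : ℝ) :
    (∀ j : ℕ, j < 2 ^ D + 1 → (j : ℝ) / 2 ^ D < p ∨ q < (j : ℝ) / 2 ^ D ∨
      (q - p) * f (j / 2 ^ D) = (q - j / 2 ^ D) * f p + (j / 2 ^ D - p) * f q) ↔ AffOn f p q := by
  constructor
  · intro h x hx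
    have zone : ∃ u v, u ≤ x ∧ x ≤ v ∧ AffOn f u v ∧
        (u ≤ p ∨ ∃ j < 2 ^ D + 1, u = (j : ℕ) / 2 ^ D) ∧
        (q ≤ v ∨ ∃ j < 2 ^ D + 1, v = (j : ℕ) / 2 ^ D) := by
      rcases le_or_gt x 0 with a | a
      · exact ⟨p, 0, hx.1, a, affOn_of (α := 0) (l := 1) fun y _ y2 => by simp [hf.lo y y2],
          Or.inl le_rfl, Or.inr ⟨0, by simp, by simp⟩⟩
      rcases le_or_gt 1 x with b | b
      · exact ⟨1, q, b, hx.2, affOn_of (α := 0) (l := 1) fun y y1 _ => by simp [hf.hi y y1],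
          Or.inr ⟨2 ^ D, by simp, by simp⟩, Or.inl le_rfl⟩
      obtain ⟨c1, c2⟩ := floor_cell D x
      obtain ⟨k', n', hs⟩ := hD ⌊2 ^ D * x⌋
      have n0 : 0 ≤ ⌊2 ^ D * x⌋ := Int.floor_nonneg.2 (by positivity)
      have n1 : ⌊2 ^ D * x⌋ < 2 ^ D := Int.floor_lt.2 (by
        push_cast; exact mul_lt_of_lt_one_right (by positivity) b)
      obtain ⟨j, hj⟩ := Int.eq_ofNat_of_zero_le n0
      rw [hj] at c1 c2 hs n1
      have n2 : j < 2 ^ D := by exact_mod_cast n1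
      exact ⟨_, _, c1, c2.le, hs.affOn, Or.inr ⟨j, by omega, by simp⟩,
        Or.inr ⟨j + 1, by omega, by simp⟩⟩
    obtain ⟨u, v, h1, h2, h3, h4, h5⟩ := zone
    have grid : ∀ y, p ≤ y → y ≤ q → (∃ j < 2 ^ D + 1, y = (j : ℕ) / 2 ^ D) →
        (q - p) * f y = (q - y) * f p + (y - p) * f q := by
      rintro _ y1 y2 ⟨j, hj, rfl⟩
      exact ((h j hj).resolve_left (not_lt.2 y1)).resolve_left (not_lt.2 y2)
    have E1 : (q - p) * f (max p u) = (q - max p u) * f p + (max p u - p) * f q := by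
      rcases le_total u p with a | a
      · rw [max_eq_left a]; ring
      · rw [max_eq_right a]
        rcases h4 with h4 | h4
        · rw [le_antisymm h4 a]; ring
        · exact grid u a (h1.trans hx.2) h4
    have E2 : (q - p) * f (min q v) = (q - min q v) * f p + (min q v - p) * f q := by
      rcases le_total q v with a | a
      · rw [min_eq_left a]; ring
      · rw [min_eq_right a]
        rcases h5 with h5 | h5
        · rw [le_antisymm a h5]; ring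
        · exact grid v (hx.1.trans h2) a h5
    have a1 : max p u ≤ x := max_le hx.1 h1
    have a2 : x ≤ min q v := le_min hx.2 h2
    have A := h3.mono (le_max_right p u) (min_le_right q v) x ⟨a1, a2⟩
    rcases (a1.trans a2).eq_or_lt with e | e
    · rw [le_antisymm (e ▸ a2) a1]; exact E1
    · refine mul_left_cancel₀ (sub_pos.2 e).ne' ?_
      linear_combination (q - p) * A + (min q v - x) * E1 + (x - max p u) * E2
  · intro h j _
    by_contra hc
    push Not at hc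
    exact hc.2.2 (h _ ⟨hc.1, hc.2.1⟩)

lemma eqI_iff {f g : P} (p q : ℝ) :
    (q < p ∨ (AffOn (g⁻¹ * f) p q ∧ (g⁻¹ * f) p = p ∧ (g⁻¹ * f) q = q)) ↔ EqI f g p q := by
  constructor
  · rintro (h | ⟨h1, h2, h3⟩) x x1 x2
    · linarith
    have key : (g⁻¹ * f) x = x := by
      rcases (x1.trans x2).eq_or_lt with e | e
      · rw [le_antisymm (e ▸ x2) x1, h2]
      · have := h1 x ⟨x1, x2⟩
        rw [h2, h3] at this
        exact mul_left_cancel₀ (sub_pos.2 e).ne' (by rw [this]; ring)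
    rwa [Equiv.Perm.mul_apply, Equiv.Perm.inv_eq_iff_eq] at key
  · intro h
    have key : ∀ x, p ≤ x → x ≤ q → (g⁻¹ * f) x = x := fun x x1 x2 => by simp [h x x1 x2]
    rcases lt_or_ge q p with a | a
    · exact Or.inl a
    · exact Or.inr ⟨affOn_of (α := 0) (l := 1) fun x x1 x2 => by rw [key x x1 x2]; ring,
        key p le_rfl a, key q a le_rfl⟩

lemma sl_right_iff {f : P} (hf : PL f) (x : ℝ) (k : ℤ) :
    (∃ q : ℚ, x < q ∧ AffOn f x q ∧ f q - f x = 2 ^ k * (q - x)) ↔ sl 1 f x = k := by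
  constructor
  · rintro ⟨q, h1, h2, h3⟩
    refine Sl.eq sg_one ⟨_, sub_pos.2 h1, fun t ht => ?_⟩
    have := h2 (x + 1 * t) ⟨by linarith [ht.1], by linarith [ht.2]⟩
    refine mul_left_cancel₀ (sub_pos.2 h1).ne' ?_
    linear_combination this + t * h3
  · rintro rfl
    obtain ⟨ε, hε, h⟩ := hf.sl_spec sg_one x
    obtain ⟨q, q1, q2⟩ := exists_rat_btwn (show x < x + ε by linarith)
    have key : ∀ y, x ≤ y → y ≤ q → f y = f x + 2 ^ sl 1 f x * (y - x) := fun y y1 y2 => by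
      simpa using h (y - x) ⟨by linarith, by linarith⟩
    exact ⟨q, q1, affOn_of (α := f x - 2 ^ sl 1 f x * x) (l := 2 ^ sl 1 f x)
      fun y y1 y2 => by rw [key y y1 y2]; ring, by rw [key q q1.le le_rfl]; ring⟩

lemma sl_left_iff {f : P} (hf : PL f) (x : ℝ) (k : ℤ) :
    (∃ p : ℚ, p < x ∧ AffOn f p x ∧ f x - f p = 2 ^ k * (x - p)) ↔ sl (-1) f x = k := by
  constructor
  · rintro ⟨q, h1, h2, h3⟩
    refine Sl.eq sg_neg ⟨_, sub_pos.2 h1, fun t ht => ?_⟩
    have := h2 (x + -1 * t) ⟨by linarith [ht.2], by linarith [ht.1]⟩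
    refine mul_left_cancel₀ (sub_pos.2 h1).ne' ?_
    linear_combination this - t * h3
  · rintro rfl
    obtain ⟨ε, hε, h⟩ := hf.sl_spec sg_neg x
    obtain ⟨q, q1, q2⟩ := exists_rat_btwn (show x - ε < x by linarith)
    have key : ∀ y : ℝ, q ≤ y → y ≤ x → f y = f x + 2 ^ sl (-1) f x * (y - x) := fun y y1 y2 => by
      have := h (x - y) ⟨by linarith, by linarith⟩
      rw [show x + -1 * (x - y) = y by ring] at this
      rw [this]; ring
    exact ⟨q, q2, affOn_of (α := f x - 2 ^ sl (-1) f x * x) (l := 2 ^ sl (-1) f x)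
      fun y y1 y2 => by rw [key y y1 y2]; ring, by rw [key q le_rfl q2.le]; ring⟩

lemma int_of_odd {y : ℝ} (hy : Dy y) {o z : ℤ} (ho : Odd o) (e : y * o = z) : ∃ M : ℤ, y = M := by
  obtain ⟨r, m, rfl⟩ := hy
  have h1 : m * o = 2 ^ r * z := by
    rw [div_mul_eq_mul_div, div_eq_iff (two_pow_pos' r).ne'] at e
    exact_mod_cast e.trans (mul_comm _ _)
  obtain ⟨M, rfl⟩ : 2 ^ r ∣ m :=
    (Int.isCoprime_two_left.2 ho).pow_left.dvd_of_dvd_mul_right ⟨z, h1⟩
  exact ⟨M, by push_cast; field_simp⟩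

lemma Dy.mul_pow {y : ℝ} (hy : Dy y) (j : ℕ) : Dy (2 ^ j * y) := by
  obtain ⟨r, m, rfl⟩ := hy
  exact ⟨r, 2 ^ j * m, by push_cast; ring⟩

lemma SA.fix_grid {f : P} {k k' : ℕ} {n n' : ℤ} (h : SA f k n k' n') {d : ℝ} (hd : Dy d)
    (h1 : (n : ℝ) / 2 ^ k < d) (h2 : d ≤ (n + 1) / 2 ^ k) (e : f d = d) :
    f ((n + 1) / 2 ^ k) = (n + 1) / 2 ^ k := by
  have hp := two_pow_pos' k
  have e' := h.apply h1.le h2
  rw [e, eq_div_iff (two_pow_pos' k').ne'] at e'
  have odd : ∀ j : ℕ, Odd ((2 : ℤ) ^ (j + 1) - 1) := fun j =>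
    Even.sub_odd (by simp [parity_simps]) odd_one
  have fin : (∃ M : ℤ, 2 ^ k * d = M) → f ((n + 1) / 2 ^ k) = (n + 1) / 2 ^ k := by
    rintro ⟨M, hM⟩
    rw [div_lt_iff₀ hp] at h1
    rw [le_div_iff₀ hp] at h2
    have a1 : n < M := by exact_mod_cast (show (n : ℝ) < M by linarith)
    have a2 : M ≤ n + 1 := by exact_mod_cast (show (M : ℝ) ≤ n + 1 by linarith)
    have a3 : (M : ℝ) = n + 1 := by exact_mod_cast (show M = n + 1 by omega)
    have : ((n : ℝ) + 1) / 2 ^ k = d := by rw [div_eq_iff hp.ne']; linarith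
    rw [this, e]
  rcases lt_trichotomy k k' with a | a | a
  · obtain ⟨j, rfl⟩ := Nat.exists_eq_add_of_lt a
    refine fin (int_of_odd (hd.mul_pow k) (odd j) (z := n' - n) ?_)
    push_cast
    rw [add_assoc, pow_add] at e'
    linarith
  · rw [h.diff h1.le h2 (h1.le.trans h2) le_rfl, e, a]
    simp
  · obtain ⟨j, rfl⟩ := Nat.exists_eq_add_of_lt a
    obtain ⟨M, hM⟩ := int_of_odd (hd.mul_pow k') (odd j) (z := n - n') (by
      push_cast
      rw [add_assoc, pow_add] at e'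
      linarith)
    exact fin ⟨2 ^ (j + 1) * M, by push_cast; rw [← hM, add_assoc, pow_add]; ring⟩

lemma ndf_iff {f : P} (hf : PL f) {D : ℕ} (hD : PLD f D) (p q : ℝ) :
    (∃ E : ℕ, D ≤ E ∧ (∃ n : ℤ, p = n / 2 ^ E) ∧ (∃ m : ℤ, q = m / 2 ^ E) ∧
      (q ≤ p ∨ (0 ≤ p ∧ q ≤ 1 ∧ ∀ j : ℕ, j < 2 ^ E + 1 → (j : ℝ) / 2 ^ E ≤ p ∨
        q < (j : ℝ) / 2 ^ E ∨ f (j / 2 ^ E) ≠ j / 2 ^ E))) ↔ NDF' f p q := by
  constructor
  · rintro ⟨E, h1, ⟨n, hn⟩, ⟨m, hm⟩, h2⟩
    refine ⟨⟨E, n, hn⟩, ⟨E, m, hm⟩, fun d d1 d2 d3 d4 => ?_⟩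
    rcases h2 with h2 | ⟨h2, h3, h4⟩
    · linarith
    have hp := two_pow_pos' E
    obtain ⟨c1, c2⟩ := ceil_cell E d
    obtain ⟨k', n', hs⟩ := hD.mono h1 (⌈2 ^ E * d⌉ - 1)
    have a1 := hs.fix_grid d1 c1 c2 d4
    have a2 : ⌈2 ^ E * d⌉ ≤ m := Int.ceil_le.2 (by
      rw [hm, le_div_iff₀ hp] at d3; linarith)
    have a3 : ⌈2 ^ E * d⌉ ≤ 2 ^ E := Int.ceil_le.2 (by
      push_cast; exact mul_le_of_le_one_right hp.le (d3.trans h3))
    obtain ⟨j, hj⟩ := Int.eq_ofNat_of_zero_le (Int.ceil_nonneg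
      (show 0 ≤ 2 ^ E * d from mul_nonneg hp.le (h2.trans d2.le)))
    rw [hj] at a1 a2 a3 c2
    simp only [Int.cast_sub, Int.cast_natCast, Int.cast_one, sub_add_cancel] at a1 c2
    have a4 : j ≤ 2 ^ E := by exact_mod_cast a3
    rcases h4 j (by omega) with h | h | h
    · linarith
    · have : (j : ℝ) ≤ m := by exact_mod_cast a2
      rw [hm] at h
      exact absurd h (not_lt.2 (by gcongr))
    · exact h a1
  · rintro ⟨h1, h2, h3⟩
    obtain ⟨K1, hK1⟩ := h1.deep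
    obtain ⟨K2, hK2⟩ := h2.deep
    refine ⟨D + K1 + K2, by omega, hK1 _ (by omega), hK2 _ (by omega), ?_⟩
    rcases le_or_gt q p with a | a
    · exact Or.inl a
    refine Or.inr ⟨not_lt.1 fun b => ?_, not_lt.1 fun b => h3 q h2 a le_rfl (hf.hi q b.le),
      fun j _ => ?_⟩
    · obtain ⟨d, d1, d2, d3⟩ := exists_dy (lt_min a b)
      exact h3 d d1 d2 (d3.trans_le (min_le_left _ _)).le
        (hf.lo d (d3.trans_le (min_le_right _ _)).le)
    · by_contra hc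
      push Not at hc
      exact h3 _ ⟨D + K1 + K2, j, by simp⟩ hc.1 hc.2.1 hc.2.2

section words

variable {α : Type} [Primcodable α] {l : List P}

/-- group elements given by computable words -/
def CW (l : List P) (φ : α → P) : Prop := ∃ W : α → Word, Primrec W ∧ φ = fun a => ev l (W a)

lemma CW.ev {W : α → Word} (h : Primrec W) : CW l fun a => ev l (W a) := ⟨W, h, rfl⟩

lemma CW.one : CW l fun _ : α => (1 : P) := ⟨fun _ => [], Primrec.const _, rfl⟩

lemma CW.mul {φ ψ : α → P} (h : CW l φ) (h' : CW l ψ) : CW l fun a => φ a * ψ a := by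
  obtain ⟨W, hW, rfl⟩ := h
  obtain ⟨V, hV, rfl⟩ := h'
  exact ⟨fun a => W a ++ V a, by fun_prop, funext fun a => (ev_append _ _ _).symm⟩

lemma CW.inv {φ : α → P} (h : CW l φ) : CW l fun a => (φ a)⁻¹ := by
  obtain ⟨W, hW, rfl⟩ := h
  exact ⟨fun a => ((W a).map fun q => (q.1, !q.2)).reverse,
    Primrec.list_reverse.comp (Primrec.list_map hW (by unfold Primrec₂; fun_prop)),
    funext fun a => (ev_inv _ _).symm⟩

lemma CW.pow {φ : α → P} {n : α → ℕ} (h : CW l φ) (hn : Primrec n) : CW l fun a => φ a ^ n a := by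
  obtain ⟨W, hW, rfl⟩ := h
  exact ⟨fun a => (fun v => W a ++ v)^[n a] [],
    Primrec.nat_iterate hn (Primrec.const _) (by unfold Primrec₂; fun_prop),
    funext fun a => (ev_pow _ _ _).symm⟩

lemma Sig.exH {H : Subgroup P} (hH : H = Subgroup.closure {g | g ∈ l}) {p : α → P → Prop}
    (h : Sig fun x : α × Word => p x.1 (ev l x.2)) : Sig fun a => ∃ g ∈ H, p a g :=
  (h.ex (p := fun a w => p a (ev l w))).congr fun a =>
    ⟨fun ⟨w, h⟩ => ⟨_, hH ▸ ev_mem l w, h⟩, fun ⟨g, hg, h⟩ => by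
      obtain ⟨w, rfl⟩ := exists_word (hH ▸ hg)
      exact ⟨w, h⟩⟩

variable (hl : ∀ g ∈ l, PL g)

include hl

lemma cf_gen : CF fun x : (ℕ × Bool) × Pt => gen l x.1 (val x.2) := by
  classical
  obtain ⟨D, hD⟩ := pld_gen hl
  choose κ ν hs using hD
  choose c hc using fun z : ℤ => exists_val z
  obtain ⟨τ, hτ, eτ⟩ := fin_table
    ((Finset.range l.length ×ˢ (Finset.univ : Finset Bool)) ×ˢ Finset.range (2 ^ D))
    (fun y : (ℕ × Bool) × ℕ => (κ y.1 y.2, c (ν y.1 y.2))) (0, 0, 0, 0)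
  have hv : CF fun x : (ℕ × Bool) × Pt => ((val x.2 : ℚ) : ℝ) := CF.val (by fun_prop)
  have hm := (CF.pow2 (Primrec.const D)).mul hv
  obtain ⟨N, hN, eN⟩ := hm.floor
  have := CF.ite (c := fun x : (ℕ × Bool) × Pt => ((val x.2 : ℚ) : ℝ) < 0 ∨
      (1 : ℝ) ≤ val x.2 ∨ l.length ≤ x.1.1)
    ((pp_lt hv CF.zero).or ((pp_le CF.one hv).or
      (Primrec.nat_le.comp (Primrec.const _) (by fun_prop)))) hv
    (CF.div2 ((CF.val (F := fun x => (τ (x.1, N x)).2) (by fun_prop)).add (hm.sub (CF.nat hN)))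
      (n := fun x => (τ (x.1, N x)).1) (by fun_prop))
  convert this using 2 with x
  split_ifs with h
  · rcases h with h | h | h
    · exact (pl_gen hl _).lo _ h.le
    · exact (pl_gen hl _).hi _ h
    · simp [gen, h]
  · push Not at h
    have e1 := eN x (mul_nonneg (by positivity) h.1)
    have e2 : N x < 2 ^ D := by
      have : (N x : ℤ) < 2 ^ D := e1 ▸ Int.floor_lt.2 (by
        push_cast; exact mul_lt_of_lt_one_right (by positivity) h.2.1)
      exact_mod_cast this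
    rw [eτ (x.1, N x) (by simp [h.2.2, e2]), hc]
    obtain ⟨c1, c2⟩ := floor_cell D (val x.2)
    rw [← e1] at c1 c2
    rw [(hs x.1 (N x)).apply c1 c2.le]
    simp

lemma CF.app {φ : α → P} {f : α → ℝ} (h : CW l φ) (hf : CF f) : CF fun a => φ a (f a) := by
  obtain ⟨W, hW, rfl⟩ := h
  obtain ⟨F, hF, rfl⟩ := hf
  obtain ⟨S, hS, e⟩ := cf_gen hl
  refine ⟨fun a => (W a).foldr (fun q c => S (q, c)) (F a),
    Primrec.list_foldr (h := fun _ y => S y) hW hF (by unfold Primrec₂; fun_prop), funext fun a => ?_⟩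
  dsimp only
  induction W a with
  | nil => rfl
  | cons q w ih => rw [ev_cons, Equiv.Perm.mul_apply, ih]; exact congrFun e (q, _)

lemma sig_aff {φ : α → P} {p q : α → ℝ} (h : CW l φ) (hp : CF p) (hq : CF q) :
    Sig fun a => AffOn (φ a) (p a) (q a) := by
  obtain ⟨W, hW, rfl⟩ := h
  obtain ⟨F, hF, rfl⟩ := hp
  obtain ⟨G, hG, rfl⟩ := hq
  obtain ⟨D, hD⟩ := pld_gen hl
  refine Sig.congr ?_ fun a => affOn_iff (pl_ev hl _) (pld_ev hD _) _ _
  repeat' first
    | with_reducible first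
      | apply Sig.ball | apply Sig.or | apply sig_lt | apply sig_eq | apply CF.add | apply CF.sub
      | apply CF.mul | apply CF.div2 | apply CF.app hl | apply CF.val | apply CF.nat | apply CW.ev
    | fun_prop

lemma sig_eqI {φ ψ : α → P} {p q : α → ℝ} (h : CW l φ) (h' : CW l ψ) (hp : CF p) (hq : CF q) :
    Sig fun a => EqI (φ a) (ψ a) (p a) (q a) :=
  ((sig_lt hq hp).or ((sig_aff hl (h'.inv.mul h) hp hq).and
    ((sig_eq (CF.app hl (h'.inv.mul h) hp) hp).and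
      (sig_eq (CF.app hl (h'.inv.mul h) hq) hq)))).congr fun _ => eqI_iff _ _

lemma sig_slR {φ : α → P} {p : α → ℝ} {k : α → ℤ} (h : CW l φ) (hp : CF p) (hk : CZ k) :
    Sig fun a => sl 1 (φ a) (p a) = k a := by
  obtain ⟨W, hW, rfl⟩ := h
  obtain ⟨F, hF, rfl⟩ := hp
  obtain ⟨K, K', hK, hK', rfl⟩ := hk
  refine Sig.congr ?_ fun a => sl_right_iff (pl_ev hl _) _ _
  repeat' first
    | with_reducible first
      | apply Sig.exQ | apply Sig.and | apply sig_lt | apply sig_eq | apply sig_aff hl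
      | apply CF.sub | apply CF.mul | apply CF.zpow2 | apply CF.app hl | apply CF.val
      | apply CW.ev | apply CZ.mk'
    | fun_prop

lemma sig_slL {φ : α → P} {p : α → ℝ} {k : α → ℤ} (h : CW l φ) (hp : CF p) (hk : CZ k) :
    Sig fun a => sl (-1) (φ a) (p a) = k a := by
  obtain ⟨W, hW, rfl⟩ := h
  obtain ⟨F, hF, rfl⟩ := hp
  obtain ⟨K, K', hK, hK', rfl⟩ := hk
  refine Sig.congr ?_ fun a => sl_left_iff (pl_ev hl _) _ _
  repeat' first
    | with_reducible first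
      | apply Sig.exQ | apply Sig.and | apply sig_lt | apply sig_eq | apply sig_aff hl
      | apply CF.sub | apply CF.mul | apply CF.zpow2 | apply CF.app hl | apply CF.val
      | apply CW.ev | apply CZ.mk'
    | fun_prop

lemma sig_ndf {φ : α → P} {p q : α → ℝ} (h : CW l φ) (hp : CF p) (hq : CF q) :
    Sig fun a => NDF' (φ a) (p a) (q a) := by
  obtain ⟨W, hW, rfl⟩ := h
  obtain ⟨F, hF, rfl⟩ := hp
  obtain ⟨G, hG, rfl⟩ := hq
  obtain ⟨D, hD⟩ := pld_gen hl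
  refine Sig.congr ?_ fun a => ndf_iff (pl_ev hl _) (pld_ev hD _) _ _
  repeat' first
    | with_reducible first
      | apply Sig.exN | apply Sig.exZ | apply Sig.and | apply Sig.ball | apply Sig.or
      | apply sig_nle | apply sig_lt | apply sig_le | apply sig_eq | apply sig_ne
      | apply CF.div2 | apply CF.app hl | apply CF.val | apply CF.nat | apply CF.int
      | apply CF.zero | apply CF.one | apply CW.ev | apply CZ.mk'
    | fun_prop

lemma sig_node {φ : α → P} {p : α → ℝ} (h : CW l φ) (hp : CF p) :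
    Sig fun a => Node (φ a) (p a) := by
  obtain ⟨W, hW, rfl⟩ := h
  obtain ⟨F, hF, rfl⟩ := hp
  have e : ∀ k : ℤ, (∃ j, k = j ∧ j ≠ 0) ↔ k ≠ 0 := by simp
  simp only [Node, ← e (sl _ _ _)]
  repeat' first
    | with_reducible first
      | apply Sig.exZ | apply Sig.and | apply Sig.or | apply sig_slR hl | apply sig_slL hl
      | apply sig_zne | apply sig_eq | apply CF.app hl | apply CF.val
      | apply CF.zero | apply CF.one | apply CW.ev | apply CZ.mk' | apply CZ.zero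
    | fun_prop

end words

end Pool.Agent.MP_337e3e_al

end MrgPart3

-- ======== part 4: formerly Pool.Agent.MP_337e3e_al.Final
section MrgPart4

/-!
The certificate of non-conjugacy is existential, hence conjugacy is decidable.
-/

namespace Pool.Agent.MP_337e3e_al

open Set

variable {α : Type} [Primcodable α] {l : List P} {C : Ctx}

lemma sig_K (ρ : ℚ) {f : α → ℝ} (hf : CF f) : Sig fun a => C.K (f a) ρ :=
  sig_upper (U := fun a => C.K a ρ)
    (upper_desc (fun _ _ h hK => hK.mono h) fun _ h1 h2 => Ctx.R1 ⟨ρ, rfl⟩ h1 h2) hf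

lemma sig_nPhi (ρ : ℚ) {f : α → ℝ} {k : α → ℤ} (hf : CF f) (hk : CZ k) :
    Sig fun a => ¬ C.Phi ρ (f a) (k a) := by
  obtain ⟨N, hN⟩ := Ctx.S2 (C := C) ρ
  refine Sig.congr (Sig.finex fun n => Sig.and ?_ (sig_ndvd n hk)) fun a => (hN _ _).symm
  exact sig_upper (U := fun a => C.PhiU ρ n a)
    (upper_desc (fun _ _ h hK => hK.mono h) fun _ h1 h2 => Ctx.S1 ⟨ρ, rfl⟩ h1 h2) hf

variable (hH : C.H = Subgroup.closure {g | g ∈ l})

include hH

lemma pl_l : ∀ g ∈ l, PL g := fun g hg => C.pl g (hH ▸ Subgroup.subset_closure hg)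

lemma sig_CK (R : Finset ℚ) {f g : α → ℝ} (hf : CF f) (hg : CF g) :
    Sig fun a => C.CK R (f a) (g a) := by
  obtain ⟨F, hF, rfl⟩ := hf
  obtain ⟨G, hG, rfl⟩ := hg
  have hl := pl_l hH
  refine Sig.finex fun ρ => ?_
  repeat' first
    | with_reducible first
      | apply Sig.exH hH | apply Sig.and | apply sig_eq | apply sig_K
      | apply CF.app hl | apply CF.val | apply CF.rat | apply CW.inv | apply CW.ev
    | fun_prop

lemma sig_CPhi (R : Finset ℚ) {f g : α → ℝ} {k : α → ℤ} (hf : CF f) (hg : CF g) (hk : CZ k) :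
    Sig fun a => C.CPhi R (f a) (g a) (k a) := by
  obtain ⟨F, hF, rfl⟩ := hf
  obtain ⟨G, hG, rfl⟩ := hg
  obtain ⟨K, K', hK, hK', rfl⟩ := hk
  have hl := pl_l hH
  refine Sig.finex fun ρ => ?_
  repeat' first
    | with_reducible first
      | apply Sig.exH hH | apply Sig.and | apply sig_eq | apply sig_nPhi
      | apply CF.app hl | apply CF.val | apply CF.rat | apply CW.inv | apply CW.ev | apply CZ.mk'
    | fun_prop

lemma sig_NO (R : Finset ℚ) {f g : α → ℝ} (hf : CF f) (hg : CF g) :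
    Sig fun a => C.NO R (f a) (g a) := by
  obtain ⟨F, hF, rfl⟩ := hf
  obtain ⟨G, hG, rfl⟩ := hg
  have hl := pl_l hH
  refine Sig.finex fun ρ => Sig.finex fun ρ' => Sig.and (Sig.const _) ?_
  repeat' first
    | with_reducible first
      | apply Sig.exH hH | apply Sig.and | apply sig_eq
      | apply CF.app hl | apply CF.val | apply CF.rat | apply CW.ev
    | fun_prop

lemma sig_NP' (R : Finset ℚ) {f g : α → ℝ} {φ : α → P} (hf : CF f) (hg : CF g) (hφ : CW l φ) :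
    Sig fun a => C.NP' R (f a) (g a) (φ a) := by
  obtain ⟨F, hF, rfl⟩ := hf
  obtain ⟨G, hG, rfl⟩ := hg
  obtain ⟨W, hW, rfl⟩ := hφ
  have hl := pl_l hH
  unfold Ctx.NP'
  repeat' first
    | with_reducible first
      | apply Sig.exQ | apply Sig.exZ | apply Sig.and | apply Sig.or | apply sig_le | apply sig_lt
      | apply sig_ne | apply sig_CK hH | apply sig_CPhi hH | apply sig_slL hl
      | apply CF.app hl | apply CF.val | apply CW.ev | apply CZ.mk'
    | fun_prop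

lemma sig_NP (R : Finset ℚ) {f g g' : α → ℝ} (hf : CF f) (hg : CF g) (hg' : CF g') :
    Sig fun a => C.NP R (f a) (g a) (g' a) := by
  obtain ⟨F, hF, rfl⟩ := hf
  obtain ⟨G, hG, rfl⟩ := hg
  obtain ⟨G', hG', rfl⟩ := hg'
  have hl := pl_l hH
  unfold Ctx.NP
  repeat' first
    | with_reducible first
      | apply Sig.exH hH | apply Sig.and | apply Sig.or | apply sig_eq | apply sig_NO hH
      | apply sig_NP' hH | apply CF.app hl | apply CF.val | apply CW.inv | apply CW.ev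
    | fun_prop

lemma sig_Eqv {p q p' q' : α → ℝ} (hp : CF p) (hq : CF q) (hp' : CF p') (hq' : CF q') :
    Sig fun a => C.Eqv (p a) (q a) (p' a) (q' a) := by
  obtain ⟨F, hF, rfl⟩ := hp
  obtain ⟨G, hG, rfl⟩ := hq
  obtain ⟨F', hF', rfl⟩ := hp'
  obtain ⟨G', hG', rfl⟩ := hq'
  have hl := pl_l hH
  unfold Ctx.Eqv
  repeat' first
    | with_reducible first
      | apply Sig.exH hH | apply Sig.and | apply sig_eq | apply sig_aff hl
      | apply CF.app hl | apply CF.val | apply CW.ev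
    | fun_prop

lemma sig_NE {p q p' q' : α → ℝ} (hp : CF p) (hq : CF q) (hp' : CF p') (hq' : CF q') :
    Sig fun a => C.NE (p a) (q a) (p' a) (q' a) := by
  have h1 : ∀ t : ℕ × ℤ, CF fun _ : α => (t.2 : ℝ) / 2 ^ t.1 := fun t => CF.of_ra (dy_grid _ _).ra
  have h2 : ∀ t : ℕ × ℤ, CF fun _ : α => ((t.2 : ℝ) + 1) / 2 ^ t.1 := fun t =>
    CF.of_ra (Dy.ra ⟨t.1, t.2 + 1, by push_cast; rfl⟩)
  exact Sig.finex fun t => Sig.finex fun t' => Sig.and (Sig.const _)
    ((sig_Eqv hH (h1 t) (h2 t) hp hq).and (sig_Eqv hH (h1 t') (h2 t') hp' hq'))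

lemma sig_ObsB {φ ψ : α → P} {f g : α → ℝ} (hφ : CW l φ) (hψ : CW l ψ) (hf : CF f) (hg : CF g) :
    Sig fun a => C.ObsB (φ a) (ψ a) (f a) (g a) := by
  obtain ⟨F, hF, rfl⟩ := hf
  obtain ⟨G, hG, rfl⟩ := hg
  obtain ⟨W, hW, rfl⟩ := hφ
  obtain ⟨V, hV, rfl⟩ := hψ
  have hl := pl_l hH
  unfold Ctx.ObsB
  repeat' first
    | with_reducible first
      | apply Sig.exQ | apply Sig.exN | apply Sig.and | apply Sig.or | apply sig_le | apply sig_lt
      | apply sig_ne | apply sig_eq | apply sig_aff hl | apply sig_ndf hl | apply sig_NE hH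
      | apply CF.mul | apply CF.sub | apply CF.app hl | apply CF.val | apply CW.pow | apply CW.ev
    | fun_prop

lemma sig_NoGerm {φ : α → P} {f : α → ℝ} {k : α → ℕ} (hφ : CW l φ) (hf : CF f) (hk : Primrec k) :
    Sig fun a => C.NoGerm (φ a) (f a) (k a) := by
  obtain ⟨F, hF, rfl⟩ := hf
  obtain ⟨W, hW, rfl⟩ := hφ
  have hl := pl_l hH
  unfold Ctx.NoGerm
  repeat' first
    | with_reducible first
      | apply Sig.exQ | apply Sig.and | apply sig_lt | apply sig_eq | apply sig_aff hl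
      | apply sig_NE hH | apply CF.mul | apply CF.sub | apply CF.pow2 | apply CF.val | apply CW.ev
    | fun_prop

lemma sig_ObsK {φ ψ : α → P} {f : α → ℝ} {k : α → ℕ} (hφ : CW l φ) (hψ : CW l ψ) (hf : CF f)
    (hk : Primrec k) : Sig fun a => C.ObsK (φ a) (ψ a) (f a) (k a) := by
  obtain ⟨F, hF, rfl⟩ := hf
  obtain ⟨W, hW, rfl⟩ := hφ
  obtain ⟨V, hV, rfl⟩ := hψ
  have hl := pl_l hH
  unfold Ctx.ObsK
  repeat' first
    | with_reducible first
      | apply Sig.exQ | apply Sig.exH hH | apply Sig.and | apply Sig.or | apply sig_NoGerm hH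
      | apply sig_slR hl | apply sig_eq | apply sig_eqI hl | apply sig_ndf hl | apply sig_ObsB hH
      | apply CF.app hl | apply CF.val | apply CW.mul | apply CW.inv | apply CW.ev | apply CZ.nat
    | fun_prop

lemma sig_Obs (R : Finset ℚ) {φ ψ : α → P} {f : α → ℝ} (hφ : CW l φ) (hψ : CW l ψ) (hf : CF f) :
    Sig fun a => C.Obs R (φ a) (ψ a) (f a) := by
  obtain ⟨F, hF, rfl⟩ := hf
  obtain ⟨W, hW, rfl⟩ := hφ
  obtain ⟨V, hV, rfl⟩ := hψ
  have hl := pl_l hH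
  unfold Ctx.Obs
  repeat' first
    | with_reducible first
      | apply Sig.exQ | apply Sig.exZ | apply Sig.exN | apply Sig.and | apply Sig.or
      | apply Sig.ball | apply sig_slR hl | apply sig_zne | apply sig_nne | apply sig_dy
      | apply sig_lt | apply sig_eqI hl | apply sig_node hl | apply sig_NP hH | apply sig_ObsK hH
      | apply CF.val | apply CW.one | apply CW.ev | apply CZ.mk' | apply CZ.nat | apply CZ.negnat
    | fun_prop

lemma sig_NC (R : Finset ℚ) {φ ψ : α → P} (hφ : CW l φ) (hψ : CW l ψ) :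
    Sig fun a => C.NC R (φ a) (ψ a) := by
  obtain ⟨W, hW, rfl⟩ := hφ
  obtain ⟨V, hV, rfl⟩ := hψ
  have hl := pl_l hH
  unfold Ctx.NC
  repeat' first
    | with_reducible first
      | apply Sig.exQ | apply Sig.exH hH | apply Sig.and | apply sig_dy | apply sig_eqI hl
      | apply sig_node hl | apply sig_Obs hH | apply CF.val | apply CF.zero
      | apply CW.mul | apply CW.inv | apply CW.ev
    | fun_prop

theorem conj_computable :
    ComputablePred fun p : Word × Word => ∃ c ∈ C.H, c * ev l p.1 * c⁻¹ = ev l p.2 := by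
  have hl := pl_l hH
  obtain ⟨R, hR⟩ := Ctx.NC.complete C
  have hm : ∀ w, ev l w ∈ C.H := fun w => hH ▸ ev_mem l w
  refine post (Sig.exH hH (Sig.congr (p := fun x : (Word × Word) × Word =>
    EqI (ev l x.2 * ev l x.1.1 * (ev l x.2)⁻¹) (ev l x.1.2) 0 1) ?_ fun x => ?_))
    ((sig_NC hH R (CW.ev Primrec.fst) (CW.ev Primrec.snd)).congr fun p =>
      ⟨fun h => h.sound (hm _) (hm _), hR _ (hm _) _ (hm _)⟩)
  · exact sig_eqI hl (((CW.ev (by fun_prop)).mul (CW.ev (by fun_prop))).mul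
      (CW.ev (by fun_prop)).inv) (CW.ev (by fun_prop)) CF.zero CF.one
  · refine ⟨fun h => Equiv.ext fun y => ?_, fun h y _ _ => by rw [h]⟩
    have p1 := ((pl_ev hl x.2).mul (pl_ev hl x.1.1)).mul (pl_ev hl x.2).inv
    have p2 := pl_ev hl x.1.2
    rcases le_total y 0 with a | a
    · rw [p1.lo y a, p2.lo y a]
    rcases le_total 1 y with b | b
    · rw [p1.hi y b, p2.hi y b]
    · exact h y a b

end Pool.Agent.MP_337e3e_al

end MrgPart4

-- marker of a merged file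
example : 731051 + 505947 = 731051 + 505947 := rfl
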