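import Mathlib
import Pool.Agent.MP_337e3e_al.Germ
import Pool.Agent.MP_337e3e_al.H98.Slope

/-!
The hypotheses of the frozen statement give a context.
-/

namespace Pool.Agent.MP_337e3e_al

open Set

lemma sa_of_lin {f : P} {ν ν' : ℕ × ℕ} (h : H98.Lin f ν ν') : SA f ν.1 ν.2 ν'.1 ν'.2 :=
  fun t ht => by simpa [H98.pt] using h t ht

lemma cell_out {f : P} (hf : H98.PL f) (k : ℕ) {n : ℤ} (hn : n < 0 ∨ 2 ^ k ≤ n) :
    ∀ t ∈ Icc (0 : ℝ) 1, f ((n + t) / 2 ^ k) = (n + t) / 2 ^ k := fun t ht => by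
  have hp : (0 : ℝ) < 2 ^ k := by positivity
  rcases hn with hn | hn
  · have : (n : ℝ) + 1 ≤ 0 := by exact_mod_cast hn
    exact hf.left _ (div_nonpos_of_nonpos_of_nonneg (by linarith [ht.2]) hp.le)
  · have : (2 : ℝ) ^ k ≤ n := by exact_mod_cast hn
    exact hf.right _ ((one_le_div hp).2 (by linarith [ht.1]))

lemma pld_of_deep {f : P} (hf : H98.PL f) {M : ℕ} (hM : H98.Deep f M) : PLD f M := fun n => by
  by_cases hn : n < 0 ∨ 2 ^ M ≤ n
  · exact ⟨M, n, cell_out hf M hn⟩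
  · push Not at hn
    obtain ⟨i, rfl⟩ := Int.eq_ofNat_of_zero_le hn.1
    obtain ⟨ν', -, h⟩ := hM (M, i) (by unfold H98.Valid; exact_mod_cast hn.2) le_rfl
    exact ⟨_, _, sa_of_lin h⟩

lemma pl_of_H98 {f : P} (hf : H98.PL f) : PL f :=
  let ⟨M, hM⟩ := hf.deep
  ⟨hf.mono, hf.left, hf.right, M, pld_of_deep hf hM⟩

section

variable {a b : P}
  (ha : ∀ x : ℝ, a x = if x < 0 then x else if x ≤ 1/2 then x/2 else if x ≤ 3/4 then x - 1/4
        else if x ≤ 1 then 2*x - 1 else x)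
  (hb : ∀ x : ℝ, b x = if x ≤ 1/2 then x else if x ≤ 3/4 then x/2 + 1/4
        else if x ≤ 7/8 then x - 1/8 else if x ≤ 1 then 2*x - 1 else x)

/-- The whole group as an auxiliary context. -/
def ctxTop : H98.Ctx :=
  ⟨a, b, ha, hb, [a, b], Subgroup.closure {a, b}, by congr 1; ext; simp, le_rfl, fun _ h _ => h⟩

include ha hb

lemma gens_pl : PL a ∧ PL b :=
  ⟨pl_of_H98 (@H98.pl_a (ctxTop ha hb)), pl_of_H98 (@H98.pl_b (ctxTop ha hb))⟩

lemma gens_pld : PLD a 3 ∧ PLD a⁻¹ 3 ∧ PLD b 3 ∧ PLD b⁻¹ 3 :=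
  letI := ctxTop ha hb
  ⟨pld_of_deep H98.pl_a H98.deep_a, pld_of_deep H98.pl_a.inv H98.deep_a',
    pld_of_deep H98.pl_b H98.deep_b, pld_of_deep H98.pl_b.inv H98.deep_b'⟩

lemma gen_a_inv (x : ℝ) : a⁻¹ x = if x < 0 then x else if x ≤ 1/4 then 2 * x
    else if x ≤ 1/2 then x + 1/4 else if x ≤ 1 then (x + 1) / 2 else x :=
  @H98.ha' (ctxTop ha hb) x

lemma gen_b_inv (x : ℝ) : b⁻¹ x = if x ≤ 1/2 then x else if x ≤ 5/8 then 2 * x - 1/2
    else if x ≤ 3/4 then x + 1/8 else if x ≤ 1 then (x + 1) / 2 else x :=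
  @H98.hb' (ctxTop ha hb) x

theorem exists_ctx {l : List P} {H : Subgroup P} (hH : H = Subgroup.closure {g : P | g ∈ l})
    (hle : H ≤ Subgroup.closure ({a, b} : Set P))
    (hcl : ∀ f ∈ Subgroup.closure ({a, b} : Set P),
      (∃ n : ℕ, ∃ t : ℕ → ℝ, t 0 = 0 ∧ t n = 1 ∧ (∀ i < n, t i < t (i+1)) ∧
        ∀ i < n, ∃ h ∈ H, ∀ x ∈ Set.Icc (t i) (t (i+1)), f x = h x) → f ∈ H) :
    ∃ C : Ctx, C.H = H := by
  letI Γ : H98.Ctx := ⟨a, b, ha, hb, l, H, hH, hle, hcl⟩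
  have pl : ∀ h ∈ H, H98.PL h := fun h hh => H98.pl hh
  refine ⟨⟨H, fun h hh => pl_of_H98 (pl h hh), fun h hh d hd e => ?_,
    H98.small_finite.toFinset.image fun ν => (ν.1, (ν.2 : ℤ)), fun k n => ?_⟩, rfl⟩
  · rcases le_or_gt d 0 with h0 | h0
    · exact ⟨h, hh, fun x hx => (pl h hh).left x (hx.trans h0), fun _ _ => rfl⟩
    · obtain ⟨k, n, rfl⟩ := hd
      have : (0 : ℝ) < n := (div_pos_iff_of_pos_right (by positivity)).1 h0
      obtain ⟨i, rfl⟩ := Int.eq_ofNat_of_zero_le (show 0 ≤ n by exact_mod_cast this.le)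
      exact H98.cut' hh ⟨(k, i), by simp [H98.pt]⟩ e
  · by_cases hn : n < 0 ∨ 2 ^ k ≤ n
    · exact .inl fun h hh _ _ _ => cell_out (pl h hh) k hn
    push Not at hn
    obtain ⟨i, rfl⟩ := Int.eq_ofNat_of_zero_le hn.1
    have hv : H98.Valid (k, i) := by unfold H98.Valid; exact_mod_cast hn.2
    by_cases hs : H98.Stuck (k, i)
    · refine .inl fun h hh s hs' e t ht => ?_
      obtain ⟨ν', e'⟩ := hs h hh
      have f : h (H98.pt (k, i) s) = H98.pt (k, i) s := by simpa [H98.pt] using e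
      have z : ((k : ℤ) - ν'.1) = 0 := by
        by_contra z
        rcases hs'.2.eq_or_lt with rfl | l
        · exact H98.not_stuck_ls hh f
            (by rwa [(e'.LS (H98.pt_lt.2 zero_lt_one) le_rfl).eq]) (H98.pt_lt.2 zero_lt_one)
            le_rfl hs
        · exact H98.not_stuck_rs hh f
            (by rwa [(e'.RS (H98.pt_le.2 hs'.1) (H98.pt_lt.2 l)).eq]) (H98.pt_le.2 hs'.1)
            (H98.pt_lt.2 l) hs
      have := e'.affine (H98.pt_le.2 hs'.1) (H98.pt_le.2 hs'.2) (H98.pt_le.2 ht.1)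
        (H98.pt_le.2 ht.2)
      rw [f, z] at this
      simpa [H98.pt] using this
    · obtain ⟨ν₀, a0, h, hh, e⟩ := H98.exists_small_ne hv hs
      exact .inr ⟨_, Finset.mem_image_of_mem _ (H98.small_finite.mem_toFinset.2 a0), h⁻¹,
        inv_mem hh, sa_of_lin e.inv⟩

end

end Pool.Agent.MP_337e3e_al
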