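import Mathlib.Topology.UnitInterval

/-!
Thompson's group `F` as piecewise linear homeomorphisms of the unit interval, closed subgroups,
and words in a finite family of generators.
-/

namespace Pool.Agent.MP_337e3e_al.Own

open unitInterval

/-- dyadic rational numbers -/
def IsDyadic (x : ℝ) : Prop := ∃ (k : ℕ) (n : ℤ), x = n / 2 ^ k

/-- a subdivision `0 = x 0 < x 1 < ... < x k = 1` of the unit interval by dyadic rationals -/
def DyadicSubdiv (k : ℕ) (x : ℕ → ℝ) : Prop :=
  x 0 = 0 ∧ x k = 1 ∧ (∀ i < k, x i < x (i + 1)) ∧ ∀ i ≤ k, IsDyadic (x i)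

/-- membership in Thompson's group `F`: the homeomorphism `f` of `[0,1]` is affine, with slope an
integer power of `2`, on each piece of some dyadic subdivision -/
def InF (f : I ≃ₜ I) : Prop :=
  ∃ (k : ℕ) (x : ℕ → ℝ), DyadicSubdiv k x ∧ ∀ i < k, ∃ (e : ℤ) (c : ℝ),
    ∀ y : I, x i ≤ (y : ℝ) → (y : ℝ) ≤ x (i + 1) → (f y : ℝ) = 2 ^ e * (y : ℝ) + c

/-- `f` is a piecewise-`H` function: on each piece of some dyadic subdivision it agrees with an
element of `H` -/
def Piecewise (H : Subgroup (I ≃ₜ I)) (f : I ≃ₜ I) : Prop :=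
  ∃ (k : ℕ) (x : ℕ → ℝ), DyadicSubdiv k x ∧ ∀ i < k, ∃ h ∈ H,
    ∀ y : I, x i ≤ (y : ℝ) → (y : ℝ) ≤ x (i + 1) → f y = h y

/-- the group element represented by a word in the letters `s i` (flag `true`) and their
inverses (flag `false`) -/
def evalWord {G : Type} [Group G] {m : ℕ} (s : Fin m → G) (w : List (Fin m × Bool)) : G :=
  (w.map fun q => if q.2 then s q.1 else (s q.1)⁻¹).prod

end Pool.Agent.MP_337e3e_al.Own
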