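import Mathlib.Order.Monotone.Union
import Mathlib.Computability.Reduce
import Pool.Agent.MP_337e3e_al.Final
import Pool.Agent.MP_337e3e_al.OwnDefs

/-!
Transfer from homeomorphisms of the unit interval to permutations of the line.
-/

namespace Pool.Agent.MP_337e3e_al.Own

open unitInterval Set Filter

/-- forget the topology -/
def toPerm : (I ≃ₜ I) →* Equiv.Perm I where
  toFun f := f.toEquiv
  map_one' := rfl
  map_mul' _ _ := rfl

open Classical in
/-- extend by the identity -/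
noncomputable def ext : (I ≃ₜ I) →* P :=
  (Equiv.Perm.ofSubtype (p := fun x : ℝ => x ∈ Icc (0 : ℝ) 1)).comp toPerm

lemma ext_coe (f : I ≃ₜ I) (y : I) : ext f y = f y := by
  classical
  exact Equiv.Perm.ofSubtype_apply_coe (p := fun x : ℝ => x ∈ Icc (0 : ℝ) 1) (toPerm f) y

lemma ext_mem (f : I ≃ₜ I) {y : ℝ} (hy : y ∈ Icc (0 : ℝ) 1) : ext f y = f ⟨y, hy⟩ :=
  ext_coe f ⟨y, hy⟩

lemma ext_out (f : I ≃ₜ I) {y : ℝ} (hy : y ∉ Icc (0 : ℝ) 1) : ext f y = y := by
  classical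
  exact Equiv.Perm.ofSubtype_apply_of_not_mem (p := fun x : ℝ => x ∈ Icc (0 : ℝ) 1) (toPerm f) hy

lemma ext_inj : Function.Injective ext := fun f g h => by
  ext y
  rw [← ext_coe, ← ext_coe, h]

lemma DyadicSubdiv.le {k : ℕ} {x : ℕ → ℝ} (h : DyadicSubdiv k x) {i j : ℕ} (hij : i ≤ j)
    (hj : j ≤ k) : x i ≤ x j := by
  induction j, hij using Nat.le_induction with
  | base => exact le_rfl
  | succ j _ ih => exact (ih (by omega)).trans (h.2.2.1 j (by omega)).le

lemma DyadicSubdiv.mem {k : ℕ} {x : ℕ → ℝ} (h : DyadicSubdiv k x) {i : ℕ} (hi : i ≤ k) :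
    x i ∈ Icc (0 : ℝ) 1 :=
  ⟨h.1 ▸ h.le (Nat.zero_le i) hi, h.2.1 ▸ h.le hi le_rfl⟩

lemma exists_piece {x : ℕ → ℝ} {y : ℝ} (h0 : x 0 ≤ y) :
    ∀ k : ℕ, y < x k → ∃ i < k, x i ≤ y ∧ y < x (i + 1)
  | 0, h => absurd h0 (not_le.2 h)
  | k + 1, h => by
    rcases lt_or_ge y (x k) with a | a
    · obtain ⟨i, hi, b⟩ := exists_piece h0 k a
      exact ⟨i, by omega, b⟩
    · exact ⟨k, by omega, a, h⟩

lemma InF.strictMono {f : I ≃ₜ I} (hf : InF f) : StrictMono f := by
  obtain ⟨k, x, hs, hp⟩ := hf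
  have hk : 0 < k := by
    rcases Nat.eq_zero_or_pos k with rfl | h
    · have := hs.1.symm.trans hs.2.1
      norm_num at this
    · exact h
  rcases f.continuous.strictMono_of_inj_boundedOrder' f.injective with h | h
  · exact h
  · exfalso
    obtain ⟨e, c, hc⟩ := hp 0 hk
    have l := hs.2.2.1 0 hk
    have a := hc ⟨x 0, hs.mem (by omega)⟩ le_rfl l.le
    have b := hc ⟨x 1, hs.mem hk⟩ l.le le_rfl
    have := h (show (⟨x 0, hs.mem (by omega)⟩ : I) < ⟨x 1, hs.mem hk⟩ from l)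
    have t : (f ⟨x 1, hs.mem hk⟩ : ℝ) < f ⟨x 0, hs.mem (by omega)⟩ := this
    rw [a, b] at t
    have hp : (0 : ℝ) < 2 ^ e := by positivity
    have := mul_lt_mul_of_pos_left l hp
    simp only [zero_add] at this t
    linarith

lemma InF.zero {f : I ≃ₜ I} (hf : InF f) : f 0 = 0 := by
  obtain ⟨y, hy⟩ := f.surjective 0
  have : f 0 ≤ f y := hf.strictMono.monotone (show (0 : I) ≤ y from y.2.1)
  exact le_antisymm (this.trans_eq hy) (f 0).2.1

lemma InF.one {f : I ≃ₜ I} (hf : InF f) : f 1 = 1 := by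
  obtain ⟨y, hy⟩ := f.surjective 1
  have : f y ≤ f 1 := hf.strictMono.monotone (show y ≤ (1 : I) from y.2.2)
  exact le_antisymm (f 1).2.2 (hy.symm.trans_le this)

lemma dy_add {x y : ℝ} (hx : Dy x) (hy : Dy y) : Dy (x + y) := by
  obtain ⟨K, hK⟩ := hx.deep
  obtain ⟨L, hL⟩ := hy.deep
  obtain ⟨n, rfl⟩ := hK (K + L) (by omega)
  obtain ⟨m, hm⟩ := hL (K + L) (by omega)
  exact ⟨K + L, n + m, by rw [hm]; push_cast; ring⟩

lemma dy_neg {x : ℝ} (hx : Dy x) : Dy (-x) := by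
  obtain ⟨k, n, rfl⟩ := hx
  exact ⟨k, -n, by push_cast; ring⟩

lemma dy_zpow_mul (e : ℤ) {x : ℝ} (hx : Dy x) : Dy (2 ^ e * x) := by
  obtain ⟨k, n, rfl⟩ := hx
  obtain ⟨a, rfl | rfl⟩ := e.eq_nat_or_neg
  · exact ⟨k, 2 ^ a * n, by rw [zpow_natCast]; push_cast; ring⟩
  · exact ⟨k + a, n, by rw [zpow_neg, zpow_natCast, pow_add]; field_simp⟩

lemma InF.pl {f : I ≃ₜ I} (hf : InF f) : PL (ext f) := by
  have lo : ∀ y, y ≤ 0 → ext f y = y := fun y hy => by
    rcases hy.eq_or_lt with rfl | hy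
    · exact (ext_coe f 0).trans (congrArg _ hf.zero)
    · exact ext_out f fun h => absurd h.1 (not_le.2 hy)
  have hi : ∀ y, 1 ≤ y → ext f y = y := fun y hy => by
    rcases hy.eq_or_lt with rfl | hy
    · exact (ext_coe f 1).trans (congrArg _ hf.one)
    · exact ext_out f fun h => absurd h.2 (not_le.2 hy)
  have mono : StrictMono (ext f) := by
    have m1 : StrictMonoOn (ext f) (Iic 0) := fun a ha b hb h => by rwa [lo a ha, lo b hb]
    have m2 : StrictMonoOn (ext f) (Icc 0 1) := fun a ha b hb h => by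
      rw [ext_mem f ha, ext_mem f hb]
      exact hf.strictMono (show (⟨a, ha⟩ : I) < ⟨b, hb⟩ from h)
    have m3 : StrictMonoOn (ext f) (Ici 1) := fun a ha b hb h => by rwa [hi a ha, hi b hb]
    have m4 : StrictMonoOn (ext f) (Iic 1) := by
      rw [← Iic_union_Icc_eq_Iic (zero_le_one' ℝ)]
      exact m1.union m2 isGreatest_Iic (isLeast_Icc zero_le_one)
    exact m4.Iic_union_Ici m3
  refine ⟨mono, lo, hi, ?_⟩
  obtain ⟨k, x, hs, hp⟩ := id hf
  choose! e c hc using hp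
  have val : ∀ i < k, ∀ y, x i ≤ y → y ≤ x (i + 1) → ext f y = 2 ^ e i * y + c i :=
    fun i h y a b => by
      have hy : y ∈ Icc (0 : ℝ) 1 := ⟨(hs.mem h.le).1.trans a, b.trans (hs.mem h).2⟩
      rw [ext_mem f hy]
      exact hc i h ⟨y, hy⟩ a b
  have dyv : ∀ i ≤ k, Dy (ext f (x i)) := fun i => by
    induction i with
    | zero => intro _; rw [hs.1, lo 0 le_rfl]; exact dy_zero
    | succ i ih =>
      intro h
      have l := (hs.2.2.1 i h).le
      have a := val i h _ le_rfl l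
      have b := val i h _ l le_rfl
      have : ext f (x (i + 1)) = ext f (x i) + (2 ^ e i * x (i + 1) + -(2 ^ e i * x i)) := by
        rw [a, b]; ring
      rw [this]
      exact dy_add (ih (by omega)) (dy_add (dy_zpow_mul _ (hs.2.2.2 _ h))
        (dy_neg (dy_zpow_mul _ (hs.2.2.2 _ (by omega)))))
  have dyc : ∀ i < k, Dy (c i) := fun i h => by
    have a := val i h _ le_rfl (hs.2.2.1 i h).le
    have : c i = ext f (x i) + -(2 ^ e i * x i) := by rw [a]; ring
    rw [this]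
    exact dy_add (dyv i h.le) (dy_neg (dy_zpow_mul _ (hs.2.2.2 _ h.le)))
  have ev : ∀ i ∈ Finset.range k, ∀ᶠ D : ℕ in atTop, (∃ n : ℤ, x (i + 1) = n / 2 ^ D) ∧
      ∃ (k' : ℕ) (m : ℤ), (D : ℤ) = k' + e i ∧ c i = m / 2 ^ k' := fun i h => by
    have h := Finset.mem_range.1 h
    obtain ⟨K, hK⟩ := Dy.deep (hs.2.2.2 (i + 1) h)
    obtain ⟨L, hL⟩ := (dyc i h).deep
    filter_upwards [eventually_ge_atTop (K + L + (e i).natAbs)] with D hD
    refine ⟨hK D (by omega), ?_⟩
    obtain ⟨m, hm⟩ := hL ((D : ℤ) - e i).toNat (by omega)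
    exact ⟨_, m, by omega, hm⟩
  obtain ⟨D, hD⟩ := ((Finset.eventually_all _).2 ev).exists
  refine ⟨D, fun n => ?_⟩
  have hp := two_pow_pos' D
  by_cases hn : n < 0 ∨ 2 ^ D ≤ n
  · refine ⟨D, n, SA.of_id fun y h1 h2 => ?_⟩
    rcases hn with hn | hn
    · refine lo y (h2.trans (div_nonpos_of_nonpos_of_nonneg ?_ hp.le))
      have : n + 1 ≤ 0 := by omega
      exact_mod_cast this
    · refine hi y (le_trans ?_ h1)
      rw [le_div_iff₀ hp, one_mul]
      exact_mod_cast hn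
  push Not at hn
  obtain ⟨i, hik, a, b⟩ := exists_piece (x := x) (y := (n : ℝ) / 2 ^ D)
    (by rw [hs.1]; exact div_nonneg (by exact_mod_cast hn.1) hp.le) k
    (by rw [hs.2.1, div_lt_one hp]; exact_mod_cast hn.2)
  obtain ⟨⟨n1, h1⟩, k', m, hk', hm⟩ := hD i (Finset.mem_range.2 hik)
  have h2 : ((n : ℝ) + 1) / 2 ^ D ≤ x (i + 1) := by
    rw [h1] at b ⊢
    have : n < n1 := by exact_mod_cast (div_lt_div_iff_of_pos_right hp).1 b
    have : n + 1 ≤ n1 := this
    gcongr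
    exact_mod_cast this
  refine ⟨k', n + m, fun t ht => ?_⟩
  rw [val i hik _ (a.trans (by gcongr; linarith [ht.1])) (le_trans (by gcongr; exact ht.2) h2), hm]
  have : (2 : ℝ) ^ D = 2 ^ k' * 2 ^ e i := by
    rw [← zpow_natCast, hk', zpow_add₀ (by norm_num), zpow_natCast]
  rw [this]
  push_cast
  field_simp
  ring

lemma exists_of_pl {h : P} (hh : PL h) : ∃ f : I ≃ₜ I, InF f ∧ ext f = h := by
  have hm : ∀ y, h y ∈ Icc (0 : ℝ) 1 ↔ y ∈ Icc (0 : ℝ) 1 := fun y => by
    have a : 0 ≤ h y ↔ 0 ≤ y := by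
      rw [← hh.mono.le_iff_le (a := 0) (b := y), hh.lo 0 le_rfl]
    have b : h y ≤ 1 ↔ y ≤ 1 := by
      rw [← hh.mono.le_iff_le (a := y) (b := 1), hh.hi 1 le_rfl]
    exact and_congr a b
  let f : I ≃ₜ I :=
    { toEquiv := h.subtypePerm (p := fun x : ℝ => x ∈ Icc (0 : ℝ) 1) hm
      continuous_toFun := (hh.continuous.comp continuous_subtype_val).subtype_mk _
      continuous_invFun := (hh.inv.continuous.comp continuous_subtype_val).subtype_mk _ }
  have hv : ∀ y : I, (f y : ℝ) = h y := fun _ => rfl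
  refine ⟨f, ?_, Equiv.ext fun y => ?_⟩
  · obtain ⟨D, hD⟩ := hh.sa
    have hp := two_pow_pos' D
    refine ⟨2 ^ D, fun i => (i : ℝ) / 2 ^ D, ⟨by simp, by push_cast; field_simp, fun i _ => ?_,
      fun i _ => ⟨D, i, by simp⟩⟩, fun i _ => ?_⟩
    · push_cast
      gcongr
      linarith
    · obtain ⟨k', n', hs⟩ := hD i
      refine ⟨(D : ℤ) - k', (n' - i) / 2 ^ k', fun y a b => ?_⟩
      rw [hv, hs.apply (by simpa using a) (by simpa using b), zpow_sub₀ (by norm_num),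
        zpow_natCast, zpow_natCast]
      push_cast
      field_simp
      ring
  · by_cases hy : y ∈ Icc (0 : ℝ) 1
    · rw [ext_mem f hy, hv]
    · rw [ext_out f hy]
      rcases not_and_or.1 hy with a | a
      · exact (hh.lo y (not_le.1 a).le).symm
      · exact (hh.hi y (not_le.1 a).le).symm

theorem exists_ctx' (H : Subgroup (I ≃ₜ I)) (hF : ∀ h ∈ H, InF h)
    (hcl : ∀ f, InF f → Piecewise H f → f ∈ H) {l : List P}
    (hl : H.map ext = Subgroup.closure {g | g ∈ l}) : ∃ C : Ctx, C.H = H.map ext := by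
  have hpl : ∀ g ∈ H.map ext, PL g := by
    rintro _ ⟨g, hg, rfl⟩
    exact (hF g hg).pl
  obtain ⟨T, hT⟩ := exists_fin hl hpl
  refine ⟨⟨H.map ext, hpl, fun h hh d hd e => ?_, T, hT⟩, rfl⟩
  rcases le_or_gt d 0 with d0 | d0
  · exact ⟨h, hh, fun x hx => (hpl h hh).lo x (hx.trans d0), fun _ _ => rfl⟩
  rcases le_or_gt 1 d with d1 | d1
  · exact ⟨1, one_mem _, fun _ _ => rfl, fun x hx => ((hpl h hh).hi x (d1.trans hx)).symm⟩
  obtain ⟨h', h1, h2, h3⟩ := (hpl h hh).exists_cut hd e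
  obtain ⟨f, hf, rfl⟩ := exists_of_pl h1
  obtain ⟨g, hg, rfl⟩ := hh
  refine ⟨ext f, ⟨f, hcl f hf ⟨2, fun i => if i = 0 then 0 else if i = 1 then d else 1,
    ⟨by simp, by simp, fun i hi => ?_, fun i hi => ?_⟩, fun i hi => ?_⟩, rfl⟩, h2, h3⟩
  · obtain rfl | rfl : i = 0 ∨ i = 1 := by omega
    · simpa using d0
    · simpa using d1
  · obtain rfl | rfl | rfl : i = 0 ∨ i = 1 ∨ i = 2 := by omega
    · exact dy_zero
    · exact hd
    · exact dy_one
  · obtain rfl | rfl : i = 0 ∨ i = 1 := by omega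
    · refine ⟨1, one_mem _, fun y _ b => Subtype.ext ?_⟩
      rw [← ext_coe, h2 y (by simpa using b)]
      rfl
    · refine ⟨g, hg, fun y a _ => Subtype.ext ?_⟩
      rw [← ext_coe, h3 y (by simpa using a), ext_coe]

theorem conj_decidable (H : Subgroup (I ≃ₜ I)) (hF : ∀ h ∈ H, InF h)
    (hcl : ∀ f, InF f → Piecewise H f → f ∈ H) (m : ℕ) (s : Fin m → H)
    (hs : Subgroup.closure (Set.range s) = ⊤) :
    ComputablePred fun p : List (Fin m × Bool) × List (Fin m × Bool) =>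
      IsConj (evalWord s p.1) (evalWord s p.2) := by
  let φ : H →* P := ext.comp H.subtype
  have φi : Function.Injective φ := ext_inj.comp Subtype.val_injective
  let l : List P := List.ofFn fun i => φ (s i)
  have hl : H.map ext = Subgroup.closure {g | g ∈ l} := by
    have a : {g | g ∈ l} = φ '' Set.range s := by
      ext g
      simp [l, List.mem_ofFn]
    rw [a, ← MonoidHom.map_closure, hs, ← Subgroup.map_map, ← MonoidHom.range_eq_map,
      Subgroup.range_subtype]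
  obtain ⟨C, hC⟩ := exists_ctx' H hF hcl hl
  have key := conj_computable (C := C) (l := l) (hC.trans hl)
  let τ : List (Fin m × Bool) → Word := List.map fun q => ((q.1 : ℕ), q.2)
  have hτ : Primrec τ := Primrec.list_map Primrec.id
    (Primrec.pair (Primrec.fin_val.comp (Primrec.fst.comp Primrec.snd))
      (Primrec.snd.comp Primrec.snd)).to₂
  have hev : ∀ w, ev l (τ w) = φ (evalWord s w) := fun w => by
    unfold ev evalWord
    rw [map_list_prod, List.map_map, List.map_map]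
    congr 1
    refine List.map_congr_left fun q _ => ?_
    have : l.getD q.1 1 = φ (s q.1) := by simp [l]
    simp only [Function.comp, this]
    split_ifs <;> simp
  refine ComputablePred.computable_of_manyOneReducible
    ⟨fun p => (τ p.1, τ p.2), ((hτ.comp Primrec.fst).pair (hτ.comp Primrec.snd)).to_comp,
      fun p => ?_⟩ key
  simp only [hev, isConj_iff, hC]
  constructor
  · rintro ⟨c, hc⟩
    exact ⟨φ c, ⟨c, c.2, rfl⟩, by rw [← hc]; simp⟩
  · rintro ⟨_, ⟨c, hc, rfl⟩, e⟩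
    refine ⟨⟨c, hc⟩, φi ?_⟩
    rw [← e, map_mul, map_mul, map_inv]
    rfl

end Pool.Agent.MP_337e3e_al.Own
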